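import Pool.Agent.H.MP_7d3ffc_al.DF.Bet

/-!
# Module DF/Alp: the exchange of two blocks of the same size

`n = 2 * m`, `ρ` pure with block function `c2 n m`, `X = fixSp ρ (RB c2)`, `s = pm h2 (sw hn)`,
`e = av ρ (RB c2)`, `A y = e (ρ s y)`. For `p ∈ PB c2`: `e (ρ p y) = ρ p (e y)` (`av_conj`, `PB_conj`).

`alpha`: `card (RB c2) • e y = ∑_h ρ (bU h) y` over all `h` (`mem_RB_iff`, `bU_inj`, `proj_apply`), and
`s (bU h) s = bL h`, so `2 ^ (m ^ 2) A (A x) = ∑_h e (ρ (bL h) x)`. The term for `h = 0` is `x`, for a unit `h`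
it is `A (ρ (bD h) x)` by `bsw_unit` (`av_rho`; `bU` fixes `x`), for the other `h` it is `0` by `van2`.

`two_swap`: by `alpha`, `beta`, `∑_h A (ρ (bD h) x) = (2 ^ m - 1) x` for all `x ∈ X` (`m ^ 2 - m (m - 1) = m`), i.e.
`A (N x) = (2 ^ m - 1) x` with `N = ∑_h ρ (bD h)`. So `N` is injective on `X`. `W = span {ρ l x}` is stable
under `LB`, so under `N`, and contained in `X` (`PB_fix`); it is finite-dimensional, so `N` is
surjective on `W` (`LinearMap.injective_iff_surjective`): `x = N y`, `y ∈ W`, `A x = (2 ^ m - 1) y ∈ W`.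
-/

namespace Pool.Agent.H.MP_7d3ffc_al.DF

open Matrix Matrix.SpecialLinearGroup Pool.Agent.H.MP_7d3ffc_al Pool.Agent.H.MP_7d3ffc_al.DC Module

variable {n m : ℕ} {F : Type*} [Field F] [Finite F] {V : Type*} [AddCommGroup V] [Module ℂ V]
  [FiniteDimensional ℂ V] {ρ : Representation ℂ (SpecialLinearGroup (Fin n) F) V}
  {lam : UT n F →* ℂˣ}

private theorem Alp_card (h2 : ∀ a : F, a = 0 ∨ a = 1) : Nat.card F = 2 := by
  rw [Nat.card_eq_two_iff]
  refine ⟨0, 1, zero_ne_one, ?_⟩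
  ext a
  simpa using h2 a

private theorem Alp_cardM [Finite F] (h2 : ∀ a : F, a = 0 ∨ a = 1) :
    Nat.card (Matrix (Fin m) (Fin m) F) = 2 ^ (m * m) := by
  have h : Nat.card (Fin m → Fin m → F) = 2 ^ (m * m) := by
    rw [Nat.card_fun, Nat.card_fun, Alp_card h2, Nat.card_fin, ← pow_mul]
  exact h

private theorem Alp_av [Fintype (Matrix (Fin m) (Fin m) F)]
    (ρ : Representation ℂ (SpecialLinearGroup (Fin n) F) V)
    (h2 : ∀ a : F, a = 0 ∨ a = 1) (hn : n = 2 * m) (y : V) :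
    ((2 : ℂ) ^ (m * m)) • av ρ (RB (c2 n m)) y =
      ∑ h : Matrix (Fin m) (Fin m) F, ρ (bU hn h) y := by
  classical
  letI : Fintype (RB (c2 n m) : Subgroup (SpecialLinearGroup (Fin n) F)) := Fintype.ofFinite _
  have hbij : Function.Bijective (fun h : Matrix (Fin m) (Fin m) F =>
      (⟨bU hn h, (mem_RB_iff hn _).2 ⟨h, rfl⟩⟩ :
        (RB (c2 n m) : Subgroup (SpecialLinearGroup (Fin n) F)))) := by
    constructor
    · intro h k hhk
      exact bU_inj hn (congrArg Subtype.val hhk)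
    · rintro ⟨g, hg⟩
      obtain ⟨h, rfl⟩ := (mem_RB_iff hn g).1 hg
      exact ⟨h, rfl⟩
  have hcard : Nat.card (RB (c2 n m) : Subgroup (SpecialLinearGroup (Fin n) F)) =
      2 ^ (m * m) := by
    rw [← Alp_cardM h2]
    exact (Nat.card_congr (Equiv.ofBijective _ hbij)).symm
  unfold av
  rw [proj_apply, hcard, smul_smul, Nat.cast_pow, Nat.cast_ofNat,
    mul_inv_cancel₀ (pow_ne_zero _ two_ne_zero), one_smul]
  refine (Fintype.sum_bijective _ hbij _ _ fun h => ?_).symm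
  simp

private theorem Alp_unit (hm : 0 < m) : ¬ IsUnit (0 : Matrix (Fin m) (Fin m) F) := by
  haveI : Nonempty (Fin m) := ⟨⟨0, hm⟩⟩
  exact not_isUnit_zero

private theorem Alp_split [Fintype (Matrix (Fin m) (Fin m) F)]
    [Fintype (Matrix (Fin m) (Fin m) F)ˣ] (hm : 0 < m) (f : Matrix (Fin m) (Fin m) F → V)
    (hf : ∀ h, h ≠ 0 → ¬ IsUnit h → f h = 0) :
    ∑ h, f h = f 0 + ∑ h : (Matrix (Fin m) (Fin m) F)ˣ, f h.1 := by
  classical
  have h1 : ∑ h : (Matrix (Fin m) (Fin m) F)ˣ, f h.1 =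
      ∑ h : Matrix (Fin m) (Fin m) F, if IsUnit h then f h else 0 := by
    refine Fintype.sum_of_injective (Units.val) Units.val_injective _ _ (fun h hh => ?_)
      (fun h => ?_)
    · rw [if_neg]
      rintro ⟨u, rfl⟩
      exact hh ⟨u, rfl⟩
    · rw [if_pos h.isUnit]
  have h0 : f 0 = ∑ h : Matrix (Fin m) (Fin m) F, if h = 0 then f h else 0 := by
    rw [Finset.sum_ite_eq' Finset.univ (0 : Matrix (Fin m) (Fin m) F) f]
    simp
  rw [h1, h0, ← Finset.sum_add_distrib]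
  refine Finset.sum_congr rfl fun h _ => ?_
  by_cases hz : h = 0
  · subst hz
    rw [if_pos rfl, if_neg (Alp_unit hm), add_zero]
  · rw [if_neg hz, zero_add]
    by_cases hu : IsUnit h
    · rw [if_pos hu]
    · rw [if_neg hu, hf h hz hu]

private theorem Alp_ss (h2 : ∀ a : F, a = 0 ∨ a = 1) (hn : n = 2 * m) :
    pm h2 (sw hn) * pm h2 (sw hn) = 1 := by
  rw [pm_mul, sw_sw, pm_one]

private theorem Alp_L0 (hn : n = 2 * m) :
    bL hn (0 : Matrix (Fin m) (Fin m) F) = 1 := by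
  have h := bL_add hn (0 : Matrix (Fin m) (Fin m) F) 0
  rw [add_zero] at h
  exact (mul_eq_left.mp h.symm)

theorem alpha [Fintype (Matrix (Fin m) (Fin m) F)ˣ] (h2 : ∀ a : F, a = 0 ∨ a = 1)
    (hn : n = 2 * m) (hm : 0 < m)
    (hP : IsPure ρ lam (c2 n m)) {x : V} (hx : x ∈ fixSp ρ (RB (c2 n m))) :
    ((2 : ℂ) ^ (m * m)) • av ρ (RB (c2 n m)) (ρ (pm h2 (sw hn))
      (av ρ (RB (c2 n m)) (ρ (pm h2 (sw hn)) x))) =
      x + ∑ h : (Matrix (Fin m) (Fin m) F)ˣ,
        av ρ (RB (c2 n m)) (ρ (pm h2 (sw hn)) (ρ (bD hn h) x)) := by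
  classical
  letI : Fintype (Matrix (Fin m) (Fin m) F) := Fintype.ofFinite _
  have hfix : ∀ k : Matrix (Fin m) (Fin m) F, ρ (bU hn k) x = x := fun k =>
    mem_fixSp.1 hx _ ((mem_RB_iff hn _).2 ⟨k, rfl⟩)
  have h1 : ((2 : ℂ) ^ (m * m)) • av ρ (RB (c2 n m)) (ρ (pm h2 (sw hn))
      (av ρ (RB (c2 n m)) (ρ (pm h2 (sw hn)) x))) =
      ∑ h : Matrix (Fin m) (Fin m) F, av ρ (RB (c2 n m)) (ρ (bL hn h) x) := by
    rw [← map_smul, ← map_smul, Alp_av ρ h2 hn, map_sum, map_sum]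
    refine Finset.sum_congr rfl fun h _ => ?_
    have h3 : pm h2 (sw hn) * bU hn h * pm h2 (sw hn) = bL hn h := by
      rw [bsw h2 hn, mul_assoc, Alp_ss h2 hn, mul_one]
    rw [← h3, map_mul, map_mul, Module.End.mul_apply, Module.End.mul_apply]
  rw [h1, Alp_split hm (fun h => av ρ (RB (c2 n m)) (ρ (bL hn h) x))
    (fun h hh hu => van2 h2 hn hm hP (g := bL hn h) rfl hh hu hx), Alp_L0, map_one,
    Module.End.one_apply, av_self ρ _ hx]
  congr 1
  refine Finset.sum_congr rfl fun h _ => ?_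
  rw [bsw_unit h2 hn h, map_mul, map_mul, map_mul, Module.End.mul_apply, Module.End.mul_apply,
    Module.End.mul_apply, hfix, av_rho ρ _ ((mem_RB_iff hn _).2 ⟨_, rfl⟩)]

theorem two_swap (h2 : ∀ a : F, a = 0 ∨ a = 1) (hn : n = 2 * m) (hm : 0 < m)
    (hP : IsPure ρ lam (c2 n m)) {x : V} (hx : x ∈ fixSp ρ (RB (c2 n m))) :
    av ρ (RB (c2 n m)) (ρ (pm h2 (sw hn)) x) ∈
      Submodule.span ℂ {y | ∃ l ∈ LB (c2 n m), y = ρ l x} := by
  classical
  letI : Fintype (Matrix (Fin m) (Fin m) F)ˣ := Fintype.ofFinite _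
  set E := av ρ (RB (c2 n m)) with hE
  set N : V →ₗ[ℂ] V := ∑ h : (Matrix (Fin m) (Fin m) F)ˣ, ρ (bD hn h) with hN
  have hNa : ∀ y, N y = ∑ h : (Matrix (Fin m) (Fin m) F)ˣ, ρ (bD hn h) y := fun y => by
    rw [hN, LinearMap.sum_apply]
  have hexp : m * m = m + m * (m - 1) := by
    obtain ⟨k, rfl⟩ : ∃ k, m = k + 1 := ⟨m - 1, by omega⟩
    simp only [Nat.add_sub_cancel]
    ring
  have hkey : ∀ y ∈ fixSp ρ (RB (c2 n m)), E (ρ (pm h2 (sw hn)) (N y)) =
      ((2 : ℂ) ^ m - 1) • y := by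
    intro y hy
    have ha := alpha h2 hn hm hP hy
    have hb := beta h2 hn hm hP hy
    rw [hexp, pow_add, mul_smul, hb] at ha
    rw [hNa, map_sum, map_sum, sub_smul, one_smul, ha]
    abel
  set W : Submodule ℂ V := Submodule.span ℂ {y | ∃ l ∈ LB (c2 n m), y = ρ l x} with hW
  have hxW : x ∈ W := Submodule.subset_span ⟨1, one_mem _, by simp⟩
  have hWX : W ≤ fixSp ρ (RB (c2 n m)) := by
    rw [hW, Submodule.span_le]
    rintro y ⟨l, hl, rfl⟩
    exact PB_fix ρ (LB_le_PB _ hl) hx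
  have hWl : ∀ l ∈ LB (c2 n m), ∀ y ∈ W, ρ l y ∈ W := by
    intro l hl y hy
    have h : W ≤ W.comap (ρ l) := by
      conv_lhs => rw [hW]
      rw [Submodule.span_le]
      rintro z ⟨l', hl', rfl⟩
      refine Submodule.subset_span ⟨l * l', mul_mem hl hl', ?_⟩
      rw [map_mul, Module.End.mul_apply]
    exact h hy
  have hNW : ∀ y ∈ W, N y ∈ W := by
    intro y hy
    rw [hNa]
    exact Submodule.sum_mem _ fun h _ => hWl _ (bD_mem hn h) y hy
  have h2m : ((2 : ℂ) ^ m - 1) ≠ 0 := by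
    have h : (1 : ℕ) < 2 ^ m := Nat.one_lt_two_pow (by omega)
    intro h3
    have h4 : ((2 ^ m : ℕ) : ℂ) = ((1 : ℕ) : ℂ) := by
      push_cast
      linear_combination h3
    have h5 := Nat.cast_injective h4
    omega
  have hinj : Function.Injective (N.restrict hNW) := by
    rw [injective_iff_map_eq_zero]
    intro y hy
    have h3 : N y.1 = 0 := congrArg Subtype.val hy
    have h4 := hkey y.1 (hWX y.2)
    rw [h3, map_zero, map_zero] at h4
    exact Subtype.ext ((smul_eq_zero.mp h4.symm).resolve_left h2m)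
  obtain ⟨y, hy⟩ := LinearMap.injective_iff_surjective.mp hinj ⟨x, hxW⟩
  have h3 : N y.1 = x := congrArg Subtype.val hy
  have h4 := hkey y.1 (hWX y.2)
  rw [h3] at h4
  rw [h4]
  exact W.smul_mem _ y.2

end Pool.Agent.H.MP_7d3ffc_al.DF
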