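import Pool.Agent.H.MP_7d3ffc_al.DF.Tra
import Pool.Agent.H.MP_7d3ffc_al.DF.Alp

/-!
# Module DF/Adb: all blocks have the same size, exchange of neighbouring blocks

* `blocks_eq`: let `o t` be the number of the `i` with `c i < t`; `c` is monotone, so `c i < t` iff
  `i < o t`, and `c i = t` iff `o t ≤ i < o (t + 1)`. The values of `c` are `0, ..., r - 1` without gap
  (`zero`, `step`). `tra` and `two_eq` show that two neighbouring blocks have the same size
  (`a + b = 2 * a`), so all have the same size `m`, `o t = t * m` for `t ≤ r`, `n = r * m`, and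
  `c i = i / m`.
* `adj_swap`: `tra` with `o = t * m`, `a = b = m`, and `two_swap` for `σ` (`m + m = 2 * m`) and `x` as an
  element of `Y`; `io h (pm (sw _)) = pm s` by `io_pm` and `sw_val`; the elements `l` of `LB (c2 ..)` are
  mapped to `LB c` by `io_LB`. (Map the span by `Y.subtype`: `Submodule.map_span`.)
* `adj_map`: `av_map`: show `ρ r y` has the same image as `y` for all `r` in `RB c`. By `RB_ind` with the
  statement `u ∈ PB (cm t c) ∧ Φ (ρ u y) = Φ y`: if `c i = t`, `c j = t + 1`, use `hΦ` (`a = 0` or `a = 1`).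
  Otherwise `cm t c i < cm t c j`, `x_ij ∈ RB (cm t c)`, `x_ij u = u (u⁻¹ x_ij u)` and `u⁻¹ x_ij u` is in
  `RB (cm t c)` (`PB_conj`), so `ρ (x_ij u) y = ρ u y`.
-/

namespace Pool.Agent.H.MP_7d3ffc_al.DF

open Matrix Matrix.SpecialLinearGroup Pool.Agent.H.MP_7d3ffc_al Pool.Agent.H.MP_7d3ffc_al.DC Module

variable {n : ℕ} {F : Type*} [Field F] [Finite F] {V : Type*} [AddCommGroup V] [Module ℂ V]
  [FiniteDimensional ℂ V] {ρ : Representation ℂ (SpecialLinearGroup (Fin n) F) V}
  {lam : UT n F →* ℂˣ} {c : Fin n → ℕ}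

theorem Adb_low {S : Finset (Fin n)} (hS : ∀ i ∈ S, ∀ j, j ≤ i → j ∈ S) (i : Fin n) :
    i ∈ S ↔ (i : ℕ) < S.card := by
  constructor
  · intro hi
    have h1 : Finset.Iic i ⊆ S := fun j hj => hS i hi j (Finset.mem_Iic.1 hj)
    have h2 := Finset.card_le_card h1
    rw [Fin.card_Iic] at h2
    omega
  · intro hi
    by_contra h0
    have h1 : S ⊆ Finset.Iio i := by
      intro j hj
      rw [Finset.mem_Iio]
      by_contra h3
      exact h0 (hS j hj i (not_lt.1 h3))
    have h2 := Finset.card_le_card h1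
    rw [Fin.card_Iio] at h2
    omega

/-- the sizes of the blocks, abstractly -/
theorem Adb_size {c : Fin n → ℕ} (hn : 0 < n) (hmono : Monotone c)
    (hzero : ∀ i : Fin n, (i : ℕ) = 0 → c i = 0)
    (hstep : ∀ i j : Fin n, (j : ℕ) = i + 1 → c j ≤ c i + 1)
    (heq : ∀ o a b t : ℕ, o + (a + b) ≤ n → 0 < a → 0 < b →
      (∀ i : Fin n, c i = t ↔ o ≤ (i : ℕ) ∧ (i : ℕ) < o + a) →
      (∀ i : Fin n, c i = t + 1 ↔ o + a ≤ (i : ℕ) ∧ (i : ℕ) < o + a + b) → a + b = 2 * a) :
    ∃ m : ℕ, 0 < m ∧ m ∣ n ∧ ∀ i : Fin n, c i = (i : ℕ) / m := by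
  classical
  obtain ⟨o, ho⟩ : ∃ o : ℕ → ℕ, o = fun t => (Finset.univ.filter fun i : Fin n => c i < t).card :=
    ⟨_, rfl⟩
  have hlt : ∀ (t : ℕ) (i : Fin n), c i < t ↔ (i : ℕ) < o t := by
    intro t i
    have h1 := Adb_low (S := Finset.univ.filter fun i : Fin n => c i < t) (by
      intro i hi j hj
      rw [Finset.mem_filter] at hi ⊢
      exact ⟨Finset.mem_univ _, (hmono hj).trans_lt hi.2⟩) i
    rw [Finset.mem_filter] at h1
    rw [ho]
    simpa using h1
  have hon : ∀ t, o t ≤ n := by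
    intro t
    rw [ho]
    have h1 := Finset.card_le_univ (Finset.univ.filter fun i : Fin n => c i < t)
    rwa [Fintype.card_fin] at h1
  have ho0 : o 0 = 0 := by
    rw [ho]
    simp
  let la : Fin n := ⟨n - 1, by omega⟩
  have hla : ∀ i : Fin n, i ≤ la := by
    intro i
    rw [Fin.le_def]
    show (i : ℕ) ≤ n - 1
    omega
  have hor : o (c la + 1) = n := by
    apply le_antisymm (hon _)
    by_contra h1
    have h2 : (la : ℕ) < o (c la + 1) := (hlt _ _).1 (Nat.lt_succ_self _)
    have h3 : (la : ℕ) = n - 1 := rfl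
    omega
  have hat : ∀ t, t ≤ c la → o t < o (t + 1) := by
    intro t ht
    have h1 : o t < n := by
      by_contra h1
      have h2 : ¬ ((la : ℕ) < o t) := fun h3 => absurd ((hlt t la).2 h3) (not_lt.2 ht)
      have h3 : (la : ℕ) = n - 1 := rfl
      omega
    have h2 : t ≤ c ⟨o t, h1⟩ := by
      rw [← not_lt, hlt]
      exact lt_irrefl _
    have h3 : c ⟨o t, h1⟩ ≤ t := by
      rcases Nat.eq_zero_or_pos (o t) with h4 | h4
      · rw [hzero _ h4]
        exact Nat.zero_le _
      · have h5 : c ⟨o t - 1, by omega⟩ < t := by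
          rw [hlt]
          show o t - 1 < o t
          omega
        have h6 := hstep ⟨o t - 1, by omega⟩ ⟨o t, h1⟩ (by show o t = o t - 1 + 1; omega)
        omega
    have h4 : c ⟨o t, h1⟩ < t + 1 := by omega
    rw [hlt] at h4
    exact h4
  have hval : ∀ (t : ℕ) (i : Fin n), c i = t ↔ o t ≤ (i : ℕ) ∧ (i : ℕ) < o (t + 1) := by
    intro t i
    rw [← hlt, ← not_lt, ← hlt]
    omega
  have hkey : ∀ t, t ≤ c la → o t = t * o 1 ∧ o (t + 1) = (t + 1) * o 1 := by
    intro t
    induction t with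
    | zero =>
      intro _
      exact ⟨by rw [ho0, zero_mul], by rw [zero_add, one_mul]⟩
    | succ t ih =>
      intro ht
      obtain ⟨h1, h2⟩ := ih (by omega)
      have h3 := hat t (by omega)
      have h4 := hat (t + 1) ht
      have h5 := heq (o t) (o (t + 1) - o t) (o (t + 1 + 1) - o (t + 1)) t
        (by have := hon (t + 1 + 1); omega) (by omega) (by omega)
        (by
          intro i
          rw [hval t i]
          have e : o t + (o (t + 1) - o t) = o (t + 1) := by omega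
          rw [e])
        (by
          intro i
          rw [hval (t + 1) i]
          have e : o t + (o (t + 1) - o t) = o (t + 1) := by omega
          have e' : o (t + 1) + (o (t + 1 + 1) - o (t + 1)) = o (t + 1 + 1) := by omega
          rw [e, e'])
      refine ⟨h2, ?_⟩
      have h6 : o (t + 1 + 1) + o t = 2 * o (t + 1) := by omega
      rw [h1, h2] at h6
      have h7 : (t + 1 + 1) * o 1 + t * o 1 = 2 * ((t + 1) * o 1) := by ring
      omega
  have hm : 0 < o 1 := by
    have h1 := hat 0 (Nat.zero_le _)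
    rw [ho0] at h1
    exact h1
  refine ⟨o 1, hm, ?_, ?_⟩
  · have h1 := (hkey (c la) le_rfl).2
    rw [hor] at h1
    exact Dvd.intro_left _ h1.symm
  · intro i
    have h1 : c i ≤ c la := hmono (hla i)
    obtain ⟨h2, h3⟩ := hkey (c i) h1
    obtain ⟨h4, h5⟩ := (hval (c i) i).1 rfl
    symm
    rw [h2] at h4
    rw [h3] at h5
    exact Nat.div_eq_of_lt_le h4 h5

theorem blocks_eq (h2 : ∀ a : F, a = 0 ∨ a = 1) (hn : 0 < n) (hP : IsPure ρ lam c) :
    ∃ m : ℕ, 0 < m ∧ m ∣ n ∧ ∀ i : Fin n, c i = (i : ℕ) / m := by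
  refine Adb_size hn hP.mono hP.zero hP.step ?_
  intro o a b t h ha hb hb0 hb1
  obtain ⟨Y, σ, lam', hP', -, -, -, -⟩ := tra h2 hP h ha hb hb0 hb1
  exact two_eq h2 ha (by omega) hP'

theorem Adb_div {m t i : ℕ} (hm : 0 < m) : i / m = t ↔ t * m ≤ i ∧ i < t * m + m := by
  constructor
  · rintro rfl
    refine ⟨Nat.div_mul_le_self i m, ?_⟩
    have h1 := Nat.lt_div_mul_add (a := i) hm
    exact h1
  · rintro ⟨h1, h3⟩
    refine Nat.div_eq_of_lt_le h1 ?_
    have h4 : (t + 1) * m = t * m + m := by ring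
    rw [h4]
    exact h3

theorem adj_swap (h2 : ∀ a : F, a = 0 ∨ a = 1) (hP : IsPure ρ lam c) {m : ℕ} (hm : 0 < m)
    (hmn : m ∣ n) (hc : ∀ i : Fin n, c i = (i : ℕ) / m) {t : ℕ} (ht : (t + 2) * m ≤ n)
    (s : Equiv.Perm (Fin n)) (hs : ∀ i : Fin n, ((s i : Fin n) : ℕ) =
      if c i = t then (i : ℕ) + m else if c i = t + 1 then (i : ℕ) - m else i) {x : V}
    (hx : x ∈ fixSp ρ (RB c)) : av ρ (RB c) (ρ (pm h2 s) x) ∈
      Submodule.span ℂ {y | ∃ l ∈ LB c, y = ρ l x} := by
  have hlen : t * m + (m + m) ≤ n := by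
    have h1 : (t + 2) * m = t * m + (m + m) := by ring
    rwa [h1] at ht
  have hb0 : ∀ i : Fin n, c i = t ↔ t * m ≤ (i : ℕ) ∧ (i : ℕ) < t * m + m := by
    intro i
    rw [hc, Adb_div hm]
  have hb1 : ∀ i : Fin n, c i = t + 1 ↔ t * m + m ≤ (i : ℕ) ∧ (i : ℕ) < t * m + m + m := by
    intro i
    rw [hc, Adb_div hm]
    have h1 : (t + 1) * m = t * m + m := by ring
    rw [h1]
  obtain ⟨Y, σ, lam', hP', hle, hσ, hfix, hav⟩ := tra h2 hP hlen hm hm hb0 hb1
  have hn2 : m + m = 2 * m := by ring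
  have hxY : (⟨x, hle hx⟩ : Y) ∈ fixSp σ (RB (c2 (m + m) m)) := (hfix _).2 hx
  have h3 := two_swap h2 hn2 hm hP' hxY
  have h4 := Submodule.mem_map_of_mem (f := Y.subtype) h3
  rw [Submodule.map_span] at h4
  have hem : ∀ i : Fin (m + m), c (em hlen i) = t ↔ (i : ℕ) < m := by
    intro i
    rw [hb0, em_val]
    omega
  have hem1 : ∀ i : Fin (m + m), c (em hlen i) = t + 1 ↔ m ≤ (i : ℕ) := by
    intro i
    rw [hb1, em_val]
    have := i.2
    omega
  have hio : io hlen (pm h2 (sw hn2)) = pm h2 s := by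
    apply io_pm
    · intro i
      apply Fin.ext
      rw [hs, em_val, em_val, sw_val]
      by_cases hi : (i : ℕ) < m
      · rw [if_pos ((hem i).2 hi), if_pos hi]
        omega
      · rw [if_neg (fun h => hi ((hem i).1 h)), if_pos ((hem1 i).2 (not_lt.1 hi)), if_neg hi]
        omega
    · intro i hi
      apply Fin.ext
      rw [hs, if_neg, if_neg]
      · intro h
        rw [hb1] at h
        omega
      · intro h
        rw [hb0] at h
        omega
  have h5 : Y.subtype (av σ (RB (c2 (m + m) m)) (σ (pm h2 (sw hn2)) ⟨x, hle hx⟩)) =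
      av ρ (RB c) (ρ (pm h2 s) x) := by
    rw [Submodule.subtype_apply, hav, hσ, hio]
  rw [h5] at h4
  refine Submodule.span_mono ?_ h4
  rintro _ ⟨_, ⟨l, hl, rfl⟩, rfl⟩
  refine ⟨io hlen l, io_LB hlen ?_ hl, ?_⟩
  · intro i j
    have hci : ∀ i : Fin (m + m), c (em hlen i) = t + c2 (m + m) m i := by
      intro i
      by_cases hi : (i : ℕ) < m
      · rw [(hem i).2 hi, TwoE_lt.2 hi, add_zero]
      · rw [(hem1 i).2 (not_lt.1 hi), TwoE_ge.2 (not_lt.1 hi)]
    rw [hci i, hci j]
    omega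
  · rw [Submodule.subtype_apply, hσ]

theorem adj_map (h2 : ∀ a : F, a = 0 ∨ a = 1) (hP : IsPure ρ lam c) {t : ℕ} {y : V}
    (hy : y ∈ fixSp ρ (RB (cm t c))) {W : Type*} [AddCommGroup W] [Module ℂ W]
    (Φ : V →ₗ[ℂ] W)
    (hΦ : ∀ (i j : Fin n) (h : i ≠ j), c i = t → c j = t + 1 → ∀ v : V,
      Φ (ρ (SpecialLinearGroup.transvection h 1) v) = Φ v) : Φ (av ρ (RB c) y) = Φ y := by
  have hcm : Monotone (cm t c) := cm_mono hP.mono
  refine av_map ρ (RB c) Φ y fun m hm => ?_
  have key : ∀ u ∈ RB c, u ∈ PB (cm t c) ∧ Φ (ρ u y) = Φ y := by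
    refine RB_ind hP.mono (fun u => u ∈ PB (cm t c) ∧ Φ (ρ u y) = Φ y) ?_ ?_
    · refine ⟨one_mem _, ?_⟩
      rw [map_one, Module.End.one_apply]
    · rintro i j h a u hne ⟨hu, hu2⟩
      have hlt : c i < c j := lt_of_le_of_ne (hP.mono h.le) hne
      refine ⟨mul_mem (tv_mem_PB h.ne a (hcm h.le)) hu, ?_⟩
      by_cases hij : c i = t ∧ c j = t + 1
      · rw [map_mul, Module.End.mul_apply]
        rcases h2 a with rfl | rfl
        · have h0 : SpecialLinearGroup.transvection h.ne (0 : F) = 1 := by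
            apply Subtype.ext
            show Matrix.transvection i j (0 : F) = 1
            exact Matrix.transvection_zero i j
          rw [h0, map_one, Module.End.one_apply]
          exact hu2
        · rw [hΦ i j h.ne hij.1 hij.2, hu2]
      · have hlt2 : cm t c i < cm t c j := by
          unfold cm
          split_ifs <;> omega
        have h3 : u⁻¹ * SpecialLinearGroup.transvection h.ne a * u⁻¹⁻¹ ∈ RB (cm t c) :=
          PB_conj (inv_mem hu) (tv_mem_RB h.ne a hlt2)
        rw [inv_inv] at h3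
        have h4 : SpecialLinearGroup.transvection h.ne a * u =
            u * (u⁻¹ * SpecialLinearGroup.transvection h.ne a * u) := by group
        rw [h4, map_mul, Module.End.mul_apply, hy _ h3]
        exact hu2
  exact (key m hm).2

end Pool.Agent.H.MP_7d3ffc_al.DF
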