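import Pool.Agent.H.MP_7d3ffc_al.DC.Cnt
import Pool.Agent.H.MP_7d3ffc_al.DC.Assoc

/-!
# Module DF/Av: averages and projections to eigenspaces

All statements follow from the module Lin (`rho_proj`, `proj_rho`, `proj_eq_self`, `proj_apply`) and
`mem_fixSp`, `mem_eigSp`. `av_conj`: reindex the sum by the conjugation (a bijection of the finite
group `M`). `av_map`: apply `Φ` to the sum (`proj_apply`). `av_le`, `pe_av` are special cases of `av_map`.
-/

namespace Pool.Agent.H.MP_7d3ffc_al.DF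

open Pool.Agent.H.MP_7d3ffc_al Pool.Agent.H.MP_7d3ffc_al.DC Module

variable {G : Type*} [Group G] [Finite G] {V : Type*} [AddCommGroup V] [Module ℂ V]

/-- the average over `M`, the projection to the fixed points -/
noncomputable def av (ρ : Representation ℂ G V) (M : Subgroup G) : V →ₗ[ℂ] V :=
  letI := Fintype.ofFinite M
  proj ρ M 1

/-- the projection to the eigenspace of `μ` -/
noncomputable def pe (ρ : Representation ℂ G V) (M : Subgroup G) (μ : M →* ℂˣ) : V →ₗ[ℂ] V :=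
  letI := Fintype.ofFinite M
  proj ρ M μ

variable (ρ : Representation ℂ G V) (M : Subgroup G)

theorem av_mem (v : V) : av ρ M v ∈ fixSp ρ M := by
  let _ := Fintype.ofFinite M
  intro x hx
  have h := rho_proj ρ M 1 v ⟨x, hx⟩
  rw [MonoidHom.one_apply, Units.val_one, one_smul] at h
  exact h

theorem av_self {v : V} (hv : v ∈ fixSp ρ M) : av ρ M v = v := by
  let _ := Fintype.ofFinite M
  refine proj_eq_self ρ M 1 v fun x => ?_
  rw [MonoidHom.one_apply, Units.val_one, one_smul]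
  exact hv x x.2

theorem av_rho {m : G} (hm : m ∈ M) (v : V) : av ρ M (ρ m v) = av ρ M v := by
  let _ := Fintype.ofFinite M
  have h := proj_rho ρ M 1 v ⟨m, hm⟩
  rw [MonoidHom.one_apply, Units.val_one, one_smul] at h
  exact h

theorem rho_av {m : G} (hm : m ∈ M) (v : V) : ρ m (av ρ M v) = av ρ M v :=
  av_mem ρ M v m hm

private theorem Av_apply (v : V) : letI := Fintype.ofFinite M
    av ρ M v = (Nat.card M : ℂ)⁻¹ • ∑ x : M, ρ (x : G) v := by
  let _ := Fintype.ofFinite M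
  have h : av ρ M v = (Nat.card M : ℂ)⁻¹ • ∑ x : M, ((((1 : M →* ℂˣ) x)⁻¹ : ℂˣ) : ℂ) •
      ρ (x : G) v := proj_apply ρ M 1 v
  rw [h]
  congr 1
  refine Finset.sum_congr rfl fun x _ => ?_
  rw [MonoidHom.one_apply, inv_one, Units.val_one, one_smul]

theorem av_conj {g : G} (hg : ∀ m ∈ M, g * m * g⁻¹ ∈ M) (v : V) :
    av ρ M (ρ g v) = ρ g (av ρ M v) := by
  let _ := Fintype.ofFinite M
  have hinj : Function.Injective (fun x : M => (⟨g * x * g⁻¹, hg x x.2⟩ : M)) := by
    intro x y hxy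
    have h := congrArg Subtype.val hxy
    exact Subtype.ext (mul_left_cancel (mul_right_cancel h))
  have hbij : Function.Bijective (fun x : M => (⟨g * x * g⁻¹, hg x x.2⟩ : M)) :=
    Finite.injective_iff_bijective.1 hinj
  have h1 := Av_apply ρ M (ρ g v)
  have h2 := Av_apply ρ M v
  rw [h1, h2, map_smul, map_sum]
  congr 1
  rw [← hbij.sum_comp]
  refine Finset.sum_congr rfl fun x _ => ?_
  rw [← Module.End.mul_apply, ← Module.End.mul_apply, ← map_mul, ← map_mul]
  congr 2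
  group

theorem av_map {W : Type*} [AddCommGroup W] [Module ℂ W] (Φ : V →ₗ[ℂ] W) (v : V)
    (h : ∀ m ∈ M, Φ (ρ m v) = Φ v) : Φ (av ρ M v) = Φ v := by
  let _ := Fintype.ofFinite M
  have hcard : (Nat.card M : ℂ) ≠ 0 := Nat.cast_ne_zero.mpr Nat.card_pos.ne'
  have h1 := Av_apply ρ M v
  rw [h1, map_smul, map_sum, Finset.sum_congr rfl fun (x : M) _ => h x x.2, Finset.sum_const,
    Finset.card_univ, ← Nat.card_eq_fintype_card, ← Nat.cast_smul_eq_nsmul ℂ, smul_smul,
    inv_mul_cancel₀ hcard, one_smul]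

theorem av_le {N : Subgroup G} (h : M ≤ N) (v : V) : av ρ N (av ρ M v) = av ρ N v :=
  av_map ρ M (av ρ N) v fun _ hm => av_rho ρ N (h hm) v

theorem pe_mem (μ : M →* ℂˣ) (v : V) : pe ρ M μ v ∈ eigSp ρ M μ := by
  let _ := Fintype.ofFinite M
  exact fun x => rho_proj ρ M μ v x

theorem pe_self (μ : M →* ℂˣ) {v : V} (hv : v ∈ eigSp ρ M μ) : pe ρ M μ v = v := by
  let _ := Fintype.ofFinite M
  exact proj_eq_self ρ M μ v hv

theorem pe_rho (μ : M →* ℂˣ) (m : M) (v : V) :
    pe ρ M μ (ρ (m : G) v) = ((μ m : ℂˣ) : ℂ) • pe ρ M μ v := by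
  let _ := Fintype.ofFinite M
  exact proj_rho ρ M μ v m

theorem pe_av (μ : M →* ℂˣ) {R : Subgroup G} (h : R ≤ M) (h1 : ∀ m : M, (m : G) ∈ R → μ m = 1)
    (v : V) : pe ρ M μ (av ρ R v) = pe ρ M μ v := by
  refine av_map ρ R (pe ρ M μ) v fun m hm => ?_
  rw [pe_rho ρ M μ ⟨m, h hm⟩ v, h1 ⟨m, h hm⟩ hm, Units.val_one, one_smul]

end Pool.Agent.H.MP_7d3ffc_al.DF
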