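import Pool.Agent.H.MP_7d3ffc_al.DF.Van

/-!
# Module DF/Bet: the exchange of two blocks of the same size

`n = 2 * m`, `ρ` pure with block function `c2 n m`, `X = fixSp ρ (RB c2)`, `s = pm h2 (sw hn)`,
`e = av ρ (RB c2)`, `A y = e (ρ s y)`. For `p ∈ PB c2`: `e (ρ p y) = ρ p (e y)` (`av_conj`, `PB_conj`).

`beta`: let `K` be the finite set of the matrices `k` (m by m) with zero first column,
`card K = 2 ^ (m * (m - 1))`. Claim: `ρ s x = ∑_{k ∈ K} ρ (bL k) (A x)` for `x ∈ X`. Let `y` be the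
difference; use `fixD`: let `q = bk q11 q12 q21 q22` have the unit vector as its first column, so
`q21` has zero first column. `q s = bk q12 q11 q22 q21`, `q * bL k = bk _ q12 (q21 + q22 k) q22`.
(1) `q22` not a unit. `q22 ≠ 0` (otherwise `det q21 ≠ 0`), so `e (ρ q (ρ s x)) = 0` by `van2`. For
`k ∈ K`, `q21 + q22 k` is not a unit (zero first column) and not `0` (otherwise `q * bL k` is block upper
triangular with the noninvertible block `q22`), so `e (ρ q (ρ (bL k) (A x))) = 0` by `van2`.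
(2) `q22` a unit: for `k0 = q22⁻¹ q21 ∈ K`, `q21 + q22 k0 = 0` (`-1 = 1`), `p = q * bL k0 ∈ PB`, so
`e (ρ q (ρ (bL k0) (A x))) = ρ p (A x)`; for the other `k ∈ K` the term is `0` by `van2`. And
`q s = p (bL k0)⁻¹ s = p (bL k0) s = p s (bU k0)`, so `e (ρ q (ρ s x)) = ρ p (e (ρ s x)) = ρ p (A x)`, too.
So `e (ρ q y) = 0` for all `q`, `y = 0`. Apply `ρ s`: `x = ∑ ρ (bU k) (ρ s (A x))` (`bsw'`, `s s = 1`), apply
`e`: `x = ∑_{k ∈ K} A (A x)` (`av_rho`).
-/

namespace Pool.Agent.H.MP_7d3ffc_al.DF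

open Matrix Matrix.SpecialLinearGroup Pool.Agent.H.MP_7d3ffc_al Pool.Agent.H.MP_7d3ffc_al.DC Module

variable {n m : ℕ} {F : Type*} [Field F] [Finite F] {V : Type*} [AddCommGroup V] [Module ℂ V]
  [FiniteDimensional ℂ V] {ρ : Representation ℂ (SpecialLinearGroup (Fin n) F) V}
  {lam : UT n F →* ℂˣ}

omit [Finite F] in
theorem Bet_unit (hn : n = 2 * m) {p : SpecialLinearGroup (Fin n) F}
    {A B D : Matrix (Fin m) (Fin m) F} (hp : p.1 = bk hn A B 0 D) : IsUnit D := by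
  have hmem : p ∈ PB (c2 n m) := (mem_PB_iff hn hp).2 rfl
  obtain ⟨A', B', C', D', h⟩ := exists_bk hn (p⁻¹).1
  have hC : C' = 0 := (mem_PB_iff hn h).1 (inv_mem hmem)
  have h1 : p.1 * (p⁻¹).1 = 1 := congrArg Subtype.val (mul_inv_cancel p)
  rw [hp, h, bk_mul, ← bk_one hn] at h1
  have h2 := (bk_inj hn h1).2.2.2
  rw [zero_mul, zero_add] at h2
  exact ⟨⟨D, D', h2, mul_eq_one_comm.1 h2⟩, rfl⟩

omit [Finite F] in
theorem Bet_col (hm : 0 < m) {C : Matrix (Fin m) (Fin m) F} (h : ∀ i, C i ⟨0, hm⟩ = 0) :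
    ¬ IsUnit C := by
  rintro ⟨u, hu⟩
  have h1 : (u⁻¹).1 * C = 1 := by rw [← hu]; exact u.inv_mul
  have h2 := congrFun (congrFun h1 ⟨0, hm⟩) ⟨0, hm⟩
  rw [Matrix.mul_apply, Matrix.one_apply_eq, Finset.sum_eq_zero] at h2
  · exact zero_ne_one h2
  · intro j _
    rw [h j, mul_zero]

omit [Finite F] in
theorem Bet_mul_col (hm : 0 < m) {C D : Matrix (Fin m) (Fin m) F} (h : ∀ i, D i ⟨0, hm⟩ = 0) :
    ∀ i, (C * D) i ⟨0, hm⟩ = 0 := by
  intro i
  rw [Matrix.mul_apply]
  exact Finset.sum_eq_zero fun j _ => by rw [h j, mul_zero]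

omit [Finite F] in
theorem Bet_add_self (h2 : ∀ a : F, a = 0 ∨ a = 1) (C : Matrix (Fin m) (Fin m) F) :
    C + C = 0 := by
  ext i j
  rw [Matrix.add_apply, Matrix.zero_apply]
  rcases h2 (C i j) with h | h
  · rw [h, add_zero]
  · rw [h]
    rcases h2 (1 + 1) with h' | h'
    · exact h'
    · exact absurd (add_eq_left.1 h') one_ne_zero

omit [Finite F] in
theorem Bet_bL_zero (hn : n = 2 * m) : bL hn (0 : Matrix (Fin m) (Fin m) F) = 1 := by
  apply Subtype.ext
  exact bk_one hn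

omit [Finite F] in
theorem Bet_bL_self (h2 : ∀ a : F, a = 0 ∨ a = 1) (hn : n = 2 * m)
    (k : Matrix (Fin m) (Fin m) F) : bL hn k * bL hn k = 1 := by
  rw [← bL_add, Bet_add_self h2, Bet_bL_zero]

/-- the finite set of the matrices with zero first column -/
noncomputable def Bet_K (F : Type*) [Field F] [Fintype F] [DecidableEq F] (hm : 0 < m) :
    Finset (Matrix (Fin m) (Fin m) F) :=
  (Fintype.piFinset fun _ : Fin m => Fintype.piFinset fun j : Fin m =>
    if j = ⟨0, hm⟩ then ({0} : Finset F) else Finset.univ).map Matrix.of.toEmbedding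

omit [Finite F] in
theorem Bet_mem_K [Fintype F] [DecidableEq F] (hm : 0 < m) (k : Matrix (Fin m) (Fin m) F) :
    k ∈ Bet_K F hm ↔ ∀ i, k i ⟨0, hm⟩ = 0 := by
  constructor
  · intro h i
    obtain ⟨f, hf, rfl⟩ := Finset.mem_map.1 h
    have h1 := (Fintype.mem_piFinset.1 ((Fintype.mem_piFinset.1 hf) i)) ⟨0, hm⟩
    rw [if_pos rfl] at h1
    exact Finset.mem_singleton.1 h1
  · intro h
    refine Finset.mem_map.2 ⟨fun i j => k i j, ?_, rfl⟩
    rw [Fintype.mem_piFinset]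
    intro i
    rw [Fintype.mem_piFinset]
    intro j
    by_cases hj : j = ⟨0, hm⟩
    · subst hj
      rw [if_pos rfl]
      exact Finset.mem_singleton.2 (h i)
    · rw [if_neg hj]
      exact Finset.mem_univ _

omit [Finite F] in
theorem Bet_card_K [Fintype F] [DecidableEq F] (h2 : ∀ a : F, a = 0 ∨ a = 1) (hm : 0 < m) :
    (Bet_K F hm).card = 2 ^ (m * (m - 1)) := by
  have hF : (Finset.univ : Finset F).card = 2 := by
    have : (Finset.univ : Finset F) = {0, 1} := by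
      ext a
      simp only [Finset.mem_univ, Finset.mem_insert, Finset.mem_singleton, true_iff]
      exact h2 a
    rw [this, Finset.card_pair zero_ne_one]
  unfold Bet_K
  rw [Finset.card_map, Fintype.card_piFinset]
  simp only [Fintype.card_piFinset]
  have h1 : ∏ j : Fin m, (if j = ⟨0, hm⟩ then ({0} : Finset F) else Finset.univ).card =
      2 ^ (m - 1) := by
    rw [← Finset.mul_prod_erase Finset.univ _ (Finset.mem_univ (⟨0, hm⟩ : Fin m)), if_pos rfl,
      Finset.card_singleton, one_mul, Finset.prod_congr rfl (g := fun _ => 2)]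
    · rw [Finset.prod_const, Finset.card_erase_of_mem (Finset.mem_univ _), Finset.card_univ,
        Fintype.card_fin]
    · intro j hj
      rw [if_neg (Finset.ne_of_mem_erase hj), hF]
  rw [Finset.prod_congr rfl (fun _ _ => h1), Finset.prod_const, Finset.card_univ,
    Fintype.card_fin, ← pow_mul, mul_comm]

omit [FiniteDimensional ℂ V] in
theorem Bet_PB_av {p : SpecialLinearGroup (Fin n) F} (hp : p ∈ PB (c2 n m))
    (v : V) : av ρ (RB (c2 n m)) (ρ p v) = ρ p (av ρ (RB (c2 n m)) v) :=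
  av_conj ρ (RB (c2 n m)) (fun _ hr => PB_conj hp hr) v

theorem Bet_main (h2 : ∀ a : F, a = 0 ∨ a = 1) (hn : n = 2 * m) (hm : 0 < m)
    [Fintype F] [DecidableEq F]
    (hP : IsPure ρ lam (c2 n m)) {x : V} (hx : x ∈ fixSp ρ (RB (c2 n m))) :
    ρ (pm h2 (sw hn)) x = ∑ k ∈ Bet_K F hm, ρ (bL hn k)
      (av ρ (RB (c2 n m)) (ρ (pm h2 (sw hn)) x)) := by
  set s := pm h2 (sw hn) with hs
  set e := av ρ (RB (c2 n m)) with he
  have hAx : e (ρ s x) ∈ fixSp ρ (RB (c2 n m)) := av_mem ρ _ _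
  rw [← sub_eq_zero]
  have hz0 : ((eb hn (Sum.inl ⟨0, hm⟩) : Fin n) : ℕ) = 0 := eb_inl hn ⟨0, hm⟩
  refine fixD h2 hP (eb hn (Sum.inl ⟨0, hm⟩)) hz0 ?_
  intro q hq
  obtain ⟨q11, q12, q21, q22, hqb⟩ := exists_bk hn q.1
  have hq21 : ∀ i, q21 i ⟨0, hm⟩ = 0 := by
    intro i
    have h1 := hq (eb hn (Sum.inr i))
    rw [hqb, bk_apply_inl] at h1
    simp only [Sum.elim_inr] at h1
    rw [h1, if_neg]
    intro h3
    have := (eb hn).injective h3
    cases this
  have hqs : (q * s).1 = bk hn q12 q11 q22 q21 := by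
    change q.1 * s.1 = _
    rw [hqb, hs, pm_sw, bk_mul]
    simp
  have hqL : ∀ k, (q * bL hn k).1 = bk hn (q11 + q12 * k) q12 (q21 + q22 * k) q22 := by
    intro k
    change q.1 * bk hn 1 0 k 1 = _
    rw [hqb, bk_mul]
    simp
  have hCk : ∀ k ∈ Bet_K F hm, ¬ IsUnit (q21 + q22 * k) := by
    intro k hk
    apply Bet_col hm
    intro i
    rw [Matrix.add_apply, hq21 i, Bet_mul_col hm ((Bet_mem_K hm k).1 hk) i, add_zero]
  rw [map_sub, map_sub, map_sum, map_sum]
  have hterm : ∀ k ∈ Bet_K F hm, q21 + q22 * k ≠ 0 → e (ρ q (ρ (bL hn k) (e (ρ s x)))) = 0 := by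
    intro k hk hne
    have h1 := van2 h2 hn hm hP (hqL k) hne (hCk k hk) hAx
    rw [map_mul] at h1
    exact h1
  by_cases hu : IsUnit q22
  · obtain ⟨u, rfl⟩ := hu
    set k0 : Matrix (Fin m) (Fin m) F := (u⁻¹).1 * q21 with hk0
    have hk0K : k0 ∈ Bet_K F hm := (Bet_mem_K hm _).2 (Bet_mul_col hm hq21)
    have huk : (u : Matrix (Fin m) (Fin m) F) * k0 = q21 := by
      rw [hk0, ← mul_assoc, u.mul_inv, one_mul]
    rw [Finset.sum_eq_single k0]
    · have hpm : q * bL hn k0 ∈ PB (c2 n m) := by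
        rw [mem_PB_iff hn (hqL k0), huk, Bet_add_self h2]
      have h3 : e (ρ q (ρ (bL hn k0) (e (ρ s x)))) = ρ (q * bL hn k0) (e (ρ s x)) := by
        have h4 := Bet_PB_av (ρ := ρ) hpm (e (ρ s x))
        rw [← he, av_self ρ _ hAx] at h4
        rw [← h4, map_mul]
        rfl
      have h5 : q * s = q * bL hn k0 * (s * bU hn k0) := by
        rw [hs, bsw h2 hn k0, mul_assoc, ← mul_assoc (bL hn k0) (bL hn k0), Bet_bL_self h2 hn,
          one_mul]
      have h6 : e (ρ q (ρ s x)) = ρ (q * bL hn k0) (e (ρ s x)) := by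
        have h7 : ρ q (ρ s x) = ρ (q * bL hn k0) (ρ s x) := by
          have h8 : ρ q (ρ s x) = ρ (q * s) x := by rw [map_mul]; rfl
          rw [h8, h5, map_mul, map_mul ρ s]
          change ρ (q * bL hn k0) (ρ s (ρ (bU hn k0) x)) = _
          rw [hx _ ((mem_RB_iff hn _).2 ⟨k0, rfl⟩)]
        rw [h7]
        exact Bet_PB_av (ρ := ρ) hpm (ρ s x)
      rw [h3, h6, sub_self]
    · intro k hk hkk
      apply hterm k hk
      intro h9
      apply hkk
      have h10 : (u : Matrix (Fin m) (Fin m) F) * k = q21 := by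
        have h11 : q21 + (q21 + (u : Matrix (Fin m) (Fin m) F) * k) = q21 := by rw [h9, add_zero]
        rw [← add_assoc, Bet_add_self h2, zero_add] at h11
        exact h11
      rw [hk0, ← h10, ← mul_assoc, u.inv_mul, one_mul]
    · intro h
      exact absurd hk0K h
  · have h22 : q22 ≠ 0 := by
      intro h0
      rw [h0] at hqs
      exact Bet_col hm hq21 (Bet_unit hn hqs)
    have h1 := van2 h2 hn hm hP hqs h22 hu hx
    rw [map_mul] at h1
    have h1' : e (ρ q (ρ s x)) = 0 := h1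
    rw [h1', Finset.sum_eq_zero, sub_zero]
    intro k hk
    apply hterm k hk
    intro h0
    apply hu
    have h3 := hqL k
    rw [h0] at h3
    exact Bet_unit hn h3

theorem beta (h2 : ∀ a : F, a = 0 ∨ a = 1) (hn : n = 2 * m) (hm : 0 < m)
    (hP : IsPure ρ lam (c2 n m)) {x : V} (hx : x ∈ fixSp ρ (RB (c2 n m))) :
    ((2 : ℂ) ^ (m * (m - 1))) • av ρ (RB (c2 n m)) (ρ (pm h2 (sw hn))
      (av ρ (RB (c2 n m)) (ρ (pm h2 (sw hn)) x))) = x := by
  classical
  have : Fintype F := Fintype.ofFinite F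
  have h1 := Bet_main h2 hn hm hP hx
  set s := pm h2 (sw hn) with hs
  have hss : s * s = 1 := by rw [hs, pm_mul, sw_sw, pm_one]
  have h3 : x = ∑ k ∈ Bet_K F hm, ρ (bU hn k) (ρ s (av ρ (RB (c2 n m)) (ρ s x))) := by
    have h4 : x = ρ s (ρ s x) := by
      have h5 : ρ s (ρ s x) = ρ (s * s) x := by rw [map_mul]; rfl
      rw [h5, hss, map_one]
      rfl
    conv_lhs => rw [h4, h1, map_sum]
    refine Finset.sum_congr rfl fun k _ => ?_
    have h6 : ∀ v : V, ρ s (ρ (bL hn k) v) = ρ (bU hn k) (ρ s v) := by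
      intro v
      have h7 : ρ (s * bL hn k) v = ρ (bU hn k * s) v := by rw [hs, bsw' h2 hn k]
      rw [map_mul, map_mul] at h7
      exact h7
    exact h6 _
  have h8 : av ρ (RB (c2 n m)) x = x := av_self ρ _ hx
  have h9 := congrArg (av ρ (RB (c2 n m))) h3
  rw [h8, map_sum, Finset.sum_congr rfl
    (g := fun _ => av ρ (RB (c2 n m)) (ρ s (av ρ (RB (c2 n m)) (ρ s x)))) (fun k _ =>
      av_rho ρ _ ((mem_RB_iff hn _).2 ⟨k, rfl⟩) _), Finset.sum_const, Bet_card_K h2 hm] at h9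
  rw [← Nat.cast_smul_eq_nsmul ℂ] at h9
  push_cast at h9
  exact h9.symm

end Pool.Agent.H.MP_7d3ffc_al.DF
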