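import Pool.Agent.H.MP_7d3ffc_al.DF.TwoE

/-!
# Module DF/Bk: two by two block matrices, `n = 2 * m`

`bk hn A B C D` is the matrix with the four blocks `A B; C D`; use `Matrix.fromBlocks_multiply`,
`Matrix.reindex_apply`, `Matrix.submatrix_mul_equiv`, `Matrix.det_reindex_self`, `Matrix.det_fromBlocks_zero₂₁`
(and `₁₂`). Over a field with two elements every invertible matrix has determinant `1` and `-1 = 1`.
* `sw hn` is the permutation which exchanges the two blocks; `pm h2 (sw hn)` has the blocks `0 1; 1 0`.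
* `bU h`, `bL h`, `bD h h'` are the elements with blocks `1 h; 0 1`, `1 0; h 1`, `h 0; 0 h'`.
* `bsw`: `s (1 h; 0 1) = (1 0; h 1) s`. `bsw_unit`: for `h * k = 1`:
  `1 0; h 1 = (1 k; 0 1) s (h 0; 0 k) (1 k; 0 1)` (`k + k = 0`).
* `mem_RB_iff`, `mem_PB_iff`, `bD_mem`: `c2 n m i = 0` iff `i` is in the first block.
* `exists_bk`: every matrix is of the form `bk hn A B C D`.
-/

namespace Pool.Agent.H.MP_7d3ffc_al.DF

open Matrix Matrix.SpecialLinearGroup Pool.Agent.H.MP_7d3ffc_al Pool.Agent.H.MP_7d3ffc_al.DC Module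

variable {n m : ℕ} {F : Type*} [Field F]

/-- the index equivalence -/
def eb (hn : n = 2 * m) : Fin m ⊕ Fin m ≃ Fin n :=
  finSumFinEquiv.trans (finCongr (by omega))

theorem eb_inl (hn : n = 2 * m) (i : Fin m) : ((eb hn (Sum.inl i) : Fin n) : ℕ) = i := by
  simp [eb]

theorem eb_inr (hn : n = 2 * m) (i : Fin m) : ((eb hn (Sum.inr i) : Fin n) : ℕ) = m + i := by
  simp [eb, add_comm]

/-- the matrix with four blocks -/
def bk (hn : n = 2 * m) (A B C D : Matrix (Fin m) (Fin m) F) : Matrix (Fin n) (Fin n) F :=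
  Matrix.reindex (eb hn) (eb hn) (Matrix.fromBlocks A B C D)

theorem Bk_apply (hn : n = 2 * m) (A B C D : Matrix (Fin m) (Fin m) F) (x y : Fin m ⊕ Fin m) :
    bk hn A B C D (eb hn x) (eb hn y) = Matrix.fromBlocks A B C D x y := by
  unfold bk
  rw [Matrix.reindex_apply, Matrix.submatrix_apply, Equiv.symm_apply_apply,
    Equiv.symm_apply_apply]

theorem bk_mul (hn : n = 2 * m) (A B C D A' B' C' D' : Matrix (Fin m) (Fin m) F) :
    bk hn A B C D * bk hn A' B' C' D' =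
      bk hn (A * A' + B * C') (A * B' + B * D') (C * A' + D * C') (C * B' + D * D') := by
  unfold bk
  rw [Matrix.reindex_apply, Matrix.reindex_apply, Matrix.reindex_apply,
    Matrix.submatrix_mul_equiv, Matrix.fromBlocks_multiply]

theorem bk_one (hn : n = 2 * m) : bk hn (1 : Matrix (Fin m) (Fin m) F) 0 0 1 = 1 := by
  unfold bk
  rw [Matrix.fromBlocks_one, Matrix.reindex_apply, Matrix.submatrix_one_equiv]

theorem bk_inj (hn : n = 2 * m) {A B C D A' B' C' D' : Matrix (Fin m) (Fin m) F}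
    (h : bk hn A B C D = bk hn A' B' C' D') : A = A' ∧ B = B' ∧ C = C' ∧ D = D' :=
  Matrix.fromBlocks_inj.1 ((Matrix.reindex (eb hn) (eb hn)).injective h)

theorem exists_bk (hn : n = 2 * m) (M : Matrix (Fin n) (Fin n) F) :
    ∃ A B C D : Matrix (Fin m) (Fin m) F, M = bk hn A B C D := by
  refine ⟨(M.submatrix (eb hn) (eb hn)).toBlocks₁₁, (M.submatrix (eb hn) (eb hn)).toBlocks₁₂,
    (M.submatrix (eb hn) (eb hn)).toBlocks₂₁, (M.submatrix (eb hn) (eb hn)).toBlocks₂₂, ?_⟩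
  unfold bk
  rw [Matrix.fromBlocks_toBlocks]
  ext i j
  rw [Matrix.reindex_apply, Matrix.submatrix_apply, Matrix.submatrix_apply,
    Equiv.apply_symm_apply, Equiv.apply_symm_apply]

theorem bk_apply_inl (hn : n = 2 * m) (A B C D : Matrix (Fin m) (Fin m) F) (i : Fin m ⊕ Fin m)
    (j : Fin m) : bk hn A B C D (eb hn i) (eb hn (Sum.inl j)) =
      Sum.elim (fun i => A i j) (fun i => C i j) i := by
  rw [Bk_apply]
  rcases i with i | i
  · rfl
  · rfl

/-- the element `1 h; 0 1` -/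
def bU (hn : n = 2 * m) (h : Matrix (Fin m) (Fin m) F) : SpecialLinearGroup (Fin n) F :=
  ⟨bk hn 1 h 0 1, by
    unfold bk
    rw [Matrix.det_reindex_self, Matrix.det_fromBlocks_zero₂₁, Matrix.det_one, mul_one]⟩

/-- the element `1 0; h 1` -/
def bL (hn : n = 2 * m) (h : Matrix (Fin m) (Fin m) F) : SpecialLinearGroup (Fin n) F :=
  ⟨bk hn 1 0 h 1, by
    unfold bk
    rw [Matrix.det_reindex_self, Matrix.det_fromBlocks_zero₁₂, Matrix.det_one, mul_one]⟩

/-- the element `h 0; 0 k` for `h * k = 1` -/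
def bD (hn : n = 2 * m) (h : (Matrix (Fin m) (Fin m) F)ˣ) : SpecialLinearGroup (Fin n) F :=
  ⟨bk hn h.1 0 0 (h⁻¹).1, by
    unfold bk
    rw [Matrix.det_reindex_self, Matrix.det_fromBlocks_zero₂₁, ← Matrix.det_mul,
      Units.mul_inv h, Matrix.det_one]⟩

/-- the permutation which exchanges the two blocks -/
def sw (hn : n = 2 * m) : Equiv.Perm (Fin n) :=
  (eb hn).symm.trans ((Equiv.sumComm _ _).trans (eb hn))

theorem Bk_sw (hn : n = 2 * m) (x : Fin m ⊕ Fin m) : sw hn (eb hn x) = eb hn x.swap := by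
  unfold sw
  rw [Equiv.trans_apply, Equiv.trans_apply, Equiv.symm_apply_apply, Equiv.sumComm_apply]

theorem sw_val (hn : n = 2 * m) (i : Fin n) :
    ((sw hn i : Fin n) : ℕ) = if (i : ℕ) < m then i + m else i - m := by
  obtain ⟨x, rfl⟩ := (eb hn).surjective i
  rw [Bk_sw]
  rcases x with x | x
  · rw [Sum.swap_inl, eb_inr, eb_inl, if_pos x.2]
    omega
  · rw [Sum.swap_inr, eb_inl, eb_inr, if_neg (by omega)]
    omega

theorem sw_sw (hn : n = 2 * m) : sw hn * sw hn = 1 := by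
  ext i
  obtain ⟨x, rfl⟩ := (eb hn).surjective i
  rw [Equiv.Perm.mul_apply, Bk_sw, Bk_sw, Sum.swap_swap, Equiv.Perm.one_apply]

theorem pm_sw (h2 : ∀ a : F, a = 0 ∨ a = 1) (hn : n = 2 * m) :
    (pm h2 (sw hn)).1 = bk hn 0 1 1 0 := by
  ext i j
  obtain ⟨x, rfl⟩ := (eb hn).surjective i
  obtain ⟨y, rfl⟩ := (eb hn).surjective j
  rw [pm_apply, Bk_sw, Bk_apply]
  rcases x with x | x
  · rcases y with y | y
    · simp
    · simp [Matrix.one_apply]
  · rcases y with y | y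
    · simp [Matrix.one_apply]
    · simp

theorem bsw (h2 : ∀ a : F, a = 0 ∨ a = 1) (hn : n = 2 * m) (h : Matrix (Fin m) (Fin m) F) :
    pm h2 (sw hn) * bU hn h = bL hn h * pm h2 (sw hn) := by
  apply Subtype.ext
  show (pm h2 (sw hn)).1 * bk hn 1 h 0 1 = bk hn 1 0 h 1 * (pm h2 (sw hn)).1
  rw [pm_sw, bk_mul, bk_mul]
  simp

theorem bsw' (h2 : ∀ a : F, a = 0 ∨ a = 1) (hn : n = 2 * m) (h : Matrix (Fin m) (Fin m) F) :
    pm h2 (sw hn) * bL hn h = bU hn h * pm h2 (sw hn) := by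
  apply Subtype.ext
  show (pm h2 (sw hn)).1 * bk hn 1 0 h 1 = bk hn 1 h 0 1 * (pm h2 (sw hn)).1
  rw [pm_sw, bk_mul, bk_mul]
  simp

theorem bsw_unit (h2 : ∀ a : F, a = 0 ∨ a = 1) (hn : n = 2 * m)
    (h : (Matrix (Fin m) (Fin m) F)ˣ) :
    bL hn h.1 = bU hn (h⁻¹).1 * pm h2 (sw hn) * bD hn h * bU hn (h⁻¹).1 := by
  apply Subtype.ext
  show bk hn 1 0 h.1 1 = bk hn 1 (h⁻¹).1 0 1 * (pm h2 (sw hn)).1 * bk hn h.1 0 0 (h⁻¹).1 *
    bk hn 1 (h⁻¹).1 0 1
  have h11 : (1 : F) + 1 = 0 := by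
    rcases h2 ((1 : F) + 1) with h3 | h3
    · exact h3
    · exact absurd (add_eq_left.1 h3) one_ne_zero
  have hkk : (h⁻¹).1 + (h⁻¹).1 = (0 : Matrix (Fin m) (Fin m) F) := by
    ext i j
    rw [Matrix.add_apply, Matrix.zero_apply]
    calc (h⁻¹).1 i j + (h⁻¹).1 i j = (1 + 1) * (h⁻¹).1 i j := by ring
      _ = 0 := by rw [h11, zero_mul]
  have hik : (h⁻¹).1 * h.1 = 1 := Units.inv_mul h
  have hki : h.1 * (h⁻¹).1 = 1 := Units.mul_inv h
  rw [pm_sw, bk_mul, bk_mul, bk_mul]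
  congr 1
  · simp only [Matrix.mul_zero, Matrix.zero_mul, Matrix.mul_one, Matrix.one_mul, zero_add,
      add_zero, hik]
  · simp only [Matrix.mul_zero, Matrix.zero_mul, Matrix.mul_one, Matrix.one_mul, zero_add,
      add_zero, hik, hki, hkk]
  · simp only [Matrix.mul_zero, Matrix.zero_mul, Matrix.mul_one, Matrix.one_mul, zero_add,
      add_zero]
  · simp only [Matrix.mul_zero, Matrix.zero_mul, Matrix.mul_one, Matrix.one_mul, zero_add,
      add_zero, hki]

theorem Bk_cl (hn : n = 2 * m) (i : Fin m) : c2 n m (eb hn (Sum.inl i)) = 0 := by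
  unfold c2
  rw [eb_inl, if_pos i.2]

theorem Bk_cr (hn : n = 2 * m) (i : Fin m) : c2 n m (eb hn (Sum.inr i)) = 1 := by
  unfold c2
  rw [eb_inr, if_neg (by omega)]

theorem mem_RB_iff (hn : n = 2 * m) (g : SpecialLinearGroup (Fin n) F) :
    g ∈ RB (c2 n m) ↔ ∃ h, g = bU hn h := by
  constructor
  · intro hg
    obtain ⟨A, B, C, D, hM⟩ := exists_bk hn g.1
    have hg' : ∀ i j, (c2 n m j < c2 n m i → g.1 i j = 0) ∧
        (c2 n m i = c2 n m j → g.1 i j = if i = j then 1 else 0) := hg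
    have hA : A = 1 := by
      ext i j
      have h1 := (hg' (eb hn (Sum.inl i)) (eb hn (Sum.inl j))).2 (by rw [Bk_cl, Bk_cl])
      rw [hM, Bk_apply, Matrix.fromBlocks_apply₁₁] at h1
      rw [h1, Matrix.one_apply]
      exact if_congr (by rw [(eb hn).injective.eq_iff, Sum.inl.injEq]) rfl rfl
    have hD : D = 1 := by
      ext i j
      have h1 := (hg' (eb hn (Sum.inr i)) (eb hn (Sum.inr j))).2 (by rw [Bk_cr, Bk_cr])
      rw [hM, Bk_apply, Matrix.fromBlocks_apply₂₂] at h1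
      rw [h1, Matrix.one_apply]
      exact if_congr (by rw [(eb hn).injective.eq_iff, Sum.inr.injEq]) rfl rfl
    have hC : C = 0 := by
      ext i j
      have h1 := (hg' (eb hn (Sum.inr i)) (eb hn (Sum.inl j))).1 (by
        rw [Bk_cr, Bk_cl]
        exact Nat.zero_lt_one)
      rw [hM, Bk_apply, Matrix.fromBlocks_apply₂₁] at h1
      rw [h1, Matrix.zero_apply]
    refine ⟨B, Subtype.ext ?_⟩
    rw [hM, hA, hC, hD]
    rfl
  · rintro ⟨h, rfl⟩ i j
    show (c2 n m j < c2 n m i → bk hn 1 h 0 1 i j = 0) ∧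
        (c2 n m i = c2 n m j → bk hn 1 h 0 1 i j = if i = j then 1 else 0)
    obtain ⟨x, rfl⟩ := (eb hn).surjective i
    obtain ⟨y, rfl⟩ := (eb hn).surjective j
    rw [Bk_apply]
    rcases x with x | x
    · rcases y with y | y
      · rw [Bk_cl, Bk_cl, Matrix.fromBlocks_apply₁₁, Matrix.one_apply]
        refine ⟨fun hh => absurd hh (lt_irrefl _), fun _ => ?_⟩
        exact if_congr (by rw [(eb hn).injective.eq_iff, Sum.inl.injEq]) rfl rfl
      · rw [Bk_cl, Bk_cr]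
        exact ⟨fun hh => absurd hh (by omega), fun hh => absurd hh (by omega)⟩
    · rcases y with y | y
      · rw [Bk_cl, Bk_cr, Matrix.fromBlocks_apply₂₁, Matrix.zero_apply]
        exact ⟨fun _ => rfl, fun hh => absurd hh (by omega)⟩
      · rw [Bk_cr, Bk_cr, Matrix.fromBlocks_apply₂₂, Matrix.one_apply]
        refine ⟨fun hh => absurd hh (lt_irrefl _), fun _ => ?_⟩
        exact if_congr (by rw [(eb hn).injective.eq_iff, Sum.inr.injEq]) rfl rfl

theorem bU_inj (hn : n = 2 * m) :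
    Function.Injective (bU hn : Matrix (Fin m) (Fin m) F → SpecialLinearGroup (Fin n) F) := by
  intro h k hk
  have h1 : bk hn 1 h 0 1 = bk hn 1 k 0 1 := congrArg Subtype.val hk
  exact (bk_inj hn h1).2.1

theorem bU_add (hn : n = 2 * m) (h k : Matrix (Fin m) (Fin m) F) :
    bU hn (h + k) = bU hn h * bU hn k := by
  apply Subtype.ext
  show bk hn 1 (h + k) 0 1 = bk hn 1 h 0 1 * bk hn 1 k 0 1
  rw [bk_mul]
  simp only [Matrix.mul_zero, Matrix.zero_mul, Matrix.mul_one, Matrix.one_mul, zero_add,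
    add_zero]
  rw [add_comm h k]

theorem bL_add (hn : n = 2 * m) (h k : Matrix (Fin m) (Fin m) F) :
    bL hn (h + k) = bL hn h * bL hn k := by
  apply Subtype.ext
  show bk hn 1 0 (h + k) 1 = bk hn 1 0 h 1 * bk hn 1 0 k 1
  rw [bk_mul]
  simp only [Matrix.mul_zero, Matrix.zero_mul, Matrix.mul_one, Matrix.one_mul, zero_add,
    add_zero]

theorem mem_PB_iff (hn : n = 2 * m) {g : SpecialLinearGroup (Fin n) F}
    {A B C D : Matrix (Fin m) (Fin m) F} (hg : g.1 = bk hn A B C D) :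
    g ∈ PB (c2 n m) ↔ C = 0 := by
  constructor
  · intro h
    have h' : ∀ i j, c2 n m j < c2 n m i → g.1 i j = 0 := h
    ext i j
    have h1 := h' (eb hn (Sum.inr i)) (eb hn (Sum.inl j)) (by
      rw [Bk_cr, Bk_cl]
      exact Nat.zero_lt_one)
    rw [hg, Bk_apply, Matrix.fromBlocks_apply₂₁] at h1
    rw [h1, Matrix.zero_apply]
  · intro hC i j
    show c2 n m j < c2 n m i → g.1 i j = 0
    obtain ⟨x, rfl⟩ := (eb hn).surjective i
    obtain ⟨y, rfl⟩ := (eb hn).surjective j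
    intro hlt
    rw [hg, Bk_apply]
    rcases x with x | x
    · rw [Bk_cl] at hlt
      exact absurd hlt (Nat.not_lt_zero _)
    · rcases y with y | y
      · rw [Matrix.fromBlocks_apply₂₁, hC, Matrix.zero_apply]
      · rw [Bk_cr, Bk_cr] at hlt
        exact absurd hlt (lt_irrefl _)

theorem bD_mem (hn : n = 2 * m) (h : (Matrix (Fin m) (Fin m) F)ˣ) :
    bD hn h ∈ LB (c2 n m) := by
  intro i j
  show c2 n m i ≠ c2 n m j → bk hn h.1 0 0 (h⁻¹).1 i j = 0
  obtain ⟨x, rfl⟩ := (eb hn).surjective i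
  obtain ⟨y, rfl⟩ := (eb hn).surjective j
  intro hlt
  rw [Bk_apply]
  rcases x with x | x
  · rcases y with y | y
    · rw [Bk_cl, Bk_cl] at hlt
      exact absurd rfl hlt
    · rw [Matrix.fromBlocks_apply₁₂, Matrix.zero_apply]
  · rcases y with y | y
    · rw [Matrix.fromBlocks_apply₂₁, Matrix.zero_apply]
    · rw [Bk_cr, Bk_cr] at hlt
      exact absurd rfl hlt

end Pool.Agent.H.MP_7d3ffc_al.DF
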