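import Pool.Agent.H.MP_7d3ffc_al.DC.Gen
import Pool.Agent.H.MP_7d3ffc_al.DF.Av

/-!
# Module DF/Blk: block matrices given by a block function

`c : Fin n → ℕ` is the block function (`c i` is the number of the block of `i`). `PB c` is the group of the
block upper triangular matrices, `LB c` the group of the block diagonal matrices, `RB c` the group
of the block unitriangular matrices.

* `PB`, `LB`: `g ∈ PB c` means `g.1.BlockTriangular c` (definitionally); products and inverses:
  `Matrix.BlockTriangular.mul`, `Matrix.blockTriangular_inv_of_blockTriangular` (see the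
  module DC/Defs for the same with `c = id`, `(g⁻¹).1 = (g.1)⁻¹`). `LB c`: block triangular for `c` and for
  `OrderDual.toDual ∘ c`, or directly.
* In `PB c` the entries in positions `i`, `j` with `c i = c j` are multiplicative:
  `(g h) i j = ∑ g i k h k j` over the `k` with `c k = c i` (for the other `k` one of the factors is `0`).
  This gives the closure properties of `RB c`, and for `p ∈ PB c`, `r ∈ RB c`: `p r p⁻¹ ∈ RB c` (`PB_conj`).
* `PB_mul`: let `l` be the block diagonal part of `p`. By the last remark `l l' = 1` for the part `l'` of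
  `p⁻¹`, so `det l ≠ 0`, so `det l = 1` (`h2`), and `l⁻¹ p ∈ RB c`.
* `RB_ind`: as `UT_ind` (module DC/Gen): induction on the number of the nonzero entries above the
  diagonal.
* `fix_RB_iff`: by `RB_ind`.
-/

namespace Pool.Agent.H.MP_7d3ffc_al.DF

open Matrix Matrix.SpecialLinearGroup Pool.Agent.H.MP_7d3ffc_al Pool.Agent.H.MP_7d3ffc_al.DC Module

variable {n : ℕ} {F : Type*} [Field F]

theorem Blk_inv (g : SpecialLinearGroup (Fin n) F) : (g⁻¹).1 = (g.1)⁻¹ := by
  have h1 : g.1 * (g⁻¹).1 = 1 := congrArg Subtype.val (mul_inv_cancel g)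
  exact (Matrix.inv_eq_right_inv h1).symm

theorem Blk_tri_iff {α : Type*} [LT α] {c : Fin n → α} {g : Matrix (Fin n) (Fin n) F} :
    (∀ i j : Fin n, c j < c i → g i j = 0) ↔ g.BlockTriangular c :=
  ⟨fun h _ _ hij => h _ _ hij, fun h _ _ hij => h hij⟩

theorem Blk_inv_tri {α : Type*} [LinearOrder α] {c : Fin n → α}
    {g : SpecialLinearGroup (Fin n) F} (hg : ∀ i j : Fin n, c j < c i → g.1 i j = 0) :
    ∀ i j : Fin n, c j < c i → (g⁻¹).1 i j = 0 := by
  have : Invertible g.1 := Matrix.invertibleOfIsUnitDet _ (by rw [g.2]; exact isUnit_one)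
  rw [Blk_tri_iff, Blk_inv]
  exact Matrix.blockTriangular_inv_of_blockTriangular (Blk_tri_iff.1 hg)

theorem Blk_mul_tri {c : Fin n → ℕ} {g h : Matrix (Fin n) (Fin n) F}
    (hg : ∀ i j : Fin n, c j < c i → g i j = 0) (hh : ∀ i j : Fin n, c j < c i → h i j = 0) :
    ∀ i j : Fin n, c j < c i → (g * h) i j = 0 :=
  Blk_tri_iff.2 ((Blk_tri_iff.1 hg).mul (Blk_tri_iff.1 hh))

/-- the block diagonal part -/
def Blk_D (c : Fin n → ℕ) (g : Matrix (Fin n) (Fin n) F) : Matrix (Fin n) (Fin n) F :=
  fun i j => if c i = c j then g i j else 0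

theorem Blk_D_one (c : Fin n → ℕ) : Blk_D c (1 : Matrix (Fin n) (Fin n) F) = 1 := by
  ext i j
  unfold Blk_D
  by_cases h : c i = c j
  · rw [if_pos h]
  · rw [if_neg h, Matrix.one_apply_ne]
    rintro rfl
    exact h rfl

theorem Blk_D_mul {c : Fin n → ℕ} {g h : Matrix (Fin n) (Fin n) F}
    (hg : ∀ i j : Fin n, c j < c i → g i j = 0) (hh : ∀ i j : Fin n, c j < c i → h i j = 0) :
    Blk_D c (g * h) = Blk_D c g * Blk_D c h := by
  ext i j
  rw [Matrix.mul_apply]
  by_cases h0 : c i = c j
  · have h1 : Blk_D c (g * h) i j = (g * h) i j := if_pos h0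
    rw [h1, Matrix.mul_apply]
    refine Finset.sum_congr rfl fun k _ => ?_
    by_cases hk : c i = c k
    · have h2 : Blk_D c g i k = g i k := if_pos hk
      have h3 : Blk_D c h k j = h k j := if_pos (hk.symm.trans h0)
      rw [h2, h3]
    · have h2 : Blk_D c g i k = 0 := if_neg hk
      rw [h2, zero_mul]
      rcases lt_or_gt_of_ne hk with h4 | h4
      · rw [hh k j (h0 ▸ h4), mul_zero]
      · rw [hg i k h4, zero_mul]
  · have h1 : Blk_D c (g * h) i j = 0 := if_neg h0
    rw [h1]
    refine (Finset.sum_eq_zero fun k _ => ?_).symm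
    by_cases hk : c i = c k
    · have h3 : Blk_D c h k j = 0 := if_neg fun h4 => h0 (hk.trans h4)
      rw [h3, mul_zero]
    · have h2 : Blk_D c g i k = 0 := if_neg hk
      rw [h2, zero_mul]

theorem Blk_RB_iff {c : Fin n → ℕ} {g : Matrix (Fin n) (Fin n) F} :
    (∀ i j, (c j < c i → g i j = 0) ∧ (c i = c j → g i j = if i = j then 1 else 0)) ↔
      (∀ i j, c j < c i → g i j = 0) ∧ Blk_D c g = 1 := by
  constructor
  · intro h
    refine ⟨fun i j => (h i j).1, ?_⟩
    ext i j
    by_cases h0 : c i = c j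
    · have h1 : Blk_D c g i j = g i j := if_pos h0
      rw [h1, (h i j).2 h0, Matrix.one_apply]
    · have h1 : Blk_D c g i j = 0 := if_neg h0
      rw [h1, Matrix.one_apply_ne]
      rintro rfl
      exact h0 rfl
  · rintro ⟨h1, h2⟩ i j
    refine ⟨h1 i j, fun h0 => ?_⟩
    have h3 : Blk_D c g i j = g i j := if_pos h0
    rw [← h3, h2, Matrix.one_apply]

theorem Blk_LB_iff {c : Fin n → ℕ} {g : Matrix (Fin n) (Fin n) F} :
    (∀ i j, c i ≠ c j → g i j = 0) ↔ Blk_D c g = g := by
  constructor
  · intro h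
    ext i j
    by_cases h0 : c i = c j
    · exact if_pos h0
    · have h1 : Blk_D c g i j = 0 := if_neg h0
      rw [h1, h i j h0]
  · intro h i j h0
    rw [← h]
    exact if_neg h0

theorem Blk_inv_mul (g : SpecialLinearGroup (Fin n) F) : g.1 * (g⁻¹).1 = 1 :=
  congrArg Subtype.val (mul_inv_cancel g)

theorem Blk_mul_inv (g : SpecialLinearGroup (Fin n) F) : (g⁻¹).1 * g.1 = 1 :=
  congrArg Subtype.val (inv_mul_cancel g)

/-- block upper triangular matrices -/
def PB (c : Fin n → ℕ) : Subgroup (SpecialLinearGroup (Fin n) F) where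
  carrier := {g | ∀ i j, c j < c i → g.1 i j = 0}
  one_mem' := by
    intro i j h
    change (1 : Matrix (Fin n) (Fin n) F) i j = 0
    rw [Matrix.one_apply_ne]
    rintro rfl
    exact lt_irrefl _ h
  mul_mem' := by
    intro g h hg hh
    exact Blk_mul_tri hg hh
  inv_mem' := by
    intro g hg
    exact Blk_inv_tri hg

/-- block diagonal matrices -/
def LB (c : Fin n → ℕ) : Subgroup (SpecialLinearGroup (Fin n) F) where
  carrier := {g | ∀ i j, c i ≠ c j → g.1 i j = 0}
  one_mem' := by
    intro i j h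
    change (1 : Matrix (Fin n) (Fin n) F) i j = 0
    rw [Matrix.one_apply_ne]
    rintro rfl
    exact h rfl
  mul_mem' := by
    intro g h hg hh i j hij
    change (g.1 * h.1) i j = 0
    rw [Matrix.mul_apply]
    refine Finset.sum_eq_zero fun k _ => ?_
    by_cases hk : c i = c k
    · rw [hh k j (fun h4 => hij (hk.trans h4)), mul_zero]
    · rw [hg i k hk, zero_mul]
  inv_mem' := by
    intro g hg i j hij
    rcases lt_or_gt_of_ne hij with h | h
    · exact Blk_inv_tri (c := fun i => OrderDual.toDual (c i))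
        (fun i j hij => hg i j (ne_of_lt (OrderDual.toDual_lt_toDual.1 hij))) i j
        (OrderDual.toDual_lt_toDual.2 h)
    · exact Blk_inv_tri (fun i j hij => hg i j (ne_of_gt hij)) i j h

/-- block unitriangular matrices -/
def RB (c : Fin n → ℕ) : Subgroup (SpecialLinearGroup (Fin n) F) where
  carrier := {g | ∀ i j, (c j < c i → g.1 i j = 0) ∧ (c i = c j → g.1 i j = if i = j then 1 else 0)}
  one_mem' := by
    refine Blk_RB_iff.2 ⟨fun i j h => ?_, ?_⟩
    · change (1 : Matrix (Fin n) (Fin n) F) i j = 0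
      rw [Matrix.one_apply_ne]
      rintro rfl
      exact lt_irrefl _ h
    · exact Blk_D_one c
  mul_mem' := by
    intro g h hg hh
    have hg' := Blk_RB_iff.1 hg
    have hh' := Blk_RB_iff.1 hh
    refine Blk_RB_iff.2 ⟨Blk_mul_tri hg'.1 hh'.1, ?_⟩
    exact (Blk_D_mul hg'.1 hh'.1).trans (by rw [hg'.2, hh'.2, one_mul])
  inv_mem' := by
    intro g hg
    have hg' := Blk_RB_iff.1 hg
    have h1 := Blk_inv_tri hg'.1
    refine Blk_RB_iff.2 ⟨h1, ?_⟩
    have h2 := Blk_D_mul hg'.1 h1
    rw [hg'.2, one_mul, Blk_inv_mul, Blk_D_one] at h2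
    exact h2.symm

theorem mem_PB {c : Fin n → ℕ} {g : SpecialLinearGroup (Fin n) F} :
    g ∈ PB c ↔ ∀ i j, c j < c i → g.1 i j = 0 := Iff.rfl

theorem mem_LB {c : Fin n → ℕ} {g : SpecialLinearGroup (Fin n) F} :
    g ∈ LB c ↔ ∀ i j, c i ≠ c j → g.1 i j = 0 := Iff.rfl

theorem mem_RB {c : Fin n → ℕ} {g : SpecialLinearGroup (Fin n) F} :
    g ∈ RB c ↔ ∀ i j, (c j < c i → g.1 i j = 0) ∧
      (c i = c j → g.1 i j = if i = j then 1 else 0) := Iff.rfl

theorem Blk_mem_RB {c : Fin n → ℕ} {g : SpecialLinearGroup (Fin n) F} :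
    g ∈ RB c ↔ (∀ i j, c j < c i → g.1 i j = 0) ∧ Blk_D c g.1 = 1 := Blk_RB_iff

theorem UT_le_PB {c : Fin n → ℕ} (hc : Monotone c) : UT n F ≤ PB c := by
  intro g hg i j hij
  exact (mem_UT.1 hg).1 i j (hc.reflect_lt hij)

theorem RB_le_UT {c : Fin n → ℕ} (hc : Monotone c) : RB c ≤ UT n F := by
  intro g hg
  rw [mem_UT]
  constructor
  · intro i j hij
    rcases (hc hij.le).lt_or_eq with h | h
    · exact (hg i j).1 h
    · rw [(hg i j).2 h.symm, if_neg hij.ne']
  · intro i
    rw [(hg i i).2 rfl, if_pos rfl]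

theorem LB_le_PB (c : Fin n → ℕ) : (LB c : Subgroup (SpecialLinearGroup (Fin n) F)) ≤ PB c := by
  intro g hg i j hij
  exact hg i j hij.ne'

theorem PB_conj {c : Fin n → ℕ} {p r : SpecialLinearGroup (Fin n) F} (hp : p ∈ PB c)
    (hr : r ∈ RB c) : p * r * p⁻¹ ∈ RB c := by
  have hp' : p⁻¹ ∈ PB c := inv_mem hp
  have hr' := Blk_mem_RB.1 hr
  rw [Blk_mem_RB]
  have h1 : (p * r * p⁻¹).1 = p.1 * r.1 * (p⁻¹).1 := rfl
  have h2 := Blk_mul_tri hp hr'.1
  rw [h1]
  refine ⟨Blk_mul_tri h2 hp', ?_⟩
  rw [Blk_D_mul h2 hp', Blk_D_mul hp hr'.1, hr'.2, mul_one, ← Blk_D_mul hp hp', Blk_inv_mul,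
    Blk_D_one]

theorem PB_mul (h2 : ∀ a : F, a = 0 ∨ a = 1) {c : Fin n → ℕ} {p : SpecialLinearGroup (Fin n) F}
    (hp : p ∈ PB c) : ∃ l ∈ LB c, ∃ r ∈ RB c, p = l * r := by
  have hp' : p⁻¹ ∈ PB c := inv_mem hp
  have hD : Blk_D c p.1 * Blk_D c (p⁻¹).1 = 1 := by
    rw [← Blk_D_mul hp hp', Blk_inv_mul, Blk_D_one]
  have hdet : (Blk_D c p.1).det = 1 := by
    rcases h2 (Blk_D c p.1).det with h | h
    · exfalso
      have h3 := congrArg Matrix.det hD
      rw [Matrix.det_mul, h, zero_mul, Matrix.det_one] at h3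
      exact zero_ne_one h3
    · exact h
  obtain ⟨l, hl⟩ : ∃ l : SpecialLinearGroup (Fin n) F, l.1 = Blk_D c p.1 :=
    ⟨⟨Blk_D c p.1, hdet⟩, rfl⟩
  have hlL : l ∈ LB c := by
    intro i j hij
    rw [hl]
    exact if_neg hij
  have hlL' : l⁻¹ ∈ LB c := inv_mem hlL
  have hlP : l⁻¹ ∈ PB c := LB_le_PB c hlL'
  refine ⟨l, hlL, l⁻¹ * p, ?_, by rw [mul_inv_cancel_left]⟩
  rw [Blk_mem_RB]
  have h1 : (l⁻¹ * p).1 = (l⁻¹).1 * p.1 := rfl
  rw [h1]
  refine ⟨Blk_mul_tri hlP hp, ?_⟩
  rw [Blk_D_mul hlP hp, Blk_LB_iff.1 hlL', ← hl, Blk_mul_inv]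

theorem Blk_tv {i j r s : Fin n} (a : F) (h : ¬(i = r ∧ j = s)) :
    Matrix.transvection i j a r s = (1 : Matrix (Fin n) (Fin n) F) r s := by
  rw [Matrix.transvection, Matrix.add_apply, Matrix.single_apply_of_ne _ _ _ _ _ h, add_zero]

theorem tv_mem_PB {c : Fin n → ℕ} {i j : Fin n} (h : i ≠ j) (a : F) (hc : c i ≤ c j) :
    SpecialLinearGroup.transvection h a ∈ PB c := by
  intro r s hrs
  change (Matrix.transvection i j a) r s = 0
  rw [Blk_tv, Matrix.one_apply_ne]
  · rintro rfl
    exact lt_irrefl _ hrs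
  · rintro ⟨rfl, rfl⟩
    exact absurd hrs (not_lt.2 hc)

theorem tv_mem_LB {c : Fin n → ℕ} {i j : Fin n} (h : i ≠ j) (a : F) (hc : c i = c j) :
    SpecialLinearGroup.transvection h a ∈ LB c := by
  intro r s hrs
  change (Matrix.transvection i j a) r s = 0
  rw [Blk_tv, Matrix.one_apply_ne]
  · rintro rfl
    exact hrs rfl
  · rintro ⟨rfl, rfl⟩
    exact hrs hc

theorem tv_mem_RB {c : Fin n → ℕ} {i j : Fin n} (h : i ≠ j) (a : F) (hc : c i < c j) :
    SpecialLinearGroup.transvection h a ∈ RB c := by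
  intro r s
  refine ⟨tv_mem_PB h a hc.le r s, fun hrs => ?_⟩
  change (Matrix.transvection i j a) r s = _
  rw [Blk_tv, Matrix.one_apply]
  rintro ⟨rfl, rfl⟩
  exact absurd hrs hc.ne

theorem RB_ind {c : Fin n → ℕ} (hc : Monotone c) (P : SpecialLinearGroup (Fin n) F → Prop)
    (h1 : P 1) (hm : ∀ (i j : Fin n) (h : i < j) (a : F) (u : SpecialLinearGroup (Fin n) F),
      c i ≠ c j → P u → P (SpecialLinearGroup.transvection h.ne a * u)) :
    ∀ u ∈ RB c, P u := by
  classical
  have key : ∀ (N : ℕ) (u : SpecialLinearGroup (Fin n) F), u ∈ RB c →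
      (Finset.univ.filter fun q : Fin n × Fin n => q.1 < q.2 ∧ u.1 q.1 q.2 ≠ 0).card = N →
      P u := by
    intro N
    induction N using Nat.strong_induction_on with
    | _ N ih =>
      intro u hu hN
      have hU := mem_UT.1 (RB_le_UT hc hu)
      rcases Finset.eq_empty_or_nonempty (Finset.univ.filter fun q : Fin n × Fin n =>
        q.1 < q.2 ∧ u.1 q.1 q.2 ≠ 0) with h0 | h0
      · have hu1 : u = 1 := by
          refine Subtype.ext ?_
          ext r s
          show u.1 r s = (1 : Matrix (Fin n) (Fin n) F) r s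
          rcases lt_trichotomy r s with h | h | h
          · rw [Matrix.one_apply_ne h.ne]
            by_contra hne
            have h2 : (r, s) ∈ (Finset.univ.filter fun q : Fin n × Fin n =>
                q.1 < q.2 ∧ u.1 q.1 q.2 ≠ 0) :=
              Finset.mem_filter.2 ⟨Finset.mem_univ _, h, hne⟩
            rw [h0] at h2
            exact absurd h2 (Finset.notMem_empty _)
          · rw [h, Matrix.one_apply_eq]
            exact hU.2 s
          · rw [Matrix.one_apply_ne h.ne']
            exact hU.1 r s h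
        rw [hu1]
        exact h1
      · obtain ⟨⟨i, j⟩, hij, hmax⟩ := Finset.exists_max_image _
          (fun q : Fin n × Fin n => q.2) h0
        have hij' := (Finset.mem_filter.1 hij).2
        have hlt : i < j := hij'.1
        have hcij : c i ≠ c j := by
          intro h2
          have h3 := (hu i j).2 h2
          rw [if_neg hlt.ne] at h3
          exact hij'.2 h3
        have hclt : c i < c j := lt_of_le_of_ne (hc hlt.le) hcij
        have hrow : ∀ l, j < l → u.1 j l = 0 := by
          intro l hl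
          by_contra hne
          have h2 := hmax (j, l) (Finset.mem_filter.2 ⟨Finset.mem_univ _, hl, hne⟩)
          exact absurd hl (not_lt.2 h2)
        obtain ⟨a, ha⟩ : ∃ a, a = u.1 i j := ⟨_, rfl⟩
        obtain ⟨u', hu'⟩ : ∃ u' : SpecialLinearGroup (Fin n) F,
          u' = SpecialLinearGroup.transvection hlt.ne (-a) * u := ⟨_, rfl⟩
        have hent : ∀ r s, u'.1 r s = if r = i ∧ s = j then 0 else u.1 r s := by
          intro r s
          rw [hu']
          show (Matrix.transvection i j (-a) * u.1) r s = _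
          by_cases hr : r = i
          · subst hr
            rw [Matrix.transvection_mul_apply_same]
            rcases lt_trichotomy s j with h | h | h
            · rw [hU.1 j s h, mul_zero, add_zero, if_neg]
              rintro ⟨-, rfl⟩
              exact lt_irrefl _ h
            · rw [h, hU.2 j, if_pos ⟨rfl, rfl⟩, mul_one, ← ha]
              ring
            · rw [hrow s h, mul_zero, add_zero, if_neg]
              rintro ⟨-, rfl⟩
              exact lt_irrefl _ h
          · rw [Matrix.transvection_mul_apply_of_ne _ _ _ _ hr, if_neg (fun h => hr h.1)]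
        have hsub : (Finset.univ.filter fun q : Fin n × Fin n =>
            q.1 < q.2 ∧ u'.1 q.1 q.2 ≠ 0) ⊂
            (Finset.univ.filter fun q : Fin n × Fin n => q.1 < q.2 ∧ u.1 q.1 q.2 ≠ 0) := by
          rw [Finset.ssubset_iff_of_subset]
          · refine ⟨(i, j), hij, ?_⟩
            intro h2
            refine (Finset.mem_filter.1 h2).2.2 ?_
            rw [hent, if_pos ⟨rfl, rfl⟩]
          · intro q hq
            obtain ⟨h2, h3⟩ := (Finset.mem_filter.1 hq).2
            refine Finset.mem_filter.2 ⟨Finset.mem_univ _, h2, ?_⟩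
            rw [hent] at h3
            split_ifs at h3 with h4
            · exact absurd rfl h3
            · exact h3
        have hP : P u' := by
          refine ih _ ?_ u' ?_ rfl
          · rw [← hN]
            exact Finset.card_lt_card hsub
          · rw [hu']
            exact mul_mem (tv_mem_RB hlt.ne (-a) hclt) hu
        have h2 := hm i j hlt a u' hcij hP
        have h3 : SpecialLinearGroup.transvection hlt.ne a * u' = u := by
          rw [hu', ← mul_assoc, SpecialLinearGroup.transvection_mul_neg, one_mul]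
        rw [h3] at h2
        exact h2
  exact fun u hu => key _ u hu rfl

/-- transvections with disjoint indices commute -/
theorem tv_comm {i j k l : Fin n} (h : i ≠ j) (h' : k ≠ l) (hjk : j ≠ k) (hil : i ≠ l) (a b : F) :
    SpecialLinearGroup.transvection h a * SpecialLinearGroup.transvection h' b =
      SpecialLinearGroup.transvection h' b * SpecialLinearGroup.transvection h a := by
  refine Subtype.ext ?_
  show Matrix.transvection i j a * Matrix.transvection k l b =
    Matrix.transvection k l b * Matrix.transvection i j a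
  have h1 : Matrix.single i j a * Matrix.single k l b = (0 : Matrix (Fin n) (Fin n) F) :=
    Matrix.single_mul_single_of_ne _ _ _ _ hjk _
  have h2 : Matrix.single k l b * Matrix.single i j a = (0 : Matrix (Fin n) (Fin n) F) :=
    Matrix.single_mul_single_of_ne _ _ _ _ hil.symm _
  unfold Matrix.transvection
  rw [add_mul, mul_add, mul_add, add_mul, mul_add, mul_add, h1, h2, one_mul, one_mul, one_mul,
    mul_one, mul_one]
  abel

theorem fix_RB_iff {c : Fin n → ℕ} (hc : Monotone c) {V : Type*} [AddCommGroup V] [Module ℂ V]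
    (ρ : Representation ℂ (SpecialLinearGroup (Fin n) F) V) (v : V) :
    v ∈ fixSp ρ (RB c) ↔ ∀ (i j : Fin n) (h : i < j), c i ≠ c j → ∀ a : F,
      ρ (SpecialLinearGroup.transvection h.ne a) v = v := by
  rw [mem_fixSp]
  constructor
  · intro h i j hij hcij a
    exact h _ (tv_mem_RB hij.ne a (lt_of_le_of_ne (hc hij.le) hcij))
  · intro h
    refine RB_ind hc (fun u => ρ u v = v) ?_ ?_
    · show ρ 1 v = v
      rw [map_one]
      rfl
    · intro i j hij a u hcij hu
      show ρ (SpecialLinearGroup.transvection hij.ne a * u) v = v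
      have h2 : ρ u v = v := hu
      rw [map_mul, Module.End.mul_apply, h2]
      exact h i j hij hcij a

theorem PB_fix {c : Fin n → ℕ} {V : Type*} [AddCommGroup V] [Module ℂ V]
    (ρ : Representation ℂ (SpecialLinearGroup (Fin n) F) V) {p : SpecialLinearGroup (Fin n) F}
    (hp : p ∈ PB c) {v : V} (hv : v ∈ fixSp ρ (RB c)) : ρ p v ∈ fixSp ρ (RB c) := by
  rw [mem_fixSp] at hv ⊢
  intro m hm
  have h1 : p⁻¹ * m * p⁻¹⁻¹ ∈ RB c := PB_conj (inv_mem hp) hm
  rw [inv_inv] at h1
  have h2 : m * p = p * (p⁻¹ * m * p) := by group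
  have h3 : ρ m (ρ p v) = ρ (m * p) v := by rw [map_mul]; rfl
  rw [h3, h2, map_mul, Module.End.mul_apply, hv _ h1]

end Pool.Agent.H.MP_7d3ffc_al.DF
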