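import Pool.Agent.H.MP_7d3ffc_al.DF.Pm

/-!
# Module DF/Bru: the Bruhat decomposition over the field with two elements, block version

Let `g` be block diagonal for the block function `c` (any function). Then `g = u * pm σ * u'` with `u`, `u'` in
`UT` and in `LB c`, `c (σ i) = c i`.

Proof: consider the set of all `u * g * u'` with `u`, `u'` in `UT ⊓ LB c` (a subgroup; all these matrices are in
`LB c`). Claim: for every `k ≤ n` it contains a `g'` such that for every `j < k` there is a row `p j` with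
`g' i j = 0` for `i ≠ p j` and `g' (p j) j' = 0` for `j' ≠ j` (so `g' (p j) j = 1` by `h2`). Induction on
`k`; step: column `j = k` is not `0` (the determinant is `1`), let `i` be the last row with
`g' i j ≠ 0` (so `= 1`). `i` is not one of the `p j'`, `j' < k`. For every `l < i` with `g' l j ≠ 0` multiply
from the left by `x_li(1)`: row `i` is added to row `l`. This makes the entry `(l, j)` `0`, does not change
the columns `j' < k` (row `i` is `0` there) and not the rows `p j'` (there `g' (p j') j = 0`, so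
`l ≠ p j'`). After that column `j` is `0` except for the entry `(i, j)`. For every `j' > j` with
`g' i j' ≠ 0` multiply from the right by `x_jj'(1)`: column `j` is added to column `j'`; only the entry
`(i, j')` changes. All these transvections are in `LB c`, because `g' l j ≠ 0`, `g' i j ≠ 0` imply
`c l = c j = c i`, etc. For `k = n` `g'` is a permutation matrix: `g' = pm σ`, `σ j = p j` (`p` is injective,
hence bijective), and `c (σ j) = c j`, because `g' (σ j) j ≠ 0` and `g' ∈ LB c`.
(`Matrix.transvection_mul_apply_same`, `Matrix.mul_transvection_apply_same` and `_of_ne`. The clearing of a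
column or row can be done in one step: by the product of the transvections, or by an inner induction
on the number of the nonzero entries.)
-/

namespace Pool.Agent.H.MP_7d3ffc_al.DF

open Matrix Matrix.SpecialLinearGroup Pool.Agent.H.MP_7d3ffc_al Pool.Agent.H.MP_7d3ffc_al.DC

variable {n : ℕ} {F : Type*} [Field F]

open Classical in
/-- the numbers of nonzero entries of the columns -/
private noncomputable def Bru_f (g : Matrix (Fin n) (Fin n) F) (j : Fin n) : ℕ :=
  (Finset.univ.filter fun i => g i j ≠ 0).card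

private theorem Bru_f_eq {g h : Matrix (Fin n) (Fin n) F} {j : Fin n}
    (e : ∀ i, g i j = h i j) : Bru_f g j = Bru_f h j := by
  classical
  unfold Bru_f
  congr 1
  refine Finset.filter_congr fun i _ => ?_
  rw [e i]

private theorem Bru_f_lt {g h : Matrix (Fin n) (Fin n) F} {j l : Fin n}
    (e : ∀ i, i ≠ l → g i j = h i j) (h0 : g l j = 0) (h1 : h l j ≠ 0) :
    Bru_f g j < Bru_f h j := by
  classical
  unfold Bru_f
  refine Finset.card_lt_card (Finset.ssubset_iff_subset_ne.2 ⟨fun i hi => ?_, fun he => ?_⟩)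
  · rw [Finset.mem_filter] at hi ⊢
    refine ⟨hi.1, ?_⟩
    by_cases hil : i = l
    · rw [hil]
      exact h1
    · rw [← e i hil]
      exact hi.2
  · have h2 : l ∈ Finset.univ.filter fun i => h i j ≠ 0 :=
      Finset.mem_filter.2 ⟨Finset.mem_univ l, h1⟩
    rw [← he, Finset.mem_filter] at h2
    exact h2.2 h0

/-- the lexicographic order of the numbers of nonzero entries -/
private def Bru_lex (a b : Fin n → ℕ) : Prop := Pi.Lex (· < ·) (· < ·) a b

private theorem Bru_wf : WellFounded (Bru_lex : (Fin n → ℕ) → (Fin n → ℕ) → Prop) :=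
  Pi.Lex.wellFounded (· < ·) fun _ => wellFounded_lt

private theorem Bru_core (h2 : ∀ a : F, a = 0 ∨ a = 1) {c : Fin n → ℕ}
    {g : Matrix (Fin n) (Fin n) F} (hdet : g.det ≠ 0) (hg : ∀ i j, c i ≠ c j → g i j = 0)
    (hrow : ∀ l i : Fin n, l < i → c l = c i →
      ¬ Bru_lex (Bru_f (Matrix.transvection l i (1 : F) * g)) (Bru_f g))
    (hcol : ∀ j j' : Fin n, j < j' → c j = c j' →
      ¬ Bru_lex (Bru_f (g * Matrix.transvection j j' (1 : F))) (Bru_f g)) (j : Fin n) :
    ∃ i, (∀ l, l ≠ i → g l j = 0) ∧ ∀ j', j' ≠ j → g i j' = 0 := by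
  classical
  have h11 : (1 : F) + 1 = 0 := by
    rcases h2 (1 + 1) with h | h
    · exact h
    · exact absurd (add_eq_right.1 h) one_ne_zero
  have hone : ∀ a : F, a ≠ 0 → a = 1 := fun a ha => (h2 a).resolve_left ha
  have hc : ∀ i j, g i j ≠ 0 → c i = c j := fun i j h => by
    by_contra hcc
    exact h (hg i j hcc)
  induction j using WellFoundedLT.induction with
  | ind j IH =>
    have hne : (Finset.univ.filter fun i => g i j ≠ 0).Nonempty := by
      by_contra hne
      rw [Finset.not_nonempty_iff_eq_empty] at hne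
      refine hdet (Matrix.det_eq_zero_of_column_eq_zero j fun i => ?_)
      by_contra hi
      have : i ∈ Finset.univ.filter fun i => g i j ≠ 0 :=
        Finset.mem_filter.2 ⟨Finset.mem_univ i, hi⟩
      rw [hne] at this
      exact absurd this (Finset.notMem_empty i)
    obtain ⟨i, hi, hmax⟩ : ∃ i, g i j ≠ 0 ∧ ∀ l, g l j ≠ 0 → l ≤ i := by
      refine ⟨(Finset.univ.filter fun i => g i j ≠ 0).max' hne, ?_, fun l hl => ?_⟩
      · exact (Finset.mem_filter.1 (Finset.max'_mem _ hne)).2
      · exact Finset.le_max' _ l (Finset.mem_filter.2 ⟨Finset.mem_univ l, hl⟩)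
    have hleft : ∀ j', j' < j → g i j' = 0 := by
      intro j' hj'
      obtain ⟨i', h1, h3⟩ := IH j' hj'
      refine h1 i fun hii => hi ?_
      rw [hii]
      exact h3 j hj'.ne'
    have hcolj : ∀ l, l ≠ i → g l j = 0 := by
      intro l hl
      by_contra hlj
      have hli : l < i := lt_of_le_of_ne (hmax l hlj) hl
      refine hrow l i hli ((hc l j hlj).trans (hc i j hi).symm) ⟨j, fun j' hj' => ?_, ?_⟩
      · refine Bru_f_eq fun a => ?_
        by_cases hal : a = l
        · rw [hal, Matrix.transvection_mul_apply_same, hleft j' hj', mul_zero, add_zero]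
        · rw [Matrix.transvection_mul_apply_of_ne _ _ _ _ hal]
      · refine Bru_f_lt (l := l) (fun a ha => ?_) ?_ hlj
        · rw [Matrix.transvection_mul_apply_of_ne _ _ _ _ ha]
        · rw [Matrix.transvection_mul_apply_same, hone _ hlj, hone _ hi, mul_one, h11]
    refine ⟨i, hcolj, fun j' hj' => ?_⟩
    rcases lt_or_gt_of_ne hj' with h | h
    · exact hleft j' h
    · by_contra hij
      refine hcol j j' h ((hc i j hi).symm.trans (hc i j' hij)) ⟨j', fun j'' hj'' => ?_, ?_⟩
      · refine Bru_f_eq fun a => ?_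
        rw [Matrix.mul_transvection_apply_of_ne _ _ _ _ hj''.ne]
      · refine Bru_f_lt (l := i) (fun a ha => ?_) ?_ hij
        · rw [Matrix.mul_transvection_apply_same, hcolj a ha, mul_zero, add_zero]
        · rw [Matrix.mul_transvection_apply_same, hone _ hij, hone _ hi, mul_one, h11]

private theorem Bru_perm (h2 : ∀ a : F, a = 0 ∨ a = 1) {c : Fin n → ℕ}
    {g : SpecialLinearGroup (Fin n) F} (hg : ∀ i j, c i ≠ c j → g.1 i j = 0)
    (h : ∀ j, ∃ i, (∀ l, l ≠ i → g.1 l j = 0) ∧ ∀ j', j' ≠ j → g.1 i j' = 0) :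
    ∃ σ : Equiv.Perm (Fin n), (∀ i, c (σ i) = c i) ∧ g = pm h2 σ := by
  classical
  choose p hp1 hp2 using h
  have hdet : g.1.det ≠ 0 := by
    rw [g.2]
    exact one_ne_zero
  have hne : ∀ j, g.1 (p j) j ≠ 0 := by
    intro j h0
    refine hdet (Matrix.det_eq_zero_of_column_eq_zero j fun i => ?_)
    by_cases hi : i = p j
    · rw [hi]
      exact h0
    · exact hp1 j i hi
  have hinj : Function.Injective p := by
    intro j j' hjj
    by_contra hne'
    have h3 := hp2 j j' (Ne.symm hne')
    rw [hjj] at h3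
    exact hne j' h3
  refine ⟨Equiv.ofBijective p (Finite.injective_iff_bijective.1 hinj), fun i => ?_, ?_⟩
  · by_contra hcc
    exact hne i (hg _ _ hcc)
  · refine Subtype.ext ?_
    funext i j
    rw [pm_apply]
    by_cases hi : i = p j
    · rw [if_pos (by rw [hi]; rfl), hi]
      exact (h2 _).resolve_left (hne j)
    · rw [if_neg (fun h => hi (by rw [h]; rfl))]
      exact hp1 j i hi

theorem bruhat (h2 : ∀ a : F, a = 0 ∨ a = 1) (c : Fin n → ℕ)
    (g : SpecialLinearGroup (Fin n) F) (hg : g ∈ LB c) :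
    ∃ u ∈ UT n F ⊓ LB c, ∃ u' ∈ UT n F ⊓ LB c, ∃ σ : Equiv.Perm (Fin n),
      (∀ i, c (σ i) = c i) ∧ g = u * pm h2 σ * u' := by
  classical
  let S : Set (Fin n → ℕ) := {a | ∃ u ∈ UT n F ⊓ LB c, ∃ u' ∈ UT n F ⊓ LB c,
    a = Bru_f (u * g * u').1}
  obtain ⟨a, ⟨u, hu, u', hu', rfl⟩, hmin⟩ := Bru_wf.has_min S
    ⟨Bru_f (1 * g * 1).1, 1, Subgroup.one_mem _, 1, Subgroup.one_mem _, rfl⟩
  have hLB : u * g * u' ∈ LB c := (LB c).mul_mem ((LB c).mul_mem hu.2 hg) hu'.2
  obtain ⟨σ, hσ, he⟩ := Bru_perm h2 (mem_LB.1 hLB) (Bru_core h2 (c := c)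
    (by rw [(u * g * u').2]; exact one_ne_zero) (mem_LB.1 hLB)
    (fun l i hli hc => by
      have h3 : SpecialLinearGroup.transvection hli.ne (1 : F) ∈ UT n F ⊓ LB c :=
        ⟨el_mem hli 1, tv_mem_LB hli.ne 1 hc⟩
      refine hmin _ ⟨SpecialLinearGroup.transvection hli.ne (1 : F) * u,
        Subgroup.mul_mem _ h3 hu, u', hu', ?_⟩
      rw [mul_assoc (SpecialLinearGroup.transvection hli.ne (1 : F)) u g,
        mul_assoc (SpecialLinearGroup.transvection hli.ne (1 : F)) (u * g) u']
      rfl)
    (fun j j' hjj hc => by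
      have h3 : SpecialLinearGroup.transvection hjj.ne (1 : F) ∈ UT n F ⊓ LB c :=
        ⟨el_mem hjj 1, tv_mem_LB hjj.ne 1 hc⟩
      refine hmin _ ⟨u, hu, u' * SpecialLinearGroup.transvection hjj.ne (1 : F),
        Subgroup.mul_mem _ hu' h3, ?_⟩
      rw [← mul_assoc (u * g) u' (SpecialLinearGroup.transvection hjj.ne (1 : F))]
      rfl))
  refine ⟨u⁻¹, Subgroup.inv_mem _ hu, u'⁻¹, Subgroup.inv_mem _ hu', σ, hσ, ?_⟩
  rw [← he]
  group

/-- the usual Bruhat decomposition: `c = 0` -/
theorem bruhat_one (h2 : ∀ a : F, a = 0 ∨ a = 1) (g : SpecialLinearGroup (Fin n) F) :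
    ∃ u ∈ UT n F, ∃ u' ∈ UT n F, ∃ σ : Equiv.Perm (Fin n), g = u * pm h2 σ * u' := by
  obtain ⟨u, hu, u', hu', σ, -, he⟩ := bruhat h2 (fun _ => 0) g
    (mem_LB.2 fun i j h => absurd rfl h)
  exact ⟨u, hu.1, u', hu'.1, σ, he⟩

end Pool.Agent.H.MP_7d3ffc_al.DF
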