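import Mathlib

/-!
# Module DF/Cmb: permutations all of whose ascents are by one

`f` maps `{p, ..., p + L - 1}` to `{v, ..., v + L - 1}` with inverse `g`, and `f (i + 1) = f i + 1` whenever
`f i < f (i + 1)`, and the same for `g`. Then `g (v + L - 1 - (i - p)) = p + L - 1 - (f i - v)`, written here
without subtraction.

Proof: induction on `L`. `L = 0`: nothing to show. Let `j` be maximal such that `f (p + d) = f p + d` for all
`d ≤ j`, `j < L`. Claim: `f p + j = v + L - 1`. Otherwise the value `w = f p + j + 1` is taken at a position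
`q = g w`; `g (f p + j) = p + j`. If `g w > p + j` then `g w = p + j + 1` (condition for `g`), so
`f (p + j + 1) = f p + j + 1`, against the maximality of `j`. If `g w < p + j` then `g w = p + d` with
`d < j` and `f (g w) = f p + d < w`, a contradiction. So the first `j + 1` positions have the values
`f p, ..., v + L - 1`, and `f` maps `{p + j + 1, ..., p + L - 1}` to `{v, ..., f p - 1}`. For
`i = p + d`, `d ≤ j`: `f i = v + L - 1 - j + d`, `g (v + L - 1 - d) = p + j - d`: the claim. For the other
`i` use the induction hypothesis for `p + j + 1`, `L - j - 1`, `v`.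
-/

namespace Pool.Agent.H.MP_7d3ffc_al.DF

theorem comb (f g : ℕ → ℕ) (L : ℕ) : ∀ (p v : ℕ),
    (∀ i, p ≤ i → i < p + L → v ≤ f i ∧ f i < v + L ∧ g (f i) = i) →
    (∀ w, v ≤ w → w < v + L → p ≤ g w ∧ g w < p + L ∧ f (g w) = w) →
    (∀ i, p ≤ i → i + 1 < p + L → f i < f (i + 1) → f (i + 1) = f i + 1) →
    (∀ w, v ≤ w → w + 1 < v + L → g w < g (w + 1) → g (w + 1) = g w + 1) →
    ∀ i w, p ≤ i → i < p + L → w + i + 1 = v + L + p → g w + f i + 1 = p + L + v := by
  induction L using Nat.strong_induction_on with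
  | _ L ih =>
  intro p v hf hg hfa hga i w hi1 hi2 hw
  classical
  have hex : ∃ j, ¬ (j < L ∧ ∀ d, d ≤ j → f (p + d) = f p + d) := ⟨L, fun h => lt_irrefl _ h.1⟩
  obtain ⟨j, hj1, hj2, hj3⟩ : ∃ j, j < L ∧ (∀ d, d ≤ j → f (p + d) = f p + d) ∧
      (j + 1 < L → f (p + (j + 1)) ≠ f p + (j + 1)) := by
    have hN := Nat.find_spec hex
    have hN0 : Nat.find hex ≠ 0 := by
      intro h0
      rw [h0] at hN
      apply hN
      refine ⟨by omega, fun d hd => ?_⟩
      have hd0 : d = 0 := by omega
      rw [hd0]
      rfl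
    obtain ⟨j, hj⟩ := Nat.exists_eq_succ_of_ne_zero hN0
    have hm : ¬ ¬ (j < L ∧ ∀ d, d ≤ j → f (p + d) = f p + d) := Nat.find_min hex (by omega)
    rw [not_not] at hm
    refine ⟨j, hm.1, hm.2, fun h1 h2 => ?_⟩
    rw [hj] at hN
    apply hN
    refine ⟨h1, fun d hd => ?_⟩
    rcases Nat.lt_or_ge j d with h3 | h3
    · have h4 : d = j + 1 := by omega
      rw [h4]
      exact h2
    · exact hm.2 d h3
  have hp := hf p le_rfl (by omega)
  have hgd : ∀ d, d ≤ j → g (f p + d) = p + d := by
    intro d hd
    rw [← hj2 d hd]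
    exact (hf (p + d) (by omega) (by omega)).2.2
  have hpj := hf (p + j) (by omega) (by omega)
  have hfj := hj2 j le_rfl
  have hclaim : f p + j + 1 = v + L := by
    by_contra hne
    have hlt : f p + j + 1 < v + L := by omega
    obtain ⟨h1, h2, h3⟩ := hg (f p + j + 1) (by omega) hlt
    have h4 := hgd j le_rfl
    rcases Nat.lt_trichotomy (g (f p + j + 1)) (p + j) with h5 | h5 | h5
    · obtain ⟨d, hd⟩ := Nat.exists_eq_add_of_le h1
      have h6 := hj2 d (by omega)
      rw [← hd] at h6
      omega
    · rw [h5] at h3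
      omega
    · have h6 := hga (f p + j) (by omega) (by omega) (by omega)
      have h7 := hj3 (by omega)
      have h8 : g (f p + j + 1) = p + (j + 1) := by omega
      rw [h8] at h3
      omega
  rcases Nat.lt_or_ge (p + j) i with hij | hij
  · have hbig : ∀ q, p + j < q → q < p + L → f q < f p := by
      intro q h1 h2
      obtain ⟨h3, h4, h5⟩ := hf q (by omega) h2
      by_contra h6
      obtain ⟨d, hd⟩ := Nat.exists_eq_add_of_le (Nat.le_of_not_lt h6)
      have h7 := hgd d (by omega)
      rw [← hd] at h7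
      omega
    have key := ih (L - j - 1) (by omega) (p + j + 1) v
      (fun q h1 h2 => by
        obtain ⟨h3, h4, h5⟩ := hf q (by omega) (by omega)
        have h6 := hbig q (by omega) (by omega)
        exact ⟨h3, by omega, h5⟩)
      (fun u h1 h2 => by
        obtain ⟨h3, h4, h5⟩ := hg u h1 (by omega)
        refine ⟨?_, by omega, h5⟩
        by_contra h6
        obtain ⟨d, hd⟩ := Nat.exists_eq_add_of_le h3
        have h7 := hj2 d (by omega)
        rw [← hd] at h7
        omega)
      (fun q h1 h2 h3 => hfa q (by omega) (by omega) h3)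
      (fun u h1 h2 h3 => hga u h1 (by omega) h3) i w (by omega) (by omega) (by omega)
    omega
  · obtain ⟨d, hd⟩ := Nat.exists_eq_add_of_le hi1
    have h1 := hj2 d (by omega)
    have h2 := hgd (j - d) (by omega)
    have h3 : f p + (j - d) = w := by omega
    rw [h3] at h2
    rw [← hd] at h1
    omega

end Pool.Agent.H.MP_7d3ffc_al.DF
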