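import Pool.Agent.H.MP_7d3ffc_al.DF.Blk

/-!
# Module DF/Pm: permutation matrices over the field with two elements, pure representations

* `pm h2 σ` maps the `j`-th unit vector to the `σ j`-th; the determinant is the sign (`Matrix.det_permutation`
  or `Matrix.det_permute`), and `-1 = 1` in `F` by `h2`.
* `IsPure ρ lam c`: `lam` is the only linear constituent, `c` is its block function: `c` starts with `0`, and
  `c (i + 1) = c i` if `lam` is nontrivial on `x_i,i+1`, and `c (i + 1) = c i + 1` otherwise.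
* `exists_c`: `c i` is the number of the `k < i` such that `lam` is trivial on `x_k,k+1`.
* `pure_one`: `lam_el` (module DC/Gen) if `j ≠ i + 1`, and `blk` if `j = i + 1` (`a = 0` or `a = 1`).
* `pure_neg`: `lam (el h 1) ^ 2 = lam (el h 0) = 1`, so it is `1` or `-1`.
* `eig_le_fix`: by `fix_RB_iff` and `pure_one`.
-/

namespace Pool.Agent.H.MP_7d3ffc_al.DF

open Matrix Matrix.SpecialLinearGroup Pool.Agent.H.MP_7d3ffc_al Pool.Agent.H.MP_7d3ffc_al.DC Module

variable {n : ℕ} {F : Type*} [Field F]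

private theorem Pm_neg (h2 : ∀ a : F, a = 0 ∨ a = 1) : (-1 : F) = 1 := by
  rcases h2 (-1) with h | h
  · exact absurd (neg_eq_zero.1 h) one_ne_zero
  · exact h

private theorem Pm_two (h2 : ∀ a : F, a = 0 ∨ a = 1) : (1 + 1 : F) = 0 := by
  rcases h2 (1 + 1) with h | h
  · exact h
  · exact absurd (add_eq_left.1 h) one_ne_zero

/-- the permutation matrix -/
def pm (h2 : ∀ a : F, a = 0 ∨ a = 1) (σ : Equiv.Perm (Fin n)) : SpecialLinearGroup (Fin n) F :=
  ⟨Matrix.of fun i j => if i = σ j then 1 else 0, by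
    have h1 : (Matrix.of fun i j => if i = σ j then 1 else 0 : Matrix (Fin n) (Fin n) F) =
        (1 : Matrix (Fin n) (Fin n) F).submatrix id σ := by
      ext i j
      rw [Matrix.submatrix_apply, Matrix.one_apply, Matrix.of_apply]
      rfl
    rw [h1, Matrix.det_permute', Matrix.det_one, mul_one]
    rcases Int.units_eq_one_or (Equiv.Perm.sign σ) with h | h
    · rw [h]
      simp
    · rw [h]
      simp [Pm_neg h2]⟩

theorem pm_apply (h2 : ∀ a : F, a = 0 ∨ a = 1) (σ : Equiv.Perm (Fin n)) (i j : Fin n) :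
    (pm h2 σ).1 i j = if i = σ j then 1 else 0 := rfl

theorem pm_mul (h2 : ∀ a : F, a = 0 ∨ a = 1) (σ τ : Equiv.Perm (Fin n)) :
    pm h2 σ * pm h2 τ = pm h2 (σ * τ) := by
  refine Subtype.ext ?_
  ext i j
  show ((pm h2 σ).1 * (pm h2 τ).1) i j = (pm h2 (σ * τ)).1 i j
  rw [Matrix.mul_apply, Finset.sum_eq_single (τ j)]
  · rw [pm_apply, pm_apply, pm_apply, if_pos (rfl : τ j = τ j), mul_one]
    rfl
  · intro k _ hk
    rw [pm_apply h2 τ, if_neg hk, mul_zero]
  · intro h
    exact absurd (Finset.mem_univ _) h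

theorem pm_one (h2 : ∀ a : F, a = 0 ∨ a = 1) : pm h2 (1 : Equiv.Perm (Fin n)) = 1 := by
  refine Subtype.ext ?_
  ext i j
  show (pm h2 1).1 i j = (1 : Matrix (Fin n) (Fin n) F) i j
  rw [pm_apply, Matrix.one_apply]
  rfl

theorem pm_inv (h2 : ∀ a : F, a = 0 ∨ a = 1) (σ : Equiv.Perm (Fin n)) :
    (pm h2 σ)⁻¹ = pm h2 σ⁻¹ := by
  rw [inv_eq_iff_mul_eq_one, pm_mul, mul_inv_cancel, pm_one]

theorem pm_tv (h2 : ∀ a : F, a = 0 ∨ a = 1) (σ : Equiv.Perm (Fin n)) {i j : Fin n} (h : i ≠ j)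
    (a : F) : pm h2 σ * SpecialLinearGroup.transvection h a =
      SpecialLinearGroup.transvection (σ.injective.ne h) a * pm h2 σ := by
  refine Subtype.ext ?_
  ext r s
  show ((pm h2 σ).1 * Matrix.transvection i j a) r s =
    (Matrix.transvection (σ i) (σ j) a * (pm h2 σ).1) r s
  by_cases hs : s = j
  · subst hs
    rw [Matrix.mul_transvection_apply_same]
    by_cases hr : r = σ i
    · subst hr
      rw [Matrix.transvection_mul_apply_same, pm_apply, pm_apply, pm_apply,
        if_pos (rfl : σ i = σ i), if_pos (rfl : σ s = σ s)]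
    · rw [Matrix.transvection_mul_apply_of_ne _ _ _ _ hr, pm_apply h2 σ r i, if_neg hr, mul_zero,
        add_zero]
  · rw [Matrix.mul_transvection_apply_of_ne _ _ _ _ hs]
    by_cases hr : r = σ i
    · subst hr
      rw [Matrix.transvection_mul_apply_same, pm_apply h2 σ (σ j) s,
        if_neg (fun h' => hs (σ.injective h').symm), mul_zero, add_zero]
    · rw [Matrix.transvection_mul_apply_of_ne _ _ _ _ hr]

theorem pm_mem_LB (h2 : ∀ a : F, a = 0 ∨ a = 1) (σ : Equiv.Perm (Fin n)) {c : Fin n → ℕ}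
    (hσ : ∀ i, c (σ i) = c i) : pm h2 σ ∈ LB c := by
  rw [mem_LB]
  intro i j hij
  rw [pm_apply, if_neg]
  rintro rfl
  exact hij (hσ j)

variable {V : Type*} [AddCommGroup V] [Module ℂ V]

/-- `lam` is the only linear constituent, and `c` is its block function -/
structure IsPure (ρ : Representation ℂ (SpecialLinearGroup (Fin n) F) V) (lam : UT n F →* ℂˣ)
    (c : Fin n → ℕ) : Prop where
  mem : lam ∈ Lin ρ (UT n F)
  only : ∀ mu ∈ Lin ρ (UT n F), mu = lam
  mono : Monotone c
  zero : ∀ i : Fin n, (i : ℕ) = 0 → c i = 0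
  step : ∀ i j : Fin n, (j : ℕ) = i + 1 → c j ≤ c i + 1
  blk : ∀ (i j : Fin n) (h : i < j), (j : ℕ) = i + 1 → (c i = c j ↔ lam (el h 1) ≠ 1)

theorem exists_c (lam : UT n F →* ℂˣ) : ∃ c : Fin n → ℕ, Monotone c ∧
    (∀ i : Fin n, (i : ℕ) = 0 → c i = 0) ∧ (∀ i j : Fin n, (j : ℕ) = i + 1 → c j ≤ c i + 1) ∧
    ∀ (i j : Fin n) (h : i < j), (j : ℕ) = i + 1 → (c i = c j ↔ lam (el h 1) ≠ 1) := by
  classical
  obtain ⟨p, hp⟩ : ∃ p : Fin n → Prop, p = fun k => ∀ (j : Fin n) (h : k < j), (j : ℕ) = k + 1 →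
    lam (el h 1) = 1 := ⟨_, rfl⟩
  obtain ⟨s, hs⟩ : ∃ s : Fin n → Finset (Fin n), s = fun i =>
    Finset.univ.filter fun k => k < i ∧ p k := ⟨_, rfl⟩
  have hmem : ∀ i k, k ∈ s i ↔ k < i ∧ p k := by
    intro i k
    rw [hs]
    simp only [Finset.mem_filter, Finset.mem_univ, true_and]
  have hi : ∀ i, i ∉ s i := fun i h => lt_irrefl _ ((hmem i i).1 h).1
  have hstep : ∀ i j : Fin n, (j : ℕ) = i + 1 → s j = if p i then insert i (s i) else s i := by
    intro i j hij
    ext k
    have hk : k < j ↔ k < i ∨ k = i := by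
      rw [Fin.lt_def, Fin.lt_def, Fin.ext_iff]
      omega
    split_ifs with h
    · rw [Finset.mem_insert, hmem, hmem, hk]
      constructor
      · rintro ⟨h1 | h1, h3⟩
        · exact Or.inr ⟨h1, h3⟩
        · exact Or.inl h1
      · rintro (h1 | h1)
        · rw [h1]
          exact ⟨Or.inr rfl, h⟩
        · exact ⟨Or.inl h1.1, h1.2⟩
    · rw [hmem, hmem, hk]
      constructor
      · rintro ⟨h1 | h1, h3⟩
        · exact ⟨h1, h3⟩
        · rw [h1] at h3
          exact absurd h3 h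
      · intro h1
        exact ⟨Or.inl h1.1, h1.2⟩
  have hcard : ∀ i j : Fin n, (j : ℕ) = i + 1 → (s j).card = (s i).card + if p i then 1 else 0 := by
    intro i j hij
    rw [hstep i j hij]
    split_ifs with h
    · rw [Finset.card_insert_of_notMem (hi i)]
    · rw [add_zero]
  refine ⟨fun i => (s i).card, ?_, ?_, ?_, ?_⟩
  · intro i j hij
    refine Finset.card_le_card fun k hk => ?_
    rw [hmem] at hk ⊢
    exact ⟨hk.1.trans_le hij, hk.2⟩
  · intro i h0
    show (s i).card = 0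
    rw [Finset.card_eq_zero, Finset.eq_empty_iff_forall_notMem]
    intro k hk
    have h1 := ((hmem i k).1 hk).1
    rw [Fin.lt_def] at h1
    omega
  · intro i j hij
    show (s j).card ≤ (s i).card + 1
    rw [hcard i j hij]
    split_ifs <;> omega
  · intro i j h hij
    show (s i).card = (s j).card ↔ lam (el h 1) ≠ 1
    have hpi : p i ↔ lam (el h 1) = 1 := by
      rw [hp]
      constructor
      · intro h1
        exact h1 j h hij
      · intro h1 j' h' hij'
        have h3 : j' = j := Fin.ext (hij'.trans hij.symm)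
        subst h3
        exact h1
    rw [hcard i j hij, ← not_iff_not, not_not, ← hpi]
    split_ifs with h1
    · simp [h1]
    · simp [h1]

variable {ρ : Representation ℂ (SpecialLinearGroup (Fin n) F) V} {lam : UT n F →* ℂˣ}
  {c : Fin n → ℕ}

theorem pure_one (h2 : ∀ a : F, a = 0 ∨ a = 1) (hP : IsPure ρ lam c) {i j : Fin n} (h : i < j)
    (hc : c i ≠ c j) (a : F) : lam (el h a) = 1 := by
  rcases h2 a with rfl | rfl
  · rw [el_zero, map_one]
  · by_cases hs : (j : ℕ) = i + 1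
    · by_contra h3
      exact hc ((hP.blk i j h hs).2 h3)
    · exact lam_el lam h hs 1

theorem pure_neg (h2 : ∀ a : F, a = 0 ∨ a = 1) (hP : IsPure ρ lam c) {i j : Fin n} (h : i < j)
    (hs : (j : ℕ) = i + 1) (hc : c i = c j) : ((lam (el h 1) : ℂˣ) : ℂ) = -1 := by
  have h3 := (hP.blk i j h hs).1 hc
  have h4 : lam (el h 1) * lam (el h 1) = 1 := by
    rw [← map_mul, ← el_add, Pm_two h2, el_zero, map_one]
  have h5 : ((lam (el h 1) : ℂˣ) : ℂ) * ((lam (el h 1) : ℂˣ) : ℂ) = 1 := by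
    rw [← Units.val_mul, h4, Units.val_one]
  rcases mul_self_eq_one_iff.1 h5 with h6 | h6
  · exact absurd (Units.ext h6) h3
  · exact h6

theorem eig_le_fix (h2 : ∀ a : F, a = 0 ∨ a = 1) (hP : IsPure ρ lam c) :
    eigSp ρ (UT n F) lam ≤ fixSp ρ (RB c) := by
  intro v hv
  rw [fix_RB_iff hP.mono]
  intro i j h hc a
  have h1 := mem_eigSp.1 hv (el h a)
  rw [pure_one h2 hP h hc a, Units.val_one, one_smul] at h1
  exact h1

theorem pure_RB (h2 : ∀ a : F, a = 0 ∨ a = 1) (hP : IsPure ρ lam c) (u : UT n F)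
    (hu : (u : SpecialLinearGroup (Fin n) F) ∈ RB c) : lam u = 1 := by
  have key : ∀ g ∈ RB c, ∀ hg : g ∈ UT n F, lam ⟨g, hg⟩ = 1 := by
    refine RB_ind hP.mono (fun g => ∀ hg : g ∈ UT n F, lam ⟨g, hg⟩ = 1) ?_ ?_
    · intro hg
      exact map_one lam
    · intro i j h a g hc ih hg
      have h1 : g ∈ UT n F := by
        have h3 : g = (SpecialLinearGroup.transvection h.ne a)⁻¹ *
            (SpecialLinearGroup.transvection h.ne a * g) := by group
        rw [h3]
        exact mul_mem (inv_mem (el_mem h a)) hg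
      have h3 : (⟨SpecialLinearGroup.transvection h.ne a * g, hg⟩ : UT n F) =
          el h a * ⟨g, h1⟩ := Subtype.ext rfl
      rw [h3, map_mul, pure_one h2 hP h hc a, ih h1, one_mul]
  exact key u hu u.2

end Pool.Agent.H.MP_7d3ffc_al.DF
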