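import Pool.Agent.H.MP_7d3ffc_al.DF.Eig
import Pool.Agent.H.MP_7d3ffc_al.DF.Pm

/-!
# Module DF/Cus: the fixed points of the unipotent radical are cuspidal

Let `ρ` be pure with block function `c`, `X = fixSp ρ (RB c)`, `T` a nonempty proper subset of the block
`b`. If `v ∈ X` is fixed by all `x_ij`, `i ∈ T`, `j` in the block `b`, `j ∉ T`, then `v = 0`.

Proof: let `o` be the first element of the block, `t` the number of elements of `T`. There is a permutation
`σ` of `Fin n` which preserves all blocks (`c (σ i) = c i`) and maps `T` onto `{o, ..., o + t - 1}`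
(for instance extend an order isomorphism of `T` onto this interval, `Equiv.Perm` from an equivalence of
subtypes, `Equiv.extendSubtype`, applied in the block; or: among the block preserving permutations
take one which minimizes the sum of the numbers in `σ(T)`: if `σ(T)` is not an initial segment of the
block then exchanging two elements makes it smaller).
Let `v' = ρ (pm σ) v` and `c' i = 2 * c i + 1` if `i` is in the block `b` but not in `σ(T)`, `c' i = 2 * c i`
otherwise; `c'` is monotone. `v'` is fixed by all `x_ij`, `i < j`, `c' i ≠ c' j`: if `c i ≠ c j` because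
`v' ∈ X` (`PB_fix`, `pm_mem_LB`, `LB_le_PB`), else `i ∈ σ(T)`, `j ∉ σ(T)` and
`x_ij pm σ = pm σ x_kl`, `k = σ⁻¹ i ∈ T`, `l = σ⁻¹ j` (`pm_tv`). So `v'` is in `W = fixSp ρ (RB c')`
(`fix_RB_iff`). If `v ≠ 0` then `W ≠ 0`, `W` is stable under `PB c'` (`PB_fix`), so `eig` applies to `c'`, `W`
(`ε = 1`) and gives a nonzero `w` in `W` in the eigenspace of some `mu ∈ Lin`, so `mu = lam`. Let `i` be
the last element of `σ(T)` and `j = i + 1` (in the block `b`, because `T` is a proper subset). `x_ij w = w`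
because `c' i ≠ c' j`, but also `x_ij w = lam(x_ij) w` with `lam(x_ij) ≠ 1` by `blk`, a contradiction.
-/

namespace Pool.Agent.H.MP_7d3ffc_al.DF

open Matrix Matrix.SpecialLinearGroup Pool.Agent.H.MP_7d3ffc_al Pool.Agent.H.MP_7d3ffc_al.DC Module

variable {n : ℕ} {F : Type*} [Field F] [Finite F] {V : Type*} [AddCommGroup V] [Module ℂ V]
  [FiniteDimensional ℂ V] {ρ : Representation ℂ (SpecialLinearGroup (Fin n) F) V}
  {lam : UT n F →* ℂˣ} {c : Fin n → ℕ}

/-- the blocks stay in place: a permutation which moves `T` to the beginning of its block -/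
theorem Cus_perm (c : Fin n → ℕ) (b : ℕ) (T : Set (Fin n)) (hT : ∀ i ∈ T, c i = b) :
    ∃ σ : Equiv.Perm (Fin n), (∀ i, c (σ i) = c i) ∧
      ∀ i ∈ T, ∀ j, c j = b → j ∉ T → σ i < σ j := by
  classical
  let S : Finset (Equiv.Perm (Fin n)) := Finset.univ.filter fun σ => ∀ i, c (σ i) = c i
  let U : Finset (Fin n) := Finset.univ.filter fun k => k ∈ T
  have hU : ∀ k, k ∈ U ↔ k ∈ T := fun k => by simp [U]
  have hS : ∀ σ, σ ∈ S ↔ ∀ i, c (σ i) = c i := fun σ => by simp [S]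
  obtain ⟨σ, hσS, hmin⟩ := Finset.exists_min_image S (fun σ => ∑ k ∈ U, ((σ k : Fin n) : ℕ))
    ⟨1, (hS 1).2 fun i => rfl⟩
  have hσ := (hS σ).1 hσS
  refine ⟨σ, hσ, fun i hi j hj hjT => ?_⟩
  have hij : i ≠ j := fun h => hjT (h ▸ hi)
  by_contra hlt
  have hlt' : σ j < σ i := lt_of_le_of_ne (not_lt.1 hlt) fun h => hij (σ.injective h.symm)
  have hτ : ∀ k, c ((Equiv.swap (σ i) (σ j) * σ) k) = c k := by
    intro k
    rw [Equiv.Perm.mul_apply]
    by_cases h1 : σ k = σ i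
    · rw [h1, Equiv.swap_apply_left, hσ, hj, ← hT i hi, σ.injective h1]
    · by_cases h2 : σ k = σ j
      · rw [h2, Equiv.swap_apply_right, hσ, hT i hi, ← hj, σ.injective h2]
      · rw [Equiv.swap_apply_of_ne_of_ne h1 h2, hσ]
  have h1 := hmin _ ((hS _).2 hτ)
  have hiU : i ∈ U := (hU i).2 hi
  have h2 : ∑ k ∈ U, (((Equiv.swap (σ i) (σ j) * σ) k : Fin n) : ℕ) < ∑ k ∈ U, ((σ k : Fin n) : ℕ) := by
    refine Finset.sum_lt_sum (fun k hk => ?_) ⟨i, hiU, ?_⟩
    · rw [Equiv.Perm.mul_apply]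
      by_cases h1 : σ k = σ i
      · rw [h1, Equiv.swap_apply_left]
        exact hlt'.le
      · have h2 : σ k ≠ σ j := fun h => hjT (σ.injective h ▸ (hU k).1 hk)
        rw [Equiv.swap_apply_of_ne_of_ne h1 h2]
    · rw [Equiv.Perm.mul_apply, Equiv.swap_apply_left]
      exact hlt'
  exact absurd h2 (not_lt.2 h1)

theorem Cus_inv1 (σ : Equiv.Perm (Fin n)) (k : Fin n) : σ⁻¹ (σ k) = k := σ.symm_apply_apply k

theorem Cus_inv2 (σ : Equiv.Perm (Fin n)) (k : Fin n) : σ (σ⁻¹ k) = k := σ.apply_symm_apply k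

theorem Cus_mul (ρ : Representation ℂ (SpecialLinearGroup (Fin n) F) V)
    (g h : SpecialLinearGroup (Fin n) F) (v : V) : ρ (g * h) v = ρ g (ρ h v) := by
  rw [map_mul, Module.End.mul_apply]

theorem Cus_one (ρ : Representation ℂ (SpecialLinearGroup (Fin n) F) V) (v : V) : ρ 1 v = v := by
  rw [map_one, Module.End.one_apply]

theorem Cus_pm_tv (h2 : ∀ a : F, a = 0 ∨ a = 1) (ρ : Representation ℂ (SpecialLinearGroup (Fin n) F) V)
    (σ : Equiv.Perm (Fin n)) {k l : Fin n} (h : k ≠ l) (a : F) (v : V) :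
    ρ (SpecialLinearGroup.transvection (σ.injective.ne h) a) (ρ (pm h2 σ) v) =
      ρ (pm h2 σ) (ρ (SpecialLinearGroup.transvection h a) v) := by
  rw [← Cus_mul, ← pm_tv, Cus_mul]

theorem cusp (h2 : ∀ a : F, a = 0 ∨ a = 1) (hP : IsPure ρ lam c) {v : V}
    (hv : v ∈ fixSp ρ (RB c)) (b : ℕ) (T : Set (Fin n)) (hT : ∀ i ∈ T, c i = b)
    (hT1 : T.Nonempty) (hT2 : ∃ j, c j = b ∧ j ∉ T)
    (hfix : ∀ (i j : Fin n) (h : i ≠ j), i ∈ T → c j = b → j ∉ T →
      ρ (SpecialLinearGroup.transvection h 1) v = v) : v = 0 := by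
  classical
  obtain ⟨σ, hσ, hA⟩ := Cus_perm c b T hT
  by_contra hv0
  let c' : Fin n → ℕ := fun k => 2 * c k + if c k = b ∧ σ⁻¹ k ∉ T then 1 else 0
  have hc' : ∀ k, c' (σ k) = 2 * c k + if c k = b ∧ k ∉ T then 1 else 0 := by
    intro k
    show 2 * c (σ k) + (if c (σ k) = b ∧ σ⁻¹ (σ k) ∉ T then 1 else 0) = _
    rw [hσ, Cus_inv1]
  have hle : ∀ k, c' k ≤ 2 * c k + 1 := by
    intro k
    show 2 * c k + (if c k = b ∧ σ⁻¹ k ∉ T then 1 else 0) ≤ 2 * c k + 1
    split <;> omega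
  have hge : ∀ k, 2 * c k ≤ c' k := by
    intro k
    show 2 * c k ≤ 2 * c k + (if c k = b ∧ σ⁻¹ k ∉ T then 1 else 0)
    omega
  have hmono : Monotone c' := by
    intro i j hij
    obtain ⟨k, rfl⟩ := σ.surjective i
    obtain ⟨l, rfl⟩ := σ.surjective j
    have h1 := hP.mono hij
    rcases lt_or_eq_of_le h1 with h3 | h3
    · have := hle (σ k)
      have := hge (σ l)
      omega
    · rw [hc', hc']
      rw [hσ, hσ] at h3
      rw [h3]
      by_cases hk : c l = b ∧ k ∉ T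
      · rw [if_pos hk]
        have hl : c l = b ∧ l ∉ T := by
          refine ⟨hk.1, fun hl => ?_⟩
          exact absurd (hA l hl k (h3.trans hk.1) hk.2) (not_lt.2 hij)
        rw [if_pos hl]
      · rw [if_neg hk]
        omega
  have hvX : ρ (pm h2 σ) v ∈ fixSp ρ (RB c) := PB_fix ρ (LB_le_PB c (pm_mem_LB h2 σ hσ)) hv
  have hv' : ρ (pm h2 σ) v ∈ fixSp ρ (RB c') := by
    rw [fix_RB_iff hmono]
    intro i j h hne a
    obtain ⟨k, rfl⟩ := σ.surjective i
    obtain ⟨l, rfl⟩ := σ.surjective j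
    by_cases hcc : c (σ k) = c (σ l)
    · have hlt : c' (σ k) < c' (σ l) := lt_of_le_of_ne (hmono h.le) hne
      have hkl : c k = c l := by rw [← hσ k, ← hσ l, hcc]
      rw [hc', hc', hkl] at hlt
      have hl : c l = b ∧ l ∉ T := by
        by_contra hl
        rw [if_neg hl] at hlt
        omega
      have hk : k ∈ T := by
        by_contra hk
        rw [if_pos hl, if_pos ⟨hl.1, hk⟩] at hlt
        omega
      have hkl' : k ≠ l := fun h => hl.2 (h ▸ hk)
      have e : ρ (SpecialLinearGroup.transvection hkl' a) v = v := by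
        rcases h2 a with ha | ha
        · rw [ha, SpecialLinearGroup.transvection_coeff_zero, Cus_one]
        · rw [ha]
          exact hfix k l hkl' hk hl.1 hl.2
      have e2 := Cus_pm_tv h2 ρ σ hkl' a v
      rw [e] at e2
      exact e2
    · exact (fix_RB_iff hP.mono ρ _).1 hvX _ _ h hcc a
  have hv'0 : ρ (pm h2 σ) v ≠ 0 := by
    intro h0
    apply hv0
    have e : ρ ((pm h2 σ)⁻¹ * pm h2 σ) v = v := by rw [inv_mul_cancel, Cus_one]
    rw [Cus_mul, h0, map_zero] at e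
    exact e.symm
  have hW : fixSp ρ (RB c') ≠ ⊥ := by
    intro h0
    rw [h0, Submodule.mem_bot] at hv'
    exact hv'0 hv'
  obtain ⟨mu, hmu, w, hw, hw0, hwe⟩ := eig h2 ρ c' hmono (fixSp ρ (RB c')) hW
    (fun i j h hcc _ w hw => PB_fix ρ (tv_mem_PB h 1 hcc.le) hw)
    (fun i j h hcc => ⟨1, fun w hw => by
      rw [one_smul]
      exact (fix_RB_iff hmono ρ w).1 hw i j h hcc 1⟩)
  have hml := hP.only mu hmu
  rw [hml] at hwe
  obtain ⟨i0, hi0⟩ := hT1
  let U : Finset (Fin n) := Finset.univ.filter fun k => σ⁻¹ k ∈ T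
  have hU : ∀ k, k ∈ U ↔ σ⁻¹ k ∈ T := fun k => by simp [U]
  obtain ⟨i, hiU, hmax⟩ := Finset.exists_max_image U id
    ⟨σ i0, (hU _).2 (by rw [Cus_inv1]; exact hi0)⟩
  obtain ⟨j0, hj0b, hj0T⟩ := hT2
  have hiT := (hU i).1 hiU
  have hij0 : i < σ j0 := by
    have := hA _ hiT j0 hj0b hj0T
    rwa [Cus_inv2] at this
  have hcib : c i = b := by
    have h1 := hσ (σ⁻¹ i)
    rw [Cus_inv2] at h1
    rw [h1]
    exact hT _ hiT
  have hn : (i : ℕ) + 1 < n := by
    have h1 : (i : ℕ) < (σ j0 : Fin n) := hij0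
    have h2' := (σ j0).2
    omega
  obtain ⟨j, hj⟩ : ∃ j : Fin n, (j : ℕ) = i + 1 := ⟨⟨(i : ℕ) + 1, hn⟩, rfl⟩
  have hij : i < j := by
    rw [Fin.lt_def]
    omega
  have hjj0 : j ≤ σ j0 := by
    rw [Fin.le_def]
    have h1 : (i : ℕ) < (σ j0 : Fin n) := hij0
    omega
  have hcjb : c j = b := by
    have h1 := hP.mono hij.le
    have h3 := hP.mono hjj0
    rw [hσ, hj0b] at h3
    rw [hcib] at h1
    exact le_antisymm h3 h1
  have hjT : σ⁻¹ j ∉ T := by
    intro h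
    have h1 : j ≤ i := hmax j ((hU j).2 h)
    exact absurd hij (not_lt.2 h1)
  have hcc : c' i ≠ c' j := by
    show 2 * c i + (if c i = b ∧ σ⁻¹ i ∉ T then 1 else 0) ≠
      2 * c j + (if c j = b ∧ σ⁻¹ j ∉ T then 1 else 0)
    rw [if_neg (fun h => h.2 hiT), if_pos ⟨hcjb, hjT⟩, hcib, hcjb]
    omega
  have e1 : ρ (SpecialLinearGroup.transvection hij.ne 1) w = w :=
    (fix_RB_iff hmono ρ w).1 hw i j hij hcc 1
  have e2 : ρ (SpecialLinearGroup.transvection hij.ne 1) w = ((lam (el hij 1) : ℂˣ) : ℂ) • w :=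
    hwe (el hij 1)
  rw [e1] at e2
  have e3 : ((lam (el hij 1) : ℂˣ) : ℂ) = 1 := by
    have e4 : (1 - ((lam (el hij 1) : ℂˣ) : ℂ)) • w = 0 := by
      rw [sub_smul, one_smul, ← e2, sub_self]
    rcases smul_eq_zero.1 e4 with h | h
    · exact (sub_eq_zero.1 h).symm
    · exact absurd h hw0
  exact (hP.blk i j hij hj).1 (hcib.trans hcjb.symm) (Units.ext e3)

/-- coinvariants: a linear map on `X` which is invariant under the `x_ij`, `i ∈ T`, `j ∉ T`, is `0`. Let `N` be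
the subgroup generated by these `x_ij` (`Subgroup.closure`), `y = av ρ N x`. Then `y ∈ X` (`X` is stable
under `N ≤ LB c`, the average of elements of `X` is in `X`), `y` is fixed by `N`, so `y = 0` by `cusp`.
And `Φ (ρ m x) = Φ x` for all `m ∈ N`, `x ∈ X` by `Subgroup.closure_induction`, so `Φ x = Φ y = 0` by
`av_map`. -/
theorem cusp_map (h2 : ∀ a : F, a = 0 ∨ a = 1) (hP : IsPure ρ lam c) {x : V}
    (hx : x ∈ fixSp ρ (RB c)) (b : ℕ) (T : Set (Fin n)) (hT : ∀ i ∈ T, c i = b)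
    (hT1 : T.Nonempty) (hT2 : ∃ j, c j = b ∧ j ∉ T) {W : Type*} [AddCommGroup W] [Module ℂ W]
    (Φ : V →ₗ[ℂ] W)
    (hΦ : ∀ (i j : Fin n) (h : i ≠ j), i ∈ T → c j = b → j ∉ T → ∀ y ∈ fixSp ρ (RB c),
      Φ (ρ (SpecialLinearGroup.transvection h 1) y) = Φ y) : Φ x = 0 := by
  let G0 : Set (SpecialLinearGroup (Fin n) F) := {g | ∃ (i j : Fin n) (h : i ≠ j), i ∈ T ∧ c j = b ∧
    j ∉ T ∧ g = SpecialLinearGroup.transvection h 1}
  let N : Subgroup (SpecialLinearGroup (Fin n) F) := Subgroup.closure G0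
  have hNP : N ≤ PB c := by
    rw [Subgroup.closure_le]
    rintro g ⟨i, j, h, hi, hj, hjT, rfl⟩
    exact tv_mem_PB h 1 ((hT i hi).trans hj.symm).le
  have hst : ∀ m ∈ N, ∀ y ∈ fixSp ρ (RB c), ρ m y ∈ fixSp ρ (RB c) := fun m hm y hy =>
    PB_fix ρ (hNP hm) hy
  have hinv : ∀ m ∈ N, ∀ y ∈ fixSp ρ (RB c), Φ (ρ m y) = Φ y := by
    intro m hm
    induction hm using Subgroup.closure_induction with
    | mem g hg =>
      obtain ⟨i, j, h, hi, hj, hjT, rfl⟩ := hg
      exact hΦ i j h hi hj hjT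
    | one =>
      intro y _
      rw [Cus_one]
    | mul g h hg hh ihg ihh =>
      intro y hy
      rw [Cus_mul, ihg _ (hst h hh y hy), ihh y hy]
    | inv g hg ih =>
      intro y hy
      have h1 := hst _ (N.inv_mem hg) y hy
      have h3 := ih _ h1
      rw [← Cus_mul, mul_inv_cancel, Cus_one] at h3
      exact h3.symm
  have hy1 : av ρ N x ∈ fixSp ρ (RB c) := by
    have h1 : ∀ u, u ∈ fixSp ρ (RB c) ↔ (fixSp ρ (RB c)).mkQ u = 0 := fun u => by
      rw [Submodule.mkQ_apply, Submodule.Quotient.mk_eq_zero]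
    rw [h1]
    rw [av_map ρ N (fixSp ρ (RB c)).mkQ x fun m hm => by
      rw [(h1 _).1 (hst m hm x hx), (h1 _).1 hx]]
    exact (h1 _).1 hx
  have hy0 : av ρ N x = 0 := by
    refine cusp h2 hP hy1 b T hT hT1 hT2 fun i j h hi hj hjT => ?_
    exact rho_av ρ N (Subgroup.subset_closure ⟨i, j, h, hi, hj, hjT, rfl⟩) x
  have h3 := av_map ρ N Φ x fun m hm => hinv m hm x hx
  rw [hy0, map_zero] at h3
  exact h3.symm

/-- Let `T` be the set of the `k` with `c k = c i`, `c (σ k) ≤ c (σ i)`, and apply `cusp_map` to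
`Φ = av ρ (RB c) ∘ ρ (pm σ)`: for `k ∈ T`, `l ∉ T` in the same block, `pm σ x_kl = x_{σ k, σ l} pm σ`
(`pm_tv`) and `x_{σ k, σ l} ∈ RB c` (`tv_mem_RB`), so `Φ (x_kl y) = Φ y` by `av_rho`. -/
theorem perm_van (h2 : ∀ a : F, a = 0 ∨ a = 1) (hP : IsPure ρ lam c) (σ : Equiv.Perm (Fin n))
    {i j : Fin n} (hij : c i = c j) (hσ : c (σ i) < c (σ j)) {x : V}
    (hx : x ∈ fixSp ρ (RB c)) : av ρ (RB c) (ρ (pm h2 σ) x) = 0 := by
  refine cusp_map h2 hP hx (c i) {k | c k = c i ∧ c (σ k) ≤ c (σ i)} (fun k hk => hk.1)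
    ⟨i, rfl, le_rfl⟩ ⟨j, hij.symm, fun h => absurd hσ (not_lt.2 h.2)⟩
    (av ρ (RB c) ∘ₗ ρ (pm h2 σ)) fun k l h hk hl hlT y _ => ?_
  have h1 : c (σ k) < c (σ l) := by
    have h3 : ¬ c (σ l) ≤ c (σ i) := fun h3 => hlT ⟨hl, h3⟩
    exact lt_of_le_of_lt hk.2 (not_le.1 h3)
  show av ρ (RB c) (ρ (pm h2 σ) (ρ (SpecialLinearGroup.transvection h 1) y)) =
    av ρ (RB c) (ρ (pm h2 σ) y)
  rw [← Cus_pm_tv, av_rho ρ (RB c) (tv_mem_RB _ 1 h1)]

/-- `V'' = {v | ∀ q ∈ Q, av ρ (RB c) (ρ q v) = 0}` (`Q`: the `q` whose column `z` is the unit vector) is a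
subspace, stable under `Q`, which is closed under products and contains all `x_ij` with `j ≠ z`. If `v ≠ 0`
then `V'' ≠ 0`, and `eig` with the block function `0` gives a nonzero `w` in `V''` in the eigenspace of some
`mu = lam`; it is in `fixSp ρ (RB c)` by `eig_le_fix`, so `w = av w = 0` (`av_self`, `q = 1`), a
contradiction. -/
theorem fixD (h2 : ∀ a : F, a = 0 ∨ a = 1) (hP : IsPure ρ lam c) (z : Fin n) (hz : (z : ℕ) = 0)
    {v : V} (hv : ∀ q : SpecialLinearGroup (Fin n) F,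
      (∀ i, q.1 i z = if i = z then 1 else 0) → av ρ (RB c) (ρ q v) = 0) : v = 0 := by
  classical
  let Vs : Submodule ℂ V :=
    { carrier := {v | ∀ q : SpecialLinearGroup (Fin n) F,
        (∀ i, q.1 i z = if i = z then 1 else 0) → av ρ (RB c) (ρ q v) = 0}
      add_mem' := fun {a b} ha hb q hq => by rw [map_add, map_add, ha q hq, hb q hq, add_zero]
      zero_mem' := fun q _ => by rw [map_zero, map_zero]
      smul_mem' := fun r a ha q hq => by rw [map_smul, map_smul, ha q hq, smul_zero] }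
  by_contra hv0
  have hV : Vs ≠ ⊥ := by
    intro h0
    have h1 : v ∈ Vs := hv
    rw [h0, Submodule.mem_bot] at h1
    exact hv0 h1
  obtain ⟨mu, hmu, w, hw, hw0, hwe⟩ := eig h2 ρ (fun _ => 0) (fun _ _ _ => le_rfl) Vs hV
    (by
      rintro i j h - ⟨k, hk, -⟩ w hw q hq
      have hjz : j ≠ z := by
        rintro rfl
        have h1 : (k : ℕ) < (j : ℕ) := hk
        omega
      rw [← Cus_mul]
      refine hw _ fun i' => ?_
      have e : (q * SpecialLinearGroup.transvection h 1).1 =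
          q.1 * Matrix.transvection i j 1 := rfl
      rw [e, Matrix.mul_transvection_apply_of_ne _ _ _ _ hjz.symm]
      exact hq i')
    (fun i j h hcc => absurd rfl hcc)
  rw [hP.only mu hmu] at hwe
  have h1 : w ∈ fixSp ρ (RB c) := eig_le_fix h2 hP hwe
  have h3 := hw 1 fun i => by
    show (1 : Matrix (Fin n) (Fin n) F) i z = _
    rw [Matrix.one_apply]
  rw [Cus_one, av_self ρ (RB c) h1] at h3
  exact hw0 h3

end Pool.Agent.H.MP_7d3ffc_al.DF
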