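import Pool.Agent.H.MP_7d3ffc_al.DF.Blk

/-!
# Module DF/Eig: existence of an eigenvector of the unitriangular group

`F` has two elements, `x_ij` is the transvection with entry `1` in position `(i, j)`, and
`c : Fin n → ℕ` is monotone (blocks are intervals). `W` is a nonzero subspace such that
(1) `x_ij` maps `W` to `W` if `i ≠ j` are in the same block and `j` is not the first element of it,
(2) `x_ij` is a scalar on `W` if `i < j` are in different blocks.
Then `W` contains a common eigenvector of `UT`.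

Proof: one row after the other. For `0 ≤ r ≤ n` let `S(r, W')` be the statement about a nonzero subspace
`W' ≤ W`:
(a) for `k < r`, `k < l`, `x_kl` is a scalar on `W'`; and (2) holds for `W'` (clear, since `W' ≤ W`);
(b) for `k ≠ l` in the same block with `r ≤ k`, `r + 1 ≤ l` and `l` not the first element of the block,
`x_kl` maps `W'` to `W'`.
`S(0, W)` holds. Step from `r` to `r + 1` (`i = r`): let `B` be the set of the `l > i` in the block of `i`.
If `B` is empty, then `S(r + 1, W')` holds. Otherwise the `x_il`, `l` in `B`, map `W'` to `W'`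
(by (b)), they commute (`tv_comm`) and their squares are `1` (`1 + 1 = 0` in `F`).
Case A: there is a nonzero `w` in `W'` with `x_il w = w` for all `l` in `B`. Let `W''` be the space of these
`w`. (b) for `W''`, `r + 1`: let `r + 1 ≤ k`, `r + 2 ≤ l`. If `k`, `l` are in the block of `i`, then
`x_kl` commutes with the `x_ij`, `j ≠ k`, and `x_ik x_kl = x_kl x_ik x_il` (`el_comm` in DC/Gen), so
`x_kl w` is again in `W''`; if they are in another block, `x_kl` commutes with all the `x_ij`.
Case B: otherwise. There is a nonzero `v` in `W'` which is an eigenvector of all the `x_il`, `l` in `B`, with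
eigenvalues `ε_l = 1` or `-1` (`v` ↦ `v + x_il v` or `v - x_il v`: one after the other, a finite induction over
`B`: if `v` is an eigenvector for some of them and `v + x_il v ≠ 0` replace `v` by it, else
`x_il v = -v`). Not all `ε_l` are `1`. `x_kl v` (`k ≠ l` in `B`) is again a nonzero element of `W'` with the
eigenvalues `ε_k ε_l` for `x_ik` and `ε_j` for `x_ij`, `j ≠ k`. So one can first make `ε_{i+1} = -1`
(`k = i + 1`, `ε_l = -1`) and then all other `ε_j = 1` (`x_{j,i+1}` if `ε_j = -1`). So the space `W''` of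
the `w` in `W'` with `x_{i,i+1} w = -w` and `x_ij w = w` for the other `j` in `B` is not `0`. (b) for
`W''`, `r + 1` is shown as in case A: `x_kl`, `l ≥ i + 2`, `x_ik x_kl = x_kl x_ik x_il` and `x_il w = w`.
At the end (`r = n`) all `x_kl`, `k < l`, are scalars on a nonzero `W'`; `UT` is generated by
them (`UT_ind`; `a = 0` or `a = 1`), so every `u` in `UT` is a scalar `μ(u)` on a nonzero `w` in `W'`, `μ` is a
homomorphism to `ℂˣ`, and `μ ∈ Lin ρ (UT n F)` by `mem_Lin_iff`.
-/

namespace Pool.Agent.H.MP_7d3ffc_al.DF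

open Matrix Matrix.SpecialLinearGroup Pool.Agent.H.MP_7d3ffc_al Pool.Agent.H.MP_7d3ffc_al.DC Module

variable {n : ℕ} {F : Type*} [Field F] [Finite F] {V : Type*} [AddCommGroup V] [Module ℂ V]
  [FiniteDimensional ℂ V]

section Abs

variable {V : Type*} [AddCommGroup V] [Module ℂ V]

/-- a common eigenvector with the eigenvalues `ε j` of the maps `S j`, `j ∈ B` -/
private def Eig_Pat {ι : Type*} (S : ι → V →ₗ[ℂ] V) (W : Submodule ℂ V) (B : Finset ι)
    (ε : ι → ℂ) (v : V) : Prop :=
  v ∈ W ∧ v ≠ 0 ∧ (∀ j, ε j = 1 ∨ ε j = -1) ∧ ∀ j ∈ B, S j v = ε j • v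

/-- commuting involutions have a common eigenvector -/
private theorem Eig_sim {ι : Type*} [DecidableEq ι] (S : ι → V →ₗ[ℂ] V) (W : Submodule ℂ V)
    (hW : W ≠ ⊥) (B : Finset ι) (h1 : ∀ j ∈ B, ∀ v, S j (S j v) = v)
    (h2 : ∀ j ∈ B, ∀ l ∈ B, ∀ v, S j (S l v) = S l (S j v)) (h3 : ∀ j ∈ B, ∀ w ∈ W, S j w ∈ W) :
    ∃ ε v, Eig_Pat S W B ε v := by
  induction B using Finset.induction_on with
  | empty =>
    obtain ⟨v, hv, hv0⟩ := (Submodule.ne_bot_iff W).1 hW
    exact ⟨fun _ => 1, v, hv, hv0, fun _ => Or.inl rfl, fun j hj => absurd hj (Finset.notMem_empty j)⟩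
  | insert l B hl ih =>
    obtain ⟨ε, v, hv, hv0, hε, hS⟩ := ih (fun j hj => h1 j (Finset.mem_insert_of_mem hj))
      (fun j hj k hk => h2 j (Finset.mem_insert_of_mem hj) k (Finset.mem_insert_of_mem hk))
      (fun j hj => h3 j (Finset.mem_insert_of_mem hj))
    have hlB := Finset.mem_insert_self l B
    have hne : ∀ j ∈ B, j ≠ l := fun j hj h => hl (h ▸ hj)
    by_cases h0 : v + S l v = 0
    · refine ⟨Function.update ε l (-1), v, hv, hv0, fun j => ?_, fun j hj => ?_⟩
      · by_cases hjl : j = l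
        · subst hjl
          rw [Function.update_self]
          exact Or.inr rfl
        · rw [Function.update_of_ne hjl]
          exact hε j
      · rcases Finset.mem_insert.1 hj with h | h
        · subst h
          rw [Function.update_self, neg_one_smul]
          exact (neg_eq_of_add_eq_zero_right h0).symm
        · rw [Function.update_of_ne (hne j h)]
          exact hS j h
    · refine ⟨Function.update ε l 1, v + S l v, W.add_mem hv (h3 l hlB v hv), h0, fun j => ?_,
        fun j hj => ?_⟩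
      · by_cases hjl : j = l
        · subst hjl
          rw [Function.update_self]
          exact Or.inl rfl
        · rw [Function.update_of_ne hjl]
          exact hε j
      · rcases Finset.mem_insert.1 hj with h | h
        · subst h
          rw [Function.update_self, one_smul, map_add, h1 j hlB, add_comm]
        · rw [Function.update_of_ne (hne j h), map_add, h2 j hj l hlB, hS j h, map_smul, smul_add]

/-- the maps `T i j` behave like transvections over a field with two elements -/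
private structure Eig_Rel (T : Fin n → Fin n → V →ₗ[ℂ] V) : Prop where
  r1 : ∀ i j, i ≠ j → ∀ v, T i j (T i j v) = v
  r2 : ∀ i j k l, i ≠ j → k ≠ l → j ≠ k → i ≠ l → ∀ v, T i j (T k l v) = T k l (T i j v)
  r3 : ∀ i k l, i ≠ k → k ≠ l → i ≠ l → ∀ v, T i k (T k l v) = T k l (T i k (T i l v))

/-- change of the eigenvalues -/
private theorem Eig_mod {T : Fin n → Fin n → V →ₗ[ℂ] V} (hT : Eig_Rel T) {W : Submodule ℂ V}
    {i : Fin n} {B : Finset (Fin n)} (hB : ∀ j ∈ B, i < j)
    (hBW : ∀ k ∈ B, ∀ l ∈ B, k ≠ l → ∀ w ∈ W, T k l w ∈ W) {ε : Fin n → ℂ} {v : V}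
    (h : Eig_Pat (T i) W B ε v) {k l : Fin n} (hk : k ∈ B) (hl : l ∈ B) (hkl : k ≠ l) :
    Eig_Pat (T i) W B (Function.update ε k (ε k * ε l)) (T k l v) := by
  obtain ⟨hv, hv0, hε, hS⟩ := h
  refine ⟨hBW k hk l hl hkl v hv, fun h0 => hv0 ?_, fun j => ?_, fun j hj => ?_⟩
  · rw [← hT.r1 k l hkl v, h0, map_zero]
  · by_cases hjk : j = k
    · subst hjk
      rw [Function.update_self]
      rcases hε j with h1 | h1 <;> rcases hε l with h2 | h2 <;> rw [h1, h2] <;> simp
    · rw [Function.update_of_ne hjk]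
      exact hε j
  · by_cases hjk : j = k
    · subst hjk
      rw [Function.update_self, hT.r3 i j l (hB j hj).ne hkl (hB l hl).ne, hS l hl, map_smul,
        hS j hj, smul_smul, map_smul, mul_comm]
    · rw [Function.update_of_ne hjk, hT.r2 i j k l (hB j hj).ne hkl hjk (hB l hl).ne, hS j hj,
        map_smul]

/-- the eigenvalues can be made `1` except for the first one -/
private theorem Eig_norm {T : Fin n → Fin n → V →ₗ[ℂ] V} (hT : Eig_Rel T) {W : Submodule ℂ V}
    (hW : W ≠ ⊥) {i : Fin n} {B : Finset (Fin n)} (hB : ∀ j ∈ B, i < j)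
    (hBW : ∀ k ∈ B, ∀ l ∈ B, k ≠ l → ∀ w ∈ W, T k l w ∈ W) (hBi : ∀ j ∈ B, ∀ w ∈ W, T i j w ∈ W)
    (hfirst : ∀ j ∈ B, ∀ h : (i : ℕ) + 1 < n, (⟨(i : ℕ) + 1, h⟩ : Fin n) ∈ B) :
    ∃ (ε : Fin n → ℂ) (v : V), (∀ l : Fin n, (i : ℕ) + 2 ≤ l → ε l = 1) ∧ v ∈ W ∧ v ≠ 0 ∧
      ∀ j ∈ B, T i j v = ε j • v := by
  classical
  obtain ⟨ε, v, hP⟩ := Eig_sim (T i) W hW B (fun j hj => hT.r1 i j (hB j hj).ne)
    (fun j hj l hl => hT.r2 i j i l (hB j hj).ne (hB l hl).ne (hB j hj).ne' (hB l hl).ne) hBi
  by_cases hall : ∀ j ∈ B, ε j = 1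
  · refine ⟨fun _ => 1, v, fun _ _ => rfl, hP.1, hP.2.1, fun j hj => ?_⟩
    rw [hP.2.2.2 j hj, hall j hj]
  · push Not at hall
    obtain ⟨l0, hl0, hl1⟩ := hall
    have hl0' : ε l0 = -1 := (hP.2.2.1 l0).resolve_left hl1
    have hlt : (i : ℕ) + 1 < n := by
      have h1 := hB l0 hl0
      have h2 := l0.2
      rw [Fin.lt_def] at h1
      omega
    obtain ⟨i1, hi1⟩ : ∃ i1 : Fin n, i1 = ⟨(i : ℕ) + 1, hlt⟩ := ⟨_, rfl⟩
    have hi1B : i1 ∈ B := by
      rw [hi1]
      exact hfirst l0 hl0 hlt
    -- the first eigenvalue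
    obtain ⟨ε1, v1, hP1, hε1⟩ : ∃ ε1 v1, Eig_Pat (T i) W B ε1 v1 ∧ ε1 i1 = -1 := by
      rcases hP.2.2.1 i1 with h | h
      · have hne : i1 ≠ l0 := by
          rintro rfl
          exact hl1 h
        refine ⟨_, _, Eig_mod hT hB hBW hP hi1B hl0 hne, ?_⟩
        rw [Function.update_self, h, hl0', one_mul]
      · exact ⟨ε, v, hP, h⟩
    -- the other ones
    have key : ∀ B' : Finset (Fin n), B' ⊆ B.erase i1 → ∃ ε2 v2, Eig_Pat (T i) W B ε2 v2 ∧
        ε2 i1 = -1 ∧ ∀ j ∈ B', ε2 j = 1 := by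
      intro B'
      induction B' using Finset.induction_on with
      | empty =>
        intro _
        exact ⟨ε1, v1, hP1, hε1, fun j hj => absurd hj (Finset.notMem_empty j)⟩
      | insert l B' hl ih =>
        intro hsub
        obtain ⟨ε2, v2, hP2, hε2, hB2⟩ := ih fun j hj => hsub (Finset.mem_insert_of_mem hj)
        have hlB := Finset.mem_erase.1 (hsub (Finset.mem_insert_self l B'))
        rcases hP2.2.2.1 l with h | h
        · refine ⟨ε2, v2, hP2, hε2, fun j hj => ?_⟩
          rcases Finset.mem_insert.1 hj with h1 | h1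
          · rw [h1, h]
          · exact hB2 j h1
        · refine ⟨_, _, Eig_mod hT hB hBW hP2 hlB.2 hi1B hlB.1, ?_, fun j hj => ?_⟩
          · rw [Function.update_of_ne hlB.1.symm, hε2]
          · rcases Finset.mem_insert.1 hj with h1 | h1
            · rw [h1, Function.update_self, h, hε2]
              norm_num
            · have h3 : j ≠ l := by
                rintro rfl
                exact hl h1
              rw [Function.update_of_ne h3]
              exact hB2 j h1
    obtain ⟨ε2, v2, hP2, hε2, hB2⟩ := key _ (Finset.Subset.refl _)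
    refine ⟨fun l => if l = i1 then -1 else 1, v2, fun l hl => ?_, hP2.1, hP2.2.1,
      fun j hj => ?_⟩
    · refine if_neg ?_
      rintro rfl
      rw [hi1] at hl
      simp at hl
    · rw [hP2.2.2.2 j hj]
      change ε2 j • v2 = (if j = i1 then (-1 : ℂ) else 1) • v2
      by_cases h : j = i1
      · rw [if_pos h, h, hε2]
      · rw [if_neg h, hB2 j (Finset.mem_erase.2 ⟨h, hj⟩)]

private theorem Eig_abs {T : Fin n → Fin n → V →ₗ[ℂ] V} (hT : Eig_Rel T) (c : Fin n → ℕ)
    (hc : Monotone c) (W : Submodule ℂ V) (hW : W ≠ ⊥)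
    (hW1 : ∀ i j : Fin n, i ≠ j → c i = c j → (∃ k, k < j ∧ c k = c j) → ∀ w ∈ W, T i j w ∈ W)
    (hW2 : ∀ i j : Fin n, i < j → c i ≠ c j → ∃ ε : ℂ, ∀ w ∈ W, T i j w = ε • w) :
    ∃ w ∈ W, w ≠ 0 ∧ ∀ i j : Fin n, i < j → ∃ ε : ℂ, T i j w = ε • w := by
  classical
  have key : ∀ r : ℕ, ∃ W' : Submodule ℂ V, W' ≤ W ∧ W' ≠ ⊥ ∧
      (∀ k l : Fin n, (k : ℕ) < r → k < l → ∃ ε : ℂ, ∀ w ∈ W', T k l w = ε • w) ∧
      ∀ k l : Fin n, k ≠ l → c k = c l → r ≤ (k : ℕ) → r + 1 ≤ (l : ℕ) →
        (∃ m, m < l ∧ c m = c l) → ∀ w ∈ W', T k l w ∈ W' := by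
    intro r
    induction r with
    | zero =>
      exact ⟨W, le_rfl, hW, fun k l hk => absurd hk (Nat.not_lt_zero _),
        fun k l hkl hck _ _ hm => hW1 k l hkl hck hm⟩
    | succ r ih =>
      obtain ⟨W', hle, hW', ha, hb⟩ := ih
      rcases Nat.lt_or_ge r n with hr | hr
      · obtain ⟨i, hi⟩ : ∃ i : Fin n, (i : ℕ) = r := ⟨⟨r, hr⟩, rfl⟩
        obtain ⟨B, hB⟩ : ∃ B : Finset (Fin n), ∀ l, l ∈ B ↔ i < l ∧ c l = c i :=
          ⟨Finset.univ.filter fun l => i < l ∧ c l = c i, fun l => by simp⟩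
        have hBlt : ∀ j ∈ B, i < j := fun j hj => ((hB j).1 hj).1
        have hBc : ∀ j ∈ B, c j = c i := fun j hj => ((hB j).1 hj).2
        have hBr : ∀ j ∈ B, r + 1 ≤ (j : ℕ) := fun j hj => by
          have h1 := hBlt j hj
          rw [Fin.lt_def] at h1
          omega
        obtain ⟨ε, v, hε, hv, hv0, hvT⟩ := Eig_norm hT hW' (i := i) (B := B) hBlt
          (fun k hk l hl hkl => hb k l hkl ((hBc k hk).trans (hBc l hl).symm)
            (le_trans (Nat.le_succ r) (hBr k hk)) (hBr l hl) ⟨i, hBlt l hl, (hBc l hl).symm⟩)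
          (fun j hj => hb i j (hBlt j hj).ne (hBc j hj).symm hi.ge (hBr j hj)
            ⟨i, hBlt j hj, (hBc j hj).symm⟩)
          (fun j hj h => (hB _).2 ⟨Fin.lt_def.2 (Nat.lt_succ_self _), by
            refine le_antisymm ?_ (hc (Fin.le_def.2 (Nat.le_succ _)))
            rw [← hBc j hj]
            refine hc (Fin.le_def.2 ?_)
            have h1 := hBr j hj
            change (i : ℕ) + 1 ≤ (j : ℕ)
            omega⟩)
        obtain ⟨W2, hW2'⟩ : ∃ W2 : Submodule ℂ V, ∀ w, w ∈ W2 ↔ w ∈ W' ∧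
            ∀ j ∈ B, T i j w = ε j • w :=
          ⟨{ carrier := {w | w ∈ W' ∧ ∀ j ∈ B, T i j w = ε j • w}
             add_mem' := fun {x y} hx hy => ⟨W'.add_mem hx.1 hy.1, fun j hj => by
               rw [map_add, hx.2 j hj, hy.2 j hj, smul_add]⟩
             zero_mem' := ⟨W'.zero_mem, fun j _ => by rw [map_zero, smul_zero]⟩
             smul_mem' := fun a x hx => ⟨W'.smul_mem a hx.1, fun j hj => by
               rw [map_smul, hx.2 j hj, smul_comm]⟩ }, fun w => Iff.rfl⟩
        refine ⟨W2, fun w hw => hle ((hW2' w).1 hw).1, ?_, ?_, ?_⟩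
        · intro h0
          have h1 := (hW2' v).2 ⟨hv, hvT⟩
          rw [h0, Submodule.mem_bot] at h1
          exact hv0 h1
        · intro k l hk hkl
          by_cases hkr : (k : ℕ) < r
          · obtain ⟨e, he⟩ := ha k l hkr hkl
            exact ⟨e, fun w hw => he w ((hW2' w).1 hw).1⟩
          · have hki : k = i := Fin.ext (by omega)
            subst hki
            by_cases hcl : c l = c k
            · exact ⟨ε l, fun w hw => ((hW2' w).1 hw).2 l ((hB l).2 ⟨hkl, hcl⟩)⟩
            · obtain ⟨e, he⟩ := hW2 k l hkl fun h => hcl h.symm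
              exact ⟨e, fun w hw => he w (hle ((hW2' w).1 hw).1)⟩
        · intro k l hkl hck hk hl hm w hw
          obtain ⟨hwW, hwT⟩ := (hW2' w).1 hw
          refine (hW2' _).2 ⟨hb k l hkl hck (by omega) (by omega) hm w hwW, fun j hj => ?_⟩
          have hik : i ≠ k := by
            rintro rfl
            omega
          have hil : i ≠ l := by
            rintro rfl
            omega
          by_cases hjk : j = k
          · subst hjk
            have hlB : l ∈ B := (hB l).2 ⟨Fin.lt_def.2 (by omega), hck.symm.trans (hBc j hj)⟩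
            rw [hT.r3 i j l hik hkl hil, hwT l hlB, hε l (by omega), one_smul, hwT j hj, map_smul]
          · rw [hT.r2 i j k l (hBlt j hj).ne hkl hjk hil, hwT j hj, map_smul]
      · exact ⟨W', hle, hW', fun k l hk hkl => ha k l (by have := k.2; omega) hkl,
          fun k l hkl hck hk hl hm => hb k l hkl hck (by omega) (by omega) hm⟩
  obtain ⟨W', hle, hW', ha, -⟩ := key n
  obtain ⟨w, hw, hw0⟩ := (Submodule.ne_bot_iff W').1 hW'
  refine ⟨w, hle hw, hw0, fun i j hij => ?_⟩
  obtain ⟨ε, hε⟩ := ha i j i.2 hij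
  exact ⟨ε, hε w hw⟩

end Abs

theorem eig (h2 : ∀ a : F, a = 0 ∨ a = 1)
    (ρ : Representation ℂ (SpecialLinearGroup (Fin n) F) V) (c : Fin n → ℕ) (hc : Monotone c)
    (W : Submodule ℂ V) (hW : W ≠ ⊥)
    (hW1 : ∀ (i j : Fin n) (h : i ≠ j), c i = c j → (∃ k, k < j ∧ c k = c j) → ∀ w ∈ W,
      ρ (SpecialLinearGroup.transvection h 1) w ∈ W)
    (hW2 : ∀ (i j : Fin n) (h : i < j), c i ≠ c j → ∃ ε : ℂ, ∀ w ∈ W,
      ρ (SpecialLinearGroup.transvection h.ne 1) w = ε • w) :
    ∃ mu ∈ Lin ρ (UT n F), ∃ w ∈ W, w ≠ 0 ∧ w ∈ eigSp ρ (UT n F) mu := by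
  classical
  have h11 : (1 : F) + 1 = 0 := by
    rcases h2 (1 + 1) with h | h
    · exact h
    · exact absurd (add_eq_left.1 h) one_ne_zero
  have hneg : (-1 : F) = 1 := neg_eq_of_add_eq_zero_right h11
  obtain ⟨T, hTd⟩ : ∃ T : Fin n → Fin n → V →ₗ[ℂ] V, ∀ i j (h : i ≠ j),
      T i j = ρ (SpecialLinearGroup.transvection h 1) :=
    ⟨fun i j => if h : i ≠ j then ρ (SpecialLinearGroup.transvection h 1) else LinearMap.id,
      fun i j h => dif_pos h⟩
  have hsq : ∀ {i j : Fin n} (h : i ≠ j), SpecialLinearGroup.transvection h (1 : F) *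
      SpecialLinearGroup.transvection h 1 = 1 := by
    intro i j h
    refine Subtype.ext ?_
    change Matrix.transvection i j (1 : F) * Matrix.transvection i j 1 = 1
    rw [Matrix.transvection_mul_transvection_same _ _ h, h11, Matrix.transvection_zero]
  have hρ : ∀ (g h : SpecialLinearGroup (Fin n) F) (v : V), ρ g (ρ h v) = ρ (g * h) v := by
    intro g h v
    rw [map_mul]
    rfl
  have hT : Eig_Rel T := by
    refine ⟨fun i j h v => ?_, fun i j k l h h' hjk hil v => ?_, fun i k l hik hkl hil v => ?_⟩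
    · rw [hTd i j h, hρ, hsq h, map_one]
      rfl
    · rw [hTd i j h, hTd k l h', hρ, hρ, tv_comm h h' hjk hil]
    · rw [hTd i k hik, hTd k l hkl, hTd i l hil, hρ, hρ, hρ]
      congr 2
      have e1 := el_comm hik hkl hil (1 : F) 1
      rw [hneg, mul_one] at e1
      have e2 : SpecialLinearGroup.transvection hik (1 : F) *
          SpecialLinearGroup.transvection hkl 1 =
          SpecialLinearGroup.transvection hil 1 * (SpecialLinearGroup.transvection hkl 1 *
            SpecialLinearGroup.transvection hik 1) := by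
        rw [← e1]
        have e3 : SpecialLinearGroup.transvection hkl (1 : F) *
            (SpecialLinearGroup.transvection hkl 1 *
              SpecialLinearGroup.transvection hik 1) =
            SpecialLinearGroup.transvection hik 1 := by
          rw [← mul_assoc, hsq hkl, one_mul]
        rw [mul_assoc _ (SpecialLinearGroup.transvection hkl (1 : F)), e3, mul_assoc _
          (SpecialLinearGroup.transvection hik (1 : F)), hsq hik, mul_one]
      rw [e2, ← mul_assoc, tv_comm hil hkl hkl.symm hil, mul_assoc, tv_comm hil hik hil.symm hik]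
      exact (mul_assoc _ _ _).symm
  obtain ⟨w, hw, hw0, hwT⟩ := Eig_abs hT c hc W hW
    (fun i j h hcij hk w hw => by
      rw [hTd i j h]
      exact hW1 i j h hcij hk w hw)
    (fun i j h hcij => by
      obtain ⟨ε, hε⟩ := hW2 i j h hcij
      refine ⟨ε, fun w hw => ?_⟩
      rw [hTd i j h.ne]
      exact hε w hw)
  have hall : ∀ u : UT n F, ∃ ε : ℂ, ρ (u : SpecialLinearGroup (Fin n) F) w = ε • w := by
    refine UT_ind (P := fun u : UT n F => ∃ ε : ℂ, ρ (u : SpecialLinearGroup (Fin n) F) w = ε • w) ?_ ?_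
    · refine ⟨1, ?_⟩
      rw [one_smul, Subgroup.coe_one, map_one]
      rfl
    · rintro i j h a u ⟨ε, hε⟩
      obtain ⟨δ, hδ⟩ : ∃ δ : ℂ, ρ (SpecialLinearGroup.transvection h.ne a) w = δ • w := by
        rcases h2 a with rfl | rfl
        · refine ⟨1, ?_⟩
          rw [SpecialLinearGroup.transvection_coeff_zero, map_one, one_smul]
          rfl
        · obtain ⟨δ, hδ⟩ := hwT i j h
          rw [hTd i j h.ne] at hδ
          exact ⟨δ, hδ⟩
      refine ⟨ε * δ, ?_⟩
      have e : ((el h a * u : UT n F) : SpecialLinearGroup (Fin n) F) =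
          SpecialLinearGroup.transvection h.ne a * u := rfl
      rw [e, ← hρ, hε, map_smul, hδ, smul_smul]
  choose f hf using hall
  have hinj : ∀ a b : ℂ, a • w = b • w → a = b := fun a b h => by
    rw [← sub_eq_zero, ← sub_smul, smul_eq_zero] at h
    exact sub_eq_zero.1 (h.resolve_right hw0)
  obtain ⟨m, hm⟩ : ∃ m : UT n F →* ℂ, ∀ u, m u = f u :=
    ⟨{ toFun := f
       map_one' := by
         refine hinj _ _ ?_
         rw [← hf, one_smul, Subgroup.coe_one, map_one]
         rfl
       map_mul' := fun x y => by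
         refine hinj _ _ ?_
         rw [← hf, Subgroup.coe_mul, ← hρ, hf y, map_smul, hf x, smul_smul, mul_comm] },
      fun _ => rfl⟩
  have hmu : ∀ x : UT n F, ρ (x : SpecialLinearGroup (Fin n) F) w =
      ((m.toHomUnits x : ℂˣ) : ℂ) • w := by
    intro x
    rw [MonoidHom.coe_toHomUnits, hm, ← hf]
  exact ⟨m.toHomUnits, (mem_Lin_iff ρ _ _).2 ⟨w, hw0, hmu⟩, w, hw, hw0, hmu⟩

end Pool.Agent.H.MP_7d3ffc_al.DF
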