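import Pool.Agent.H.MP_7d3ffc_al.DF.Pm

/-!
# Module DF/Emb: the embedding of a smaller special linear group as a diagonal block

`io h g` has the entries of `g` in the rows and columns `o, ..., o + k - 1` and is the unit matrix elsewhere.
The determinant and the product: reindex by an equivalence
`Fin n ≃ Fin k ⊕ {i // ¬ (o ≤ i ∧ i < o + k)}` (then the matrix is `Matrix.fromBlocks g 0 0 1`), for
instance `Equiv.sumCompl` for the predicate `o ≤ i ∧ i < o + k` and an equivalence of the subtype with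
`Fin k`; or prove the product formula by entries (the sum over `Fin n` is the sum over `Fin k` through
`em h` plus zeros) and get the determinant from `Matrix.det_reindex_self`,
`Matrix.det_fromBlocks_zero₂₁`.
-/

namespace Pool.Agent.H.MP_7d3ffc_al.DF

open Matrix Matrix.SpecialLinearGroup Pool.Agent.H.MP_7d3ffc_al Pool.Agent.H.MP_7d3ffc_al.DC Module

variable {n k o : ℕ} {F : Type*} [Field F]

/-- the index `o + i` -/
def em (h : o + k ≤ n) (i : Fin k) : Fin n := ⟨o + i, by omega⟩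

theorem em_val (h : o + k ≤ n) (i : Fin k) : ((em h i : Fin n) : ℕ) = o + i := rfl

theorem em_inj (h : o + k ≤ n) : Function.Injective (em h) := by
  intro i j hij
  have := congrArg Fin.val hij
  rw [em_val, em_val] at this
  exact Fin.ext (by omega)

/-- the matrix of the embedding -/
def ioM (o k n : ℕ) (M : Matrix (Fin k) (Fin k) F) : Matrix (Fin n) (Fin n) F :=
  Matrix.of fun i j => if hi : o ≤ (i : ℕ) ∧ (i : ℕ) < o + k then
    (if hj : o ≤ (j : ℕ) ∧ (j : ℕ) < o + k then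
      M ⟨(i : ℕ) - o, by omega⟩ ⟨(j : ℕ) - o, by omega⟩ else 0)
    else (if i = j then 1 else 0)

theorem Emb_cases (h : o + k ≤ n) (i : Fin n) :
    (∃ i' : Fin k, i = em h i') ∨ ¬ (o ≤ (i : ℕ) ∧ (i : ℕ) < o + k) := by
  by_cases hi : o ≤ (i : ℕ) ∧ (i : ℕ) < o + k
  · refine Or.inl ⟨⟨(i : ℕ) - o, by omega⟩, Fin.ext ?_⟩
    rw [em_val]
    simp only
    omega
  · exact Or.inr hi

theorem Emb_em_mem (h : o + k ≤ n) (i : Fin k) :
    o ≤ ((em h i : Fin n) : ℕ) ∧ ((em h i : Fin n) : ℕ) < o + k := by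
  rw [em_val]
  omega

theorem Emb_ext (h : o + k ≤ n) {A B : Matrix (Fin n) (Fin n) F}
    (h1 : ∀ i j : Fin k, A (em h i) (em h j) = B (em h i) (em h j))
    (h2 : ∀ i j : Fin n, ¬ (o ≤ (i : ℕ) ∧ (i : ℕ) < o + k) → A i j = B i j)
    (h3 : ∀ i j : Fin n, ¬ (o ≤ (j : ℕ) ∧ (j : ℕ) < o + k) → A i j = B i j) : A = B := by
  ext i j
  rcases Emb_cases h i with ⟨i', rfl⟩ | hi
  · rcases Emb_cases h j with ⟨j', rfl⟩ | hj
    · exact h1 i' j'
    · exact h3 _ _ hj
  · exact h2 _ _ hi

theorem Emb_in (h : o + k ≤ n) (M : Matrix (Fin k) (Fin k) F) (i j : Fin k) :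
    ioM o k n M (em h i) (em h j) = M i j := by
  have hi := Emb_em_mem h i
  have hj := Emb_em_mem h j
  rw [ioM, Matrix.of_apply, dif_pos hi, dif_pos hj]
  congr 1
  · exact Fin.ext (by simp only [em_val]; omega)
  · exact Fin.ext (by simp only [em_val]; omega)

theorem Emb_row (M : Matrix (Fin k) (Fin k) F) (i j : Fin n)
    (hi : ¬ (o ≤ (i : ℕ) ∧ (i : ℕ) < o + k)) : ioM o k n M i j = if i = j then 1 else 0 := by
  rw [ioM, Matrix.of_apply, dif_neg hi]

theorem Emb_col (M : Matrix (Fin k) (Fin k) F) (i j : Fin n)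
    (hj : ¬ (o ≤ (j : ℕ) ∧ (j : ℕ) < o + k)) : ioM o k n M i j = if i = j then 1 else 0 := by
  by_cases hi : o ≤ (i : ℕ) ∧ (i : ℕ) < o + k
  · rw [ioM, Matrix.of_apply, dif_pos hi, dif_neg hj, if_neg]
    rintro rfl
    exact hj hi
  · exact Emb_row M i j hi

/-- the equivalence of the indices with a sum -/
noncomputable def Emb_eq (h : o + k ≤ n) :
    Fin k ⊕ {i : Fin n // ¬ (o ≤ (i : ℕ) ∧ (i : ℕ) < o + k)} ≃ Fin n :=
  Equiv.ofBijective (Sum.elim (em h) Subtype.val) (by
    constructor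
    · rintro (i | i) (j | j) hij
      · exact congrArg Sum.inl (em_inj h hij)
      · exfalso
        have h1 : em h i = j.1 := hij
        exact j.2 (h1 ▸ Emb_em_mem h i)
      · exfalso
        have h1 : i.1 = em h j := hij
        exact i.2 (h1 ▸ Emb_em_mem h j)
      · exact congrArg Sum.inr (Subtype.ext hij)
    · intro i
      rcases Emb_cases h i with ⟨i', hi⟩ | hi
      · exact ⟨Sum.inl i', hi.symm⟩
      · exact ⟨Sum.inr ⟨i, hi⟩, rfl⟩)

theorem Emb_blocks (h : o + k ≤ n) (M : Matrix (Fin k) (Fin k) F) :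
    (ioM o k n M).submatrix (Emb_eq h) (Emb_eq h) = Matrix.fromBlocks M 0 0 1 := by
  ext i j
  rcases i with i | i <;> rcases j with j | j
  · exact Emb_in h M i j
  · show ioM o k n M (em h i) j.1 = 0
    rw [Emb_col M _ _ j.2, if_neg]
    intro h1
    exact j.2 (h1 ▸ Emb_em_mem h i)
  · show ioM o k n M i.1 (em h j) = 0
    rw [Emb_row M _ _ i.2, if_neg]
    intro h1
    exact i.2 (h1 ▸ Emb_em_mem h j)
  · show ioM o k n M i.1 j.1 = (1 : Matrix _ _ F) i j
    rw [Emb_row M _ _ i.2, Matrix.one_apply]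
    simp only [Subtype.ext_iff]

theorem Emb_blocks' (h : o + k ≤ n) (M : Matrix (Fin k) (Fin k) F) :
    ioM o k n M = (Matrix.fromBlocks M 0 0 1).submatrix (Emb_eq h).symm (Emb_eq h).symm := by
  rw [← Emb_blocks h M, Matrix.submatrix_submatrix]
  simp

theorem Emb_det (h : o + k ≤ n) (M : Matrix (Fin k) (Fin k) F) :
    (ioM o k n M).det = M.det := by
  rw [← Matrix.det_submatrix_equiv_self (Emb_eq h) (ioM o k n M), Emb_blocks,
    Matrix.det_fromBlocks_zero₂₁, Matrix.det_one, mul_one]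

theorem Emb_one (h : o + k ≤ n) : ioM o k n (1 : Matrix (Fin k) (Fin k) F) = 1 := by
  rw [Emb_blocks' h, Matrix.fromBlocks_one, Matrix.submatrix_one_equiv]

theorem Emb_mul (h : o + k ≤ n) (M N : Matrix (Fin k) (Fin k) F) :
    ioM o k n (M * N) = ioM o k n M * ioM o k n N := by
  rw [Emb_blocks' h M, Emb_blocks' h N, Matrix.submatrix_mul_equiv, Matrix.fromBlocks_multiply,
    Emb_blocks' h]
  simp

/-- the embedding -/
def io (h : o + k ≤ n) : SpecialLinearGroup (Fin k) F →* SpecialLinearGroup (Fin n) F where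
  toFun g := ⟨ioM o k n g.1, by
    rw [Emb_det h]
    exact g.2⟩
  map_one' := by
    refine Subtype.ext ?_
    exact Emb_one h
  map_mul' := by
    intro g g'
    refine Subtype.ext ?_
    exact Emb_mul h g.1 g'.1

theorem io_val (h : o + k ≤ n) (g : SpecialLinearGroup (Fin k) F) :
    (io h g).1 = ioM o k n g.1 := rfl

theorem io_in (h : o + k ≤ n) (g : SpecialLinearGroup (Fin k) F) (i j : Fin k) :
    (io h g).1 (em h i) (em h j) = g.1 i j := Emb_in h g.1 i j

theorem io_row (h : o + k ≤ n) (g : SpecialLinearGroup (Fin k) F) (i j : Fin n)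
    (hi : ¬ (o ≤ (i : ℕ) ∧ (i : ℕ) < o + k)) : (io h g).1 i j = if i = j then 1 else 0 :=
  Emb_row g.1 i j hi

theorem io_col (h : o + k ≤ n) (g : SpecialLinearGroup (Fin k) F) (i j : Fin n)
    (hj : ¬ (o ≤ (j : ℕ) ∧ (j : ℕ) < o + k)) : (io h g).1 i j = if i = j then 1 else 0 :=
  Emb_col g.1 i j hj

theorem Emb_tv {m : ℕ} {i j : Fin m} (hij : i ≠ j) (a : F) (r s : Fin m) :
    (SpecialLinearGroup.transvection hij a).1 r s =
      (if r = s then 1 else 0) + if i = r ∧ j = s then a else 0 := by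
  show (Matrix.transvection i j a) r s = _
  rw [Matrix.transvection, Matrix.add_apply, Matrix.one_apply, Matrix.single_apply]

theorem io_tv (h : o + k ≤ n) {i j : Fin k} (hij : i ≠ j) (a : F) :
    io h (SpecialLinearGroup.transvection hij a) =
      SpecialLinearGroup.transvection ((em_inj h).ne hij) a := by
  refine Subtype.ext ?_
  refine Emb_ext h ?_ ?_ ?_
  · intro r s
    rw [io_in, Emb_tv, Emb_tv]
    simp only [(em_inj h).eq_iff]
  · intro r s hr
    rw [io_row h _ r s hr, Emb_tv]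
    rw [if_neg (fun h1 : em h i = r ∧ em h j = s => hr (h1.1 ▸ Emb_em_mem h i)), add_zero]
  · intro r s hs
    rw [io_col h _ r s hs, Emb_tv]
    rw [if_neg (fun h1 : em h i = r ∧ em h j = s => hs (h1.2 ▸ Emb_em_mem h j)), add_zero]

theorem io_pm (h2 : ∀ a : F, a = 0 ∨ a = 1) (h : o + k ≤ n) (σ : Equiv.Perm (Fin k))
    (τ : Equiv.Perm (Fin n)) (h1 : ∀ i : Fin k, τ (em h i) = em h (σ i))
    (h3 : ∀ i : Fin n, ¬ (o ≤ (i : ℕ) ∧ (i : ℕ) < o + k) → τ i = i) :
    io h (pm h2 σ) = pm h2 τ := by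
  refine Subtype.ext ?_
  refine Emb_ext h ?_ ?_ ?_
  · intro r s
    rw [io_in, pm_apply, pm_apply, h1]
    simp only [(em_inj h).eq_iff]
  · intro r s hr
    rw [io_row h _ r s hr, pm_apply]
    have h4 : r = s ↔ r = τ s := by
      constructor
      · rintro rfl
        exact (h3 r hr).symm
      · intro h5
        have h6 : τ r = τ s := (h3 r hr).trans h5
        exact τ.injective h6
    simp only [h4]
  · intro r s hs
    rw [io_col h _ r s hs, pm_apply, h3 s hs]

theorem io_UT (h : o + k ≤ n) {u : SpecialLinearGroup (Fin k) F} (hu : u ∈ UT k F) :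
    io h u ∈ UT n F := by
  rw [mem_UT] at hu ⊢
  constructor
  · intro i j hij
    rcases Emb_cases h i with ⟨i', rfl⟩ | hi
    · rcases Emb_cases h j with ⟨j', rfl⟩ | hj
      · rw [io_in]
        refine hu.1 i' j' ?_
        rw [Fin.lt_def, em_val, em_val] at hij
        rw [Fin.lt_def]
        omega
      · rw [io_col h _ _ _ hj, if_neg hij.ne']
    · rw [io_row h _ _ _ hi, if_neg hij.ne']
  · intro i
    rcases Emb_cases h i with ⟨i', rfl⟩ | hi
    · rw [io_in]
      exact hu.2 i'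
    · rw [io_row h _ _ _ hi, if_pos rfl]

theorem io_LB (h : o + k ≤ n) {c : Fin n → ℕ} {c' : Fin k → ℕ}
    (hc : ∀ i j, c' i ≠ c' j ↔ c (em h i) ≠ c (em h j)) {g : SpecialLinearGroup (Fin k) F}
    (hg : g ∈ LB c') : io h g ∈ LB c := by
  rw [mem_LB] at hg ⊢
  intro i j hij
  have hne : i ≠ j := fun h1 => hij (h1 ▸ rfl)
  rcases Emb_cases h i with ⟨i', rfl⟩ | hi
  · rcases Emb_cases h j with ⟨j', rfl⟩ | hj
    · rw [io_in]
      exact hg i' j' ((hc i' j').2 hij)
    · rw [io_col h _ _ _ hj, if_neg hne]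
  · rw [io_row h _ _ _ hi, if_neg hne]

theorem io_RB (h : o + k ≤ n) {c : Fin n → ℕ} {c' : Fin k → ℕ}
    (hc : ∀ i j, c' i < c' j ↔ c (em h i) < c (em h j)) {g : SpecialLinearGroup (Fin k) F}
    (hg : g ∈ RB c') : io h g ∈ RB c := by
  rw [mem_RB] at hg ⊢
  intro i j
  have hne : c j < c i → i ≠ j := fun h1 h4 => by
    rw [h4] at h1
    exact lt_irrefl _ h1
  rcases Emb_cases h i with ⟨i', rfl⟩ | hi
  · rcases Emb_cases h j with ⟨j', rfl⟩ | hj
    · rw [io_in]
      constructor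
      · intro h1
        exact (hg i' j').1 ((hc j' i').2 h1)
      · intro h1
        have h4 : c' i' = c' j' := by
          have a1 := (hc i' j').1
          have a2 := (hc j' i').1
          by_contra hcon
          rcases lt_or_gt_of_ne hcon with h5 | h5
          · exact absurd (a1 h5) (by rw [h1]; exact lt_irrefl _)
          · exact absurd (a2 h5) (by rw [h1]; exact lt_irrefl _)
        rw [(hg i' j').2 h4]
        simp only [(em_inj h).eq_iff]
    · rw [io_col h _ _ _ hj]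
      exact ⟨fun h1 => if_neg (hne h1), fun _ => rfl⟩
  · rw [io_row h _ _ _ hi]
    exact ⟨fun h1 => if_neg (hne h1), fun _ => rfl⟩

theorem io_const (h : o + k ≤ n) {c : Fin n → ℕ} (hc : ∀ i j : Fin k, c (em h i) = c (em h j))
    (g : SpecialLinearGroup (Fin k) F) : io h g ∈ LB c := by
  rw [mem_LB]
  intro i j hij
  have hne : i ≠ j := fun h1 => hij (h1 ▸ rfl)
  rcases Emb_cases h i with ⟨i', rfl⟩ | hi
  · rcases Emb_cases h j with ⟨j', rfl⟩ | hj
    · exact absurd (hc i' j') hij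
    · rw [io_col h _ _ _ hj, if_neg hne]
  · rw [io_row h _ _ _ hi, if_neg hne]

end Pool.Agent.H.MP_7d3ffc_al.DF
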