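import Pool.Agent.H.MP_7d3ffc_al.DF.Bru
import Pool.Agent.H.MP_7d3ffc_al.DF.Cmb

/-!
# Module DF/Gg: the Gelfand-Graev argument for the Levi subgroup

`ρ` is pure with block function `c i = i / m`, `m ∣ n`. `ω` is the permutation which reverses every block:
`ω i = (i / m) * m + (m - 1 - i % m)`; `c (ω i) = c i`, `ω * ω = 1`, and for `i`, `j` in the same block
`i < j` iff `ω j < ω i`. `ta g = pm ω * gᵀ * pm ω`, its `(i, j)` entry is `g (ω j) (ω i)`; so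
`ta (g h) = ta h * ta g`, `ta (ta g) = g`, `ta (pm σ) = pm (ω σ⁻¹ ω)`, `ta x_ij = x_{ω j, ω i}`.
`UL = UT ⊓ LB c`, `E = eigSp ρ U lam`, `H g z = pe ρ U lam (ρ g z)`.

* `LU_ind`: as `UT_ind` (DC/Gen), inside of `LB c`.
* `ta` maps `UL` to itself, and `lam (ta u) = lam u` for `u ∈ UL`: by `LU_ind`; for `i < j` in the same block
  `lam x_ij = -1` if `j = i + 1` (`pure_neg`) and `1` otherwise (`lam_el`), and `ω j < ω i` are
  neighbours iff `i`, `j` are.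
* `gg_ta`: `H g z = H (ta g) z` for `g ∈ LB c`, `z ∈ E`. `bruhat`: `g = u * pm σ * u'`, `u`, `u' ∈ UL`,
  `c (σ i) = c i`. `H g z = lam u lam u' H (pm σ) z` (`pe_rho`; `ρ u' z = lam u' z`), and
  `H (ta g) z = lam u' lam u H (pm (ω σ⁻¹ ω)) z`. Call `σ` good if `H (pm σ) z ≠ 0`. If `σ` is good: for
  `i`, `j = i + 1` in the same block with `σ i < σ j`: `pm σ x_ij = x_{σ i σ j} pm σ` gives
  `-H (pm σ) z = lam (x_{σ i σ j}) H (pm σ) z`, so `lam (x_{σ i σ j}) ≠ 1` and `σ j = σ i + 1` (`lam_el`).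
  For `k`, `l = k + 1` in the same block with `σ⁻¹ k < σ⁻¹ l`: `x_kl pm σ = pm σ x_{σ⁻¹ k, σ⁻¹ l}` gives
  `σ⁻¹ l = σ⁻¹ k + 1` in the same way. By `comb` for each block (`p = v = t * m`, `L = m`) `ω σ⁻¹ ω = σ`.
  So if `σ` is good, the two sides are equal. If `σ' = ω σ⁻¹ ω` is good, then `ω σ'⁻¹ ω = σ'`, i.e.
  `σ = σ'`, and they are equal, too. If both are not good, both sides are `0`.
* `pe_L`: for `y ∈ X = fixSp ρ (RB c)`:
  `card UL • pe y = ∑_{u ∈ UL} (lam u)⁻¹ • ρ u y`. Let `y'` be the right side divided by `card UL`. `y'` is in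
  `X` and an eigenvector of `UL`; as every `u ∈ UT` is `l * r` with `r ∈ RB c`, `l ∈ UL` (`PB_mul`;
  `l = u r⁻¹ ∈ UT`), and `lam r = 1` (`pure_RB`), `y' ∈ E`, `pe y' = y'`; and `pe y' = pe y` by `pe_rho`.
* `gg_comm`: `y = ρ h z ∈ X`. By `pe_L`,
  `card UL • H g (H h z) = ∑_u (lam u)⁻¹ H (g u h) z`. By `gg_ta`, this is
  `∑_u (lam u)⁻¹ H (ta h * ta u * ta g) z = ∑_u (lam u)⁻¹ H (ta h * u * ta g) z` (`u ↦ ta u` is a bijection of
  `UL`, `lam (ta u) = lam u`) `= card UL • H (ta h) (H (ta g) z)`, and this is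
  `card UL • H h (H g z)` by `gg_ta` (twice; `H g z ∈ E` by `pe_mem`).
-/

namespace Pool.Agent.H.MP_7d3ffc_al.DF

open Matrix Matrix.SpecialLinearGroup Pool.Agent.H.MP_7d3ffc_al Pool.Agent.H.MP_7d3ffc_al.DC Module

variable {n : ℕ} {F : Type*} [Field F] [Finite F] {V : Type*} [AddCommGroup V] [Module ℂ V]
  [FiniteDimensional ℂ V] {ρ : Representation ℂ (SpecialLinearGroup (Fin n) F) V}
  {lam : UT n F →* ℂˣ} {c : Fin n → ℕ}

theorem LU_ind (c : Fin n → ℕ) (P : SpecialLinearGroup (Fin n) F → Prop)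
    (h1 : P 1) (hm : ∀ (i j : Fin n) (h : i < j) (a : F) (u : SpecialLinearGroup (Fin n) F),
      c i = c j → u ∈ UT n F ⊓ LB c → P u → P (SpecialLinearGroup.transvection h.ne a * u)) :
    ∀ u ∈ UT n F ⊓ LB c, P u := by
  classical
  have key : ∀ (N : ℕ) (u : SpecialLinearGroup (Fin n) F), u ∈ UT n F ⊓ LB c →
      (Finset.univ.filter fun q : Fin n × Fin n => q.1 < q.2 ∧ u.1 q.1 q.2 ≠ 0).card = N →
      P u := by
    intro N
    induction N using Nat.strong_induction_on with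
    | _ N ih =>
      intro u hu hN
      have hU := mem_UT.1 hu.1
      rcases Finset.eq_empty_or_nonempty (Finset.univ.filter fun q : Fin n × Fin n =>
        q.1 < q.2 ∧ u.1 q.1 q.2 ≠ 0) with h0 | h0
      · have hu1 : u = 1 := by
          refine Subtype.ext ?_
          ext r s
          show u.1 r s = (1 : Matrix (Fin n) (Fin n) F) r s
          rcases lt_trichotomy r s with h | h | h
          · rw [Matrix.one_apply_ne h.ne]
            by_contra hne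
            have h2 : (r, s) ∈ (Finset.univ.filter fun q : Fin n × Fin n =>
                q.1 < q.2 ∧ u.1 q.1 q.2 ≠ 0) :=
              Finset.mem_filter.2 ⟨Finset.mem_univ _, h, hne⟩
            rw [h0] at h2
            exact absurd h2 (Finset.notMem_empty _)
          · rw [h, Matrix.one_apply_eq]
            exact hU.2 s
          · rw [Matrix.one_apply_ne h.ne']
            exact hU.1 r s h
        rw [hu1]
        exact h1
      · obtain ⟨⟨i, j⟩, hij, hmax⟩ := Finset.exists_max_image _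
          (fun q : Fin n × Fin n => q.2) h0
        have hij' := (Finset.mem_filter.1 hij).2
        have hlt : i < j := hij'.1
        have hcij : c i = c j := by
          by_contra h2
          exact hij'.2 (hu.2 i j h2)
        have hrow : ∀ l, j < l → u.1 j l = 0 := by
          intro l hl
          by_contra hne
          have h2 := hmax (j, l) (Finset.mem_filter.2 ⟨Finset.mem_univ _, hl, hne⟩)
          exact absurd hl (not_lt.2 h2)
        obtain ⟨a, ha⟩ : ∃ a, a = u.1 i j := ⟨_, rfl⟩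
        obtain ⟨u', hu'⟩ : ∃ u' : SpecialLinearGroup (Fin n) F,
          u' = SpecialLinearGroup.transvection hlt.ne (-a) * u := ⟨_, rfl⟩
        have hent : ∀ r s, u'.1 r s = if r = i ∧ s = j then 0 else u.1 r s := by
          intro r s
          rw [hu']
          show (Matrix.transvection i j (-a) * u.1) r s = _
          by_cases hr : r = i
          · subst hr
            rw [Matrix.transvection_mul_apply_same]
            rcases lt_trichotomy s j with h | h | h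
            · rw [hU.1 j s h, mul_zero, add_zero, if_neg]
              rintro ⟨-, rfl⟩
              exact lt_irrefl _ h
            · rw [h, hU.2 j, if_pos ⟨rfl, rfl⟩, mul_one, ← ha]
              ring
            · rw [hrow s h, mul_zero, add_zero, if_neg]
              rintro ⟨-, rfl⟩
              exact lt_irrefl _ h
          · rw [Matrix.transvection_mul_apply_of_ne _ _ _ _ hr, if_neg (fun h => hr h.1)]
        have hsub : (Finset.univ.filter fun q : Fin n × Fin n =>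
            q.1 < q.2 ∧ u'.1 q.1 q.2 ≠ 0) ⊂
            (Finset.univ.filter fun q : Fin n × Fin n => q.1 < q.2 ∧ u.1 q.1 q.2 ≠ 0) := by
          rw [Finset.ssubset_iff_of_subset]
          · refine ⟨(i, j), hij, ?_⟩
            intro h2
            refine (Finset.mem_filter.1 h2).2.2 ?_
            rw [hent, if_pos ⟨rfl, rfl⟩]
          · intro q hq
            obtain ⟨h2, h3⟩ := (Finset.mem_filter.1 hq).2
            refine Finset.mem_filter.2 ⟨Finset.mem_univ _, h2, ?_⟩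
            rw [hent] at h3
            split_ifs at h3 with h4
            · exact absurd rfl h3
            · exact h3
        have hu'M : u' ∈ UT n F ⊓ LB c := by
          rw [hu']
          exact mul_mem ⟨el_mem hlt (-a), tv_mem_LB hlt.ne (-a) hcij⟩ hu
        have hP : P u' := by
          refine ih _ ?_ u' hu'M rfl
          rw [← hN]
          exact Finset.card_lt_card hsub
        have h2 := hm i j hlt a u' hcij hu'M hP
        have h3 : SpecialLinearGroup.transvection hlt.ne a * u' = u := by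
          rw [hu', ← mul_assoc, SpecialLinearGroup.transvection_mul_neg, one_mul]
        rw [h3] at h2
        exact h2
  exact fun u hu => key _ u hu rfl

theorem Gg_ai (σ : Equiv.Perm (Fin n)) (i : Fin n) : σ (σ⁻¹ i) = i := σ.apply_symm_apply i

theorem Gg_ia (σ : Equiv.Perm (Fin n)) (i : Fin n) : σ⁻¹ (σ i) = i := σ.symm_apply_apply i

theorem Gg_div {m : ℕ} (hm : 0 < m) (i : ℕ) : (i / m * m + (m - 1 - i % m)) / m = i / m := by
  have h1 : m - 1 - i % m < m := by omega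
  rw [mul_comm (i / m) m, Nat.mul_add_div hm, Nat.div_eq_of_lt h1, add_zero]

theorem Gg_mod {m : ℕ} (hm : 0 < m) (i : ℕ) :
    (i / m * m + (m - 1 - i % m)) % m = m - 1 - i % m := by
  have h1 : m - 1 - i % m < m := by omega
  rw [mul_comm (i / m) m, Nat.mul_add_mod, Nat.mod_eq_of_lt h1]

theorem Gg_rep (m i : ℕ) : i = i / m * m + i % m := (Nat.div_add_mod' i m).symm

theorem Gg_block {m : ℕ} (hm : 0 < m) (hmn : m ∣ n) {i : ℕ} (hi : i < n) :
    i / m * m + m ≤ n := by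
  obtain ⟨q, rfl⟩ := hmn
  have h1 : i / m < q := (Nat.div_lt_iff_lt_mul hm).2 (by rw [mul_comm]; exact hi)
  calc i / m * m + m = (i / m + 1) * m := by ring
    _ ≤ q * m := Nat.mul_le_mul_right m h1
    _ = m * q := mul_comm _ _

/-- the permutation which reverses every block of size `m` -/
theorem exists_omega {m : ℕ} (hm : 0 < m) (hmn : m ∣ n) : ∃ ω : Equiv.Perm (Fin n),
    ∀ i : Fin n, ((ω i : Fin n) : ℕ) = (i : ℕ) / m * m + (m - 1 - (i : ℕ) % m) := by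
  have hlt : ∀ i : Fin n, (i : ℕ) / m * m + (m - 1 - (i : ℕ) % m) < n := by
    intro i
    have h1 := Gg_block hm hmn i.2
    omega
  have hinv : Function.Involutive (fun i : Fin n =>
      (⟨(i : ℕ) / m * m + (m - 1 - (i : ℕ) % m), hlt i⟩ : Fin n)) := by
    intro i
    refine Fin.ext ?_
    show ((i : ℕ) / m * m + (m - 1 - (i : ℕ) % m)) / m * m +
      (m - 1 - ((i : ℕ) / m * m + (m - 1 - (i : ℕ) % m)) % m) = i
    rw [Gg_div hm, Gg_mod hm]
    have h1 := Gg_rep m (i : ℕ)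
    have h2 : (i : ℕ) % m < m := Nat.mod_lt _ hm
    omega
  exact ⟨hinv.toPerm _, fun i => rfl⟩

section omega

variable {m : ℕ} {ω : Equiv.Perm (Fin n)}

theorem Gg_ωω (hm : 0 < m)
    (hω : ∀ i : Fin n, ((ω i : Fin n) : ℕ) = (i : ℕ) / m * m + (m - 1 - (i : ℕ) % m))
    (i : Fin n) : ω (ω i) = i := by
  refine Fin.ext ?_
  rw [hω (ω i), hω i, Gg_div hm, Gg_mod hm]
  have h1 := Gg_rep m (i : ℕ)
  have h2 : (i : ℕ) % m < m := Nat.mod_lt _ hm
  omega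

theorem Gg_ωinv (hm : 0 < m)
    (hω : ∀ i : Fin n, ((ω i : Fin n) : ℕ) = (i : ℕ) / m * m + (m - 1 - (i : ℕ) % m)) :
    ω⁻¹ = ω := by
  rw [inv_eq_iff_mul_eq_one]
  exact Equiv.ext fun i => Gg_ωω hm hω i

theorem Gg_cω (hm : 0 < m) (hc : ∀ i : Fin n, c i = (i : ℕ) / m)
    (hω : ∀ i : Fin n, ((ω i : Fin n) : ℕ) = (i : ℕ) / m * m + (m - 1 - (i : ℕ) % m))
    (i : Fin n) : c (ω i) = c i := by
  rw [hc, hc, hω, Gg_div hm]

theorem Gg_lt (hm : 0 < m) (hc : ∀ i : Fin n, c i = (i : ℕ) / m)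
    (hω : ∀ i : Fin n, ((ω i : Fin n) : ℕ) = (i : ℕ) / m * m + (m - 1 - (i : ℕ) % m))
    {i j : Fin n} (h : i < j) (hij : c i = c j) : ω j < ω i := by
  rw [Fin.lt_def] at h ⊢
  rw [hc, hc] at hij
  rw [hω, hω, ← hij]
  have h1 := Gg_rep m (i : ℕ)
  have h2 := Gg_rep m (j : ℕ)
  rw [← hij] at h2
  have h3 : (i : ℕ) % m < m := Nat.mod_lt _ hm
  have h4 : (j : ℕ) % m < m := Nat.mod_lt _ hm
  omega

theorem Gg_succ (hm : 0 < m) (hc : ∀ i : Fin n, c i = (i : ℕ) / m)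
    (hω : ∀ i : Fin n, ((ω i : Fin n) : ℕ) = (i : ℕ) / m * m + (m - 1 - (i : ℕ) % m))
    {i j : Fin n} (hij : c i = c j) : (j : ℕ) = i + 1 ↔ ((ω i : Fin n) : ℕ) = ω j + 1 := by
  rw [hc, hc] at hij
  rw [hω, hω, ← hij]
  have h1 := Gg_rep m (i : ℕ)
  have h2 := Gg_rep m (j : ℕ)
  rw [← hij] at h2
  have h3 : (i : ℕ) % m < m := Nat.mod_lt _ hm
  have h4 : (j : ℕ) % m < m := Nat.mod_lt _ hm
  omega

theorem Gg_comb (hm : 0 < m) (hmn : m ∣ n) (hc : ∀ i : Fin n, c i = (i : ℕ) / m)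
    (hω : ∀ i : Fin n, ((ω i : Fin n) : ℕ) = (i : ℕ) / m * m + (m - 1 - (i : ℕ) % m))
    (σ : Equiv.Perm (Fin n)) (hσ : ∀ i, c (σ i) = c i)
    (h1 : ∀ i j : Fin n, (j : ℕ) = i + 1 → c i = c j → σ i < σ j →
      ((σ j : Fin n) : ℕ) = σ i + 1)
    (h2 : ∀ i j : Fin n, (j : ℕ) = i + 1 → c i = c j → σ⁻¹ i < σ⁻¹ j →
      ((σ⁻¹ j : Fin n) : ℕ) = σ⁻¹ i + 1) :
    ω * σ⁻¹ * ω = σ := by
  have hσ' : ∀ i, c (σ⁻¹ i) = c i := by
    intro i
    have h3 := hσ (σ⁻¹ i)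
    rw [Gg_ai] at h3
    exact h3.symm
  obtain ⟨f, hf⟩ : ∃ f : ℕ → ℕ, ∀ i : Fin n, f i = (σ i : Fin n) :=
    ⟨fun i => if h : i < n then ((σ ⟨i, h⟩ : Fin n) : ℕ) else i, fun i => dif_pos i.2⟩
  obtain ⟨g, hg⟩ : ∃ g : ℕ → ℕ, ∀ i : Fin n, g i = (σ⁻¹ i : Fin n) :=
    ⟨fun i => if h : i < n then ((σ⁻¹ ⟨i, h⟩ : Fin n) : ℕ) else i, fun i => dif_pos i.2⟩
  refine Equiv.ext fun i => Fin.ext ?_
  show ((ω (σ⁻¹ (ω i)) : Fin n) : ℕ) = σ i
  obtain ⟨t, ht⟩ : ∃ t, t = (i : ℕ) / m := ⟨_, rfl⟩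
  have htn : t * m + m ≤ n := by
    rw [ht]
    exact Gg_block hm hmn i.2
  -- membership of a block
  have hblk : ∀ x : ℕ, t * m ≤ x → x < t * m + m → x / m = t := by
    intro x hx1 hx2
    refine Nat.div_eq_of_lt_le hx1 ?_
    calc x < t * m + m := hx2
      _ = (t + 1) * m := by ring
  have hblk' : ∀ x : ℕ, x / m = t → t * m ≤ x ∧ x < t * m + m := by
    intro x hx
    have h3 := Gg_rep m x
    rw [hx] at h3
    have h4 : x % m < m := Nat.mod_lt _ hm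
    omega
  have hd : ∀ x : Fin n, ((σ x : Fin n) : ℕ) / m = (x : ℕ) / m := by
    intro x
    have h3 := hσ x
    rw [hc, hc] at h3
    exact h3
  have hd' : ∀ x : Fin n, ((σ⁻¹ x : Fin n) : ℕ) / m = (x : ℕ) / m := by
    intro x
    have h3 := hσ' x
    rw [hc, hc] at h3
    exact h3
  have key := comb f g m (t * m) (t * m)
    (by
      intro x hx1 hx2
      obtain ⟨y, hy⟩ : ∃ y : Fin n, (y : ℕ) = x := ⟨⟨x, by omega⟩, rfl⟩
      rw [← hy, hf y, hg (σ y), Gg_ia]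
      have h3 := hblk' _ ((hd y).trans (by rw [hy]; exact hblk x hx1 hx2))
      exact ⟨h3.1, h3.2, rfl⟩)
    (by
      intro x hx1 hx2
      obtain ⟨y, hy⟩ : ∃ y : Fin n, (y : ℕ) = x := ⟨⟨x, by omega⟩, rfl⟩
      rw [← hy, hg y, hf (σ⁻¹ y), Gg_ai]
      have h3 := hblk' _ ((hd' y).trans (by rw [hy]; exact hblk x hx1 hx2))
      exact ⟨h3.1, h3.2, rfl⟩)
    (by
      intro x hx1 hx2 hx3
      obtain ⟨y, hy⟩ : ∃ y : Fin n, (y : ℕ) = x := ⟨⟨x, by omega⟩, rfl⟩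
      obtain ⟨y', hy'⟩ : ∃ y' : Fin n, (y' : ℕ) = x + 1 := ⟨⟨x + 1, by omega⟩, rfl⟩
      rw [← hy', ← hy, hf, hf] at hx3 ⊢
      refine h1 y y' (by rw [hy', hy]) ?_ hx3
      rw [hc, hc, hy, hy', hblk x hx1 (by omega), hblk (x + 1) (by omega) (by omega)])
    (by
      intro x hx1 hx2 hx3
      obtain ⟨y, hy⟩ : ∃ y : Fin n, (y : ℕ) = x := ⟨⟨x, by omega⟩, rfl⟩
      obtain ⟨y', hy'⟩ : ∃ y' : Fin n, (y' : ℕ) = x + 1 := ⟨⟨x + 1, by omega⟩, rfl⟩
      rw [← hy', ← hy, hg, hg] at hx3 ⊢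
      refine h2 y y' (by rw [hy', hy]) ?_ hx3
      rw [hc, hc, hy, hy', hblk x hx1 (by omega), hblk (x + 1) (by omega) (by omega)])
  have hi := hblk' i ht.symm
  have hr := Gg_rep m (i : ℕ)
  rw [← ht] at hr
  have hrm : (i : ℕ) % m < m := Nat.mod_lt _ hm
  have hωi : ((ω i : Fin n) : ℕ) = t * m + (m - 1 - (i : ℕ) % m) := by rw [hω, ← ht]
  have h3 := key i (ω i) hi.1 hi.2 (by rw [hωi]; omega)
  rw [hf, hg] at h3
  have h4 : ((ω i : Fin n) : ℕ) / m = t := by rw [hω, Gg_div hm, ht]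
  have h5 := (hd' (ω i)).trans h4
  have h6 := Gg_rep m ((σ⁻¹ (ω i) : Fin n) : ℕ)
  rw [h5] at h6
  rw [hω, h5]
  have h7 : ((σ⁻¹ (ω i) : Fin n) : ℕ) % m < m := Nat.mod_lt _ hm
  omega

end omega

/-- the anti-automorphism -/
def ta (h2 : ∀ a : F, a = 0 ∨ a = 1) (ω : Equiv.Perm (Fin n)) (g : SpecialLinearGroup (Fin n) F) :
    SpecialLinearGroup (Fin n) F :=
  pm h2 ω * ⟨g.1ᵀ, by rw [Matrix.det_transpose, g.2]⟩ * pm h2 ω

section ta

variable {m : ℕ} {ω : Equiv.Perm (Fin n)}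

theorem Gg_pm_mul (h2 : ∀ a : F, a = 0 ∨ a = 1) (σ : Equiv.Perm (Fin n))
    (x : Matrix (Fin n) (Fin n) F) (i j : Fin n) : ((pm h2 σ).1 * x) i j = x (σ⁻¹ i) j := by
  rw [Matrix.mul_apply, Finset.sum_eq_single (σ⁻¹ i)]
  · rw [pm_apply, Gg_ai, if_pos rfl, one_mul]
  · intro k _ hk
    rw [pm_apply, if_neg, zero_mul]
    rintro rfl
    exact hk (Gg_ia σ k).symm
  · intro h
    exact absurd (Finset.mem_univ _) h

theorem Gg_mul_pm (h2 : ∀ a : F, a = 0 ∨ a = 1) (σ : Equiv.Perm (Fin n))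
    (x : Matrix (Fin n) (Fin n) F) (i j : Fin n) : (x * (pm h2 σ).1) i j = x i (σ j) := by
  rw [Matrix.mul_apply, Finset.sum_eq_single (σ j)]
  · rw [pm_apply, if_pos rfl, mul_one]
  · intro k _ hk
    rw [pm_apply, if_neg hk, mul_zero]
  · intro h
    exact absurd (Finset.mem_univ _) h

theorem Gg_ta_apply (h2 : ∀ a : F, a = 0 ∨ a = 1) (hωω : ω⁻¹ = ω)
    (g : SpecialLinearGroup (Fin n) F) (i j : Fin n) :
    (ta h2 ω g).1 i j = g.1 (ω j) (ω i) := by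
  show ((pm h2 ω).1 * g.1ᵀ * (pm h2 ω).1) i j = g.1 (ω j) (ω i)
  rw [Gg_mul_pm, Gg_pm_mul, hωω, Matrix.transpose_apply]

theorem Gg_ta_mul (h2 : ∀ a : F, a = 0 ∨ a = 1) (hωω : ω⁻¹ = ω)
    (g h : SpecialLinearGroup (Fin n) F) : ta h2 ω (g * h) = ta h2 ω h * ta h2 ω g := by
  refine Subtype.ext ?_
  ext i j
  rw [Gg_ta_apply h2 hωω]
  show (g.1 * h.1) (ω j) (ω i) = ((ta h2 ω h).1 * (ta h2 ω g).1) i j
  rw [Matrix.mul_apply, Matrix.mul_apply, ← Equiv.sum_comp ω]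
  refine Finset.sum_congr rfl fun k _ => ?_
  rw [Gg_ta_apply h2 hωω, Gg_ta_apply h2 hωω, mul_comm]

theorem Gg_ta_ta (h2 : ∀ a : F, a = 0 ∨ a = 1) (hωω : ω⁻¹ = ω)
    (g : SpecialLinearGroup (Fin n) F) : ta h2 ω (ta h2 ω g) = g := by
  have hw : ∀ i, ω (ω i) = i := by
    intro i
    have h3 := Gg_ia ω i
    rwa [hωω] at h3
  refine Subtype.ext ?_
  ext i j
  rw [Gg_ta_apply h2 hωω, Gg_ta_apply h2 hωω, hw, hw]

theorem Gg_ta_pm (h2 : ∀ a : F, a = 0 ∨ a = 1) (hωω : ω⁻¹ = ω) (σ : Equiv.Perm (Fin n)) :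
    ta h2 ω (pm h2 σ) = pm h2 (ω * σ⁻¹ * ω) := by
  have hw : ∀ i, ω (ω i) = i := by
    intro i
    have h3 := Gg_ia ω i
    rwa [hωω] at h3
  refine Subtype.ext ?_
  ext i j
  rw [Gg_ta_apply h2 hωω, pm_apply, pm_apply]
  have h3 : ω j = σ (ω i) ↔ i = (ω * σ⁻¹ * ω) j := by
    show ω j = σ (ω i) ↔ i = ω (σ⁻¹ (ω j))
    constructor
    · intro h
      rw [h, Gg_ia, hw]
    · intro h
      rw [h, hw, Gg_ai]
  by_cases h4 : ω j = σ (ω i)
  · rw [if_pos h4, if_pos (h3.1 h4)]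
  · rw [if_neg h4, if_neg fun h => h4 (h3.2 h)]

theorem Gg_ta_tv (h2 : ∀ a : F, a = 0 ∨ a = 1) (hωω : ω⁻¹ = ω) {i j : Fin n} (h : i ≠ j)
    (h' : ω j ≠ ω i) (a : F) : ta h2 ω (SpecialLinearGroup.transvection h a) =
      SpecialLinearGroup.transvection h' a := by
  have hw : ∀ i, ω (ω i) = i := by
    intro i
    have h3 := Gg_ia ω i
    rwa [hωω] at h3
  refine Subtype.ext ?_
  ext r s
  rw [Gg_ta_apply h2 hωω]
  show (Matrix.transvection i j a) (ω s) (ω r) = (Matrix.transvection (ω j) (ω i) a) r s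
  unfold Matrix.transvection
  rw [Matrix.add_apply, Matrix.add_apply]
  congr 1
  · rw [Matrix.one_apply, Matrix.one_apply]
    by_cases hrs : r = s
    · rw [if_pos hrs, if_pos (by rw [hrs])]
    · rw [if_neg hrs, if_neg fun h3 => hrs (ω.injective h3).symm]
  · by_cases h3 : i = ω s ∧ j = ω r
    · rw [h3.1, h3.2, hw, hw, Matrix.single_apply_same, Matrix.single_apply_same]
    · rw [Matrix.single_apply_of_ne _ _ _ _ _ h3, Matrix.single_apply_of_ne]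
      rintro ⟨h4, h5⟩
      exact h3 ⟨by rw [← h5, hw], by rw [← h4, hw]⟩

theorem Gg_ta_LB (h2 : ∀ a : F, a = 0 ∨ a = 1) (hωω : ω⁻¹ = ω) (hcω : ∀ i, c (ω i) = c i)
    {g : SpecialLinearGroup (Fin n) F} (hg : g ∈ LB c) : ta h2 ω g ∈ LB c := by
  intro i j hij
  rw [Gg_ta_apply h2 hωω]
  refine hg _ _ fun h => hij ?_
  rw [hcω, hcω] at h
  exact h.symm

theorem Gg_ta_UL (h2 : ∀ a : F, a = 0 ∨ a = 1) (hP : IsPure ρ lam c) (hm : 0 < m)
    (hc : ∀ i : Fin n, c i = (i : ℕ) / m)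
    (hω : ∀ i : Fin n, ((ω i : Fin n) : ℕ) = (i : ℕ) / m * m + (m - 1 - (i : ℕ) % m)) :
    ∀ u ∈ UT n F ⊓ LB c, ∀ hu : u ∈ UT n F, ∃ h' : ta h2 ω u ∈ UT n F,
      lam ⟨ta h2 ω u, h'⟩ = lam ⟨u, hu⟩ := by
  have hωω := Gg_ωinv hm hω
  refine LU_ind c _ ?_ ?_
  · intro hu
    have h3 : ta h2 ω (1 : SpecialLinearGroup (Fin n) F) = 1 := by
      have h4 := Gg_ta_pm h2 hωω (1 : Equiv.Perm (Fin n))
      rw [pm_one, inv_one, mul_one] at h4
      rw [h4]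
      have h5 : ω * ω = 1 := inv_eq_iff_mul_eq_one.1 hωω
      rw [h5, pm_one]
    have h4 : ta h2 ω (1 : SpecialLinearGroup (Fin n) F) ∈ UT n F := by
      rw [h3]
      exact one_mem _
    refine ⟨h4, ?_⟩
    congr 1
    exact Subtype.ext h3
  · intro i j h a u hij hu ih hU
    obtain ⟨h', he⟩ := ih hu.1
    have hlt := Gg_lt hm hc hω h hij
    have h3 : ta h2 ω (SpecialLinearGroup.transvection h.ne a * u) =
        ta h2 ω u * SpecialLinearGroup.transvection hlt.ne a := by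
      rw [Gg_ta_mul h2 hωω, Gg_ta_tv h2 hωω h.ne hlt.ne]
    have h4 : ta h2 ω (SpecialLinearGroup.transvection h.ne a * u) ∈ UT n F := by
      rw [h3]
      exact mul_mem h' (el_mem hlt a)
    refine ⟨h4, ?_⟩
    have h5 : (⟨ta h2 ω (SpecialLinearGroup.transvection h.ne a * u), h4⟩ : UT n F) =
        ⟨ta h2 ω u, h'⟩ * el hlt a := Subtype.ext h3
    have h6 : (⟨SpecialLinearGroup.transvection h.ne a * u, hU⟩ : UT n F) =
        el h a * ⟨u, hu.1⟩ := Subtype.ext rfl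
    rw [h5, h6, map_mul, map_mul, he, mul_comm]
    congr 1
    rcases h2 a with rfl | rfl
    · rw [el_zero, el_zero]
    · by_cases hs : (j : ℕ) = i + 1
      · have hs' := (Gg_succ hm hc hω hij).1 hs
        have hcω := Gg_cω hm hc hω
        refine Units.ext ?_
        rw [pure_neg h2 hP h hs hij, pure_neg h2 hP hlt hs' (by rw [hcω, hcω, hij])]
      · rw [lam_el lam h hs, lam_el lam hlt fun hs' => hs ((Gg_succ hm hc hω hij).2 hs')]

end ta

/-- moving the elements of `UT` out -/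
theorem Gg_move (u u' : UT n F) (g : SpecialLinearGroup (Fin n) F) {z : V}
    (hz : z ∈ eigSp ρ (UT n F) lam) :
    pe ρ (UT n F) lam (ρ ((u : SpecialLinearGroup (Fin n) F) * g * u') z) =
      ((lam u : ℂˣ) : ℂ) • ((lam u' : ℂˣ) : ℂ) • pe ρ (UT n F) lam (ρ g z) := by
  rw [map_mul, map_mul, Module.End.mul_apply, Module.End.mul_apply, (mem_eigSp.1 hz) u', map_smul,
    map_smul, map_smul, pe_rho, smul_comm]

theorem Gg_good (h2 : ∀ a : F, a = 0 ∨ a = 1) (hP : IsPure ρ lam c) {m : ℕ} (hm : 0 < m)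
    (hmn : m ∣ n) (hc : ∀ i : Fin n, c i = (i : ℕ) / m) {ω : Equiv.Perm (Fin n)}
    (hω : ∀ i : Fin n, ((ω i : Fin n) : ℕ) = (i : ℕ) / m * m + (m - 1 - (i : ℕ) % m))
    {σ : Equiv.Perm (Fin n)} (hσ : ∀ i, c (σ i) = c i) {z : V}
    (hz : z ∈ eigSp ρ (UT n F) lam) (hne : pe ρ (UT n F) lam (ρ (pm h2 σ) z) ≠ 0) :
    ω * σ⁻¹ * ω = σ := by
  -- the comparison
  have hcmp : ∀ (i j : Fin n) (h : i < j) (h' : σ i < σ j),
      ((lam (el h (1 : F)) : ℂˣ) : ℂ) = ((lam (el h' (1 : F)) : ℂˣ) : ℂ) := by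
    intro i j h h'
    have h3 : pm h2 σ * SpecialLinearGroup.transvection h.ne (1 : F) =
        SpecialLinearGroup.transvection h'.ne (1 : F) * pm h2 σ := pm_tv h2 σ h.ne 1
    have h4 := Gg_move (ρ := ρ) (lam := lam) 1 (el h (1 : F)) (pm h2 σ) hz
    have h5 := Gg_move (ρ := ρ) (lam := lam) (el h' (1 : F)) 1 (pm h2 σ) hz
    have h6 : ((1 : UT n F) : SpecialLinearGroup (Fin n) F) * pm h2 σ * (el h (1 : F) : UT n F) =
        (el h' (1 : F) : UT n F) * pm h2 σ * ((1 : UT n F) : SpecialLinearGroup (Fin n) F) := by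
      rw [Subgroup.coe_one, one_mul, mul_one]
      exact h3
    rw [h6, h5, map_one, Units.val_one, one_smul, one_smul] at h4
    have h7 := sub_eq_zero.2 h4
    rw [← sub_smul] at h7
    rcases smul_eq_zero.1 h7 with h8 | h8
    · exact (sub_eq_zero.1 h8).symm
    · exact absurd h8 hne
  have hσ' : ∀ i, c (σ⁻¹ i) = c i := by
    intro i
    have h3 := hσ (σ⁻¹ i)
    rw [Gg_ai] at h3
    exact h3.symm
  have hm1 : (-1 : ℂ) ≠ 1 := by norm_num
  refine Gg_comb hm hmn hc hω σ hσ ?_ ?_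
  · intro i j hs hij h'
    have h : i < j := by
      rw [Fin.lt_def]
      omega
    by_contra hcon
    have h3 := hcmp i j h h'
    rw [pure_neg h2 hP h hs hij, lam_el lam h' hcon, Units.val_one] at h3
    exact hm1 h3
  · intro k l hs hkl h'
    have h : k < l := by
      rw [Fin.lt_def]
      omega
    by_contra hcon
    have h'' : σ (σ⁻¹ k) < σ (σ⁻¹ l) := by
      rw [Gg_ai, Gg_ai]
      exact h
    have h3 := hcmp (σ⁻¹ k) (σ⁻¹ l) h' h''
    have h4 : ((lam (el h'' (1 : F)) : ℂˣ) : ℂ) = -1 := by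
      refine pure_neg h2 hP h'' ?_ ?_
      · rw [Gg_ai, Gg_ai]
        exact hs
      · rw [Gg_ai, Gg_ai]
        exact hkl
    rw [h4, lam_el lam h' hcon, Units.val_one] at h3
    exact hm1 h3.symm

theorem gg_ta (h2 : ∀ a : F, a = 0 ∨ a = 1) (hP : IsPure ρ lam c) {m : ℕ} (hm : 0 < m)
    (hmn : m ∣ n) (hc : ∀ i : Fin n, c i = (i : ℕ) / m) (ω : Equiv.Perm (Fin n))
    (hω : ∀ i : Fin n, ((ω i : Fin n) : ℕ) = (i : ℕ) / m * m + (m - 1 - (i : ℕ) % m))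
    {g : SpecialLinearGroup (Fin n) F} (hg : g ∈ LB c) {z : V}
    (hz : z ∈ eigSp ρ (UT n F) lam) :
    pe ρ (UT n F) lam (ρ g z) = pe ρ (UT n F) lam (ρ (ta h2 ω g) z) := by
  have hωω := Gg_ωinv hm hω
  have hcω := Gg_cω hm hc hω
  obtain ⟨u, hu, u', hu', σ, hσ, rfl⟩ := bruhat h2 c g hg
  obtain ⟨h3, h4⟩ := Gg_ta_UL h2 hP hm hc hω u hu hu.1
  obtain ⟨h3', h4'⟩ := Gg_ta_UL h2 hP hm hc hω u' hu' hu'.1
  have hta : ta h2 ω (u * pm h2 σ * u') =
      ta h2 ω u' * pm h2 (ω * σ⁻¹ * ω) * ta h2 ω u := by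
    rw [Gg_ta_mul h2 hωω, Gg_ta_mul h2 hωω, Gg_ta_pm h2 hωω]
    exact (mul_assoc _ _ _).symm
  have e1 := Gg_move (ρ := ρ) (lam := lam) ⟨u, hu.1⟩ ⟨u', hu'.1⟩ (pm h2 σ) hz
  have e2 := Gg_move (ρ := ρ) (lam := lam) ⟨ta h2 ω u', h3'⟩ ⟨ta h2 ω u, h3⟩
    (pm h2 (ω * σ⁻¹ * ω)) hz
  rw [h4, h4', smul_comm] at e2
  rw [hta]
  refine e1.trans (Eq.trans ?_ e2.symm)
  congr 2
  by_cases hg1 : pe ρ (UT n F) lam (ρ (pm h2 σ) z) = 0
  · by_cases hg2 : pe ρ (UT n F) lam (ρ (pm h2 (ω * σ⁻¹ * ω)) z) = 0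
    · rw [hg1, hg2]
    · have hσ' : ∀ i, c ((ω * σ⁻¹ * ω) i) = c i := by
        intro i
        show c (ω (σ⁻¹ (ω i))) = c i
        have h5 := hσ (σ⁻¹ (ω i))
        rw [Gg_ai] at h5
        rw [hcω, ← h5, hcω]
      have h5 := Gg_good h2 hP hm hmn hc hω hσ' hz hg2
      have h6 : ω * (ω * σ⁻¹ * ω)⁻¹ * ω = σ := by
        rw [_root_.mul_inv_rev, _root_.mul_inv_rev, inv_inv, hωω]
        have h7 : ω * ω = 1 := inv_eq_iff_mul_eq_one.1 hωω
        calc ω * (ω * (σ * ω)) * ω = (ω * ω) * σ * (ω * ω) := by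
              simp only [mul_assoc]
          _ = σ := by rw [h7, one_mul, mul_one]
      rw [← h5, h6]
  · rw [Gg_good h2 hP hm hmn hc hω hσ hz hg1]

/-- the character of the Levi part -/
def Gg_l (lam : UT n F →* ℂˣ) (c : Fin n → ℕ) :
    (UT n F ⊓ LB c : Subgroup (SpecialLinearGroup (Fin n) F)) →* ℂˣ :=
  lam.comp (Subgroup.inclusion inf_le_left)

theorem Gg_fix (g : SpecialLinearGroup (Fin n) F) (hg : g ∈ LB c) {y : V}
    (hy : y ∈ fixSp ρ (RB c)) : ρ g y ∈ fixSp ρ (RB c) := by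
  intro r hr
  have h1 : g⁻¹ * r * g⁻¹⁻¹ ∈ RB c := PB_conj (LB_le_PB c (inv_mem hg)) hr
  rw [inv_inv] at h1
  have h2 : r * g = g * (g⁻¹ * r * g) := by group
  rw [← Module.End.mul_apply, ← map_mul, h2, map_mul, Module.End.mul_apply, hy _ h1]

theorem Gg_pe_L (h2 : ∀ a : F, a = 0 ∨ a = 1) (hP : IsPure ρ lam c) {y : V}
    (hy : y ∈ fixSp ρ (RB c)) :
    pe ρ (UT n F) lam y = pe ρ (UT n F ⊓ LB c) (Gg_l lam c) y := by
  classical
  let _ := Fintype.ofFinite (UT n F ⊓ LB c : Subgroup (SpecialLinearGroup (Fin n) F))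
  obtain ⟨y', hy'⟩ : ∃ y', y' = pe ρ (UT n F ⊓ LB c) (Gg_l lam c) y := ⟨_, rfl⟩
  have hexp : y' = (Nat.card (UT n F ⊓ LB c : Subgroup (SpecialLinearGroup (Fin n) F)) : ℂ)⁻¹ •
      ∑ x : (UT n F ⊓ LB c : Subgroup (SpecialLinearGroup (Fin n) F)),
        (((Gg_l lam c x)⁻¹ : ℂˣ) : ℂ) • ρ (x : SpecialLinearGroup (Fin n) F) y := by
    rw [hy']
    exact proj_apply ρ _ (Gg_l lam c) y
  have hcard : (Nat.card (UT n F ⊓ LB c : Subgroup (SpecialLinearGroup (Fin n) F)) : ℂ) ≠ 0 :=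
    Nat.cast_ne_zero.2 Nat.card_pos.ne'
  have hfix : y' ∈ fixSp ρ (RB c) := by
    rw [hexp]
    refine Submodule.smul_mem _ _ (Submodule.sum_mem _ fun x _ => Submodule.smul_mem _ _ ?_)
    exact Gg_fix _ x.2.2 hy
  have heig : y' ∈ eigSp ρ (UT n F) lam := by
    intro u
    obtain ⟨l, hl, r, hr, hu⟩ := PB_mul h2 (UT_le_PB hP.mono u.2)
    have hrU : r ∈ UT n F := RB_le_UT hP.mono hr
    have hlU : l ∈ UT n F := by
      have h3 : l = (u : SpecialLinearGroup (Fin n) F) * r⁻¹ := by rw [hu]; group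
      rw [h3]
      exact mul_mem u.2 (inv_mem hrU)
    have h3 : u = ⟨l, hlU⟩ * ⟨r, hrU⟩ := Subtype.ext hu
    have h4 := pe_mem ρ (UT n F ⊓ LB c) (Gg_l lam c) y ⟨l, hlU, hl⟩
    rw [← hy'] at h4
    have h5 : Gg_l lam c ⟨l, hlU, hl⟩ = lam ⟨l, hlU⟩ := rfl
    rw [h5] at h4
    rw [h3, map_mul lam, pure_RB h2 hP ⟨r, hrU⟩ hr, mul_one, Subgroup.coe_mul, map_mul ρ,
      Module.End.mul_apply]
    have h6 : ρ r y' = y' := hfix r hr
    exact (congrArg _ h6).trans h4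
  have h7 : pe ρ (UT n F) lam y' = pe ρ (UT n F) lam y := by
    rw [hexp, map_smul, map_sum]
    have h8 : ∀ x : (UT n F ⊓ LB c : Subgroup (SpecialLinearGroup (Fin n) F)),
        pe ρ (UT n F) lam ((((Gg_l lam c x)⁻¹ : ℂˣ) : ℂ) •
          ρ (x : SpecialLinearGroup (Fin n) F) y) = pe ρ (UT n F) lam y := by
      intro x
      have h9 := pe_rho ρ (UT n F) lam ⟨x, x.2.1⟩ y
      have h10 : Gg_l lam c x = lam ⟨x, x.2.1⟩ := rfl
      rw [map_smul, h10]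
      rw [show pe ρ (UT n F) lam (ρ (x : SpecialLinearGroup (Fin n) F) y) = _ from h9, smul_smul,
        ← Units.val_mul, inv_mul_cancel, Units.val_one, one_smul]
    rw [Finset.sum_congr rfl fun x _ => h8 x, Finset.sum_const, Finset.card_univ,
      ← Nat.card_eq_fintype_card, ← Nat.cast_smul_eq_nsmul ℂ, smul_smul, inv_mul_cancel₀ hcard,
      one_smul]
  rw [← h7, pe_self ρ (UT n F) lam heig, hy']

theorem Gg_comp (h2 : ∀ a : F, a = 0 ∨ a = 1) (hP : IsPure ρ lam c)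
    [Fintype (UT n F ⊓ LB c : Subgroup (SpecialLinearGroup (Fin n) F))]
    (g h : SpecialLinearGroup (Fin n) F) (hh : h ∈ LB c) {z : V}
    (hz : z ∈ eigSp ρ (UT n F) lam) :
    pe ρ (UT n F) lam (ρ g (pe ρ (UT n F) lam (ρ h z))) =
      (Nat.card (UT n F ⊓ LB c : Subgroup (SpecialLinearGroup (Fin n) F)) : ℂ)⁻¹ •
      ∑ x : (UT n F ⊓ LB c : Subgroup (SpecialLinearGroup (Fin n) F)),
        (((Gg_l lam c x)⁻¹ : ℂˣ) : ℂ) •
          pe ρ (UT n F) lam (ρ (g * (x : SpecialLinearGroup (Fin n) F) * h) z) := by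
  have h1 := Gg_pe_L h2 hP (Gg_fix h hh (eig_le_fix h2 hP hz))
  have h3 : pe ρ (UT n F ⊓ LB c) (Gg_l lam c) (ρ h z) =
      (Nat.card (UT n F ⊓ LB c : Subgroup (SpecialLinearGroup (Fin n) F)) : ℂ)⁻¹ •
      ∑ x : (UT n F ⊓ LB c : Subgroup (SpecialLinearGroup (Fin n) F)),
        (((Gg_l lam c x)⁻¹ : ℂˣ) : ℂ) • ρ (x : SpecialLinearGroup (Fin n) F) (ρ h z) := by
    have h4 := @proj_apply _ _ _ _ _ ρ (UT n F ⊓ LB c) (Fintype.ofFinite _) (Gg_l lam c) (ρ h z)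
    refine h4.trans ?_
    congr 1
    exact Finset.sum_congr (by ext; simp) fun _ _ => rfl
  rw [h1, h3, map_smul, map_smul, map_sum, map_sum]
  congr 1
  refine Finset.sum_congr rfl fun x _ => ?_
  rw [map_smul, map_smul, map_mul, map_mul, Module.End.mul_apply, Module.End.mul_apply]

theorem gg_comm (h2 : ∀ a : F, a = 0 ∨ a = 1) (hP : IsPure ρ lam c) {m : ℕ} (hm : 0 < m)
    (hmn : m ∣ n) (hc : ∀ i : Fin n, c i = (i : ℕ) / m)
    {g h : SpecialLinearGroup (Fin n) F} (hg : g ∈ LB c) (hh : h ∈ LB c) {z : V}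
    (hz : z ∈ eigSp ρ (UT n F) lam) :
    pe ρ (UT n F) lam (ρ g (pe ρ (UT n F) lam (ρ h z))) =
      pe ρ (UT n F) lam (ρ h (pe ρ (UT n F) lam (ρ g z))) := by
  classical
  let _ := Fintype.ofFinite (UT n F ⊓ LB c : Subgroup (SpecialLinearGroup (Fin n) F))
  obtain ⟨ω, hω⟩ := exists_omega hm hmn
  have hωω := Gg_ωinv hm hω
  have hcω := Gg_cω hm hc hω
  have hgz := pe_mem ρ (UT n F) lam (ρ g z)
  -- the bijection
  have hta : ∀ x : (UT n F ⊓ LB c : Subgroup (SpecialLinearGroup (Fin n) F)),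
      ta h2 ω (x : SpecialLinearGroup (Fin n) F) ∈ UT n F ⊓ LB c := fun x =>
    ⟨(Gg_ta_UL h2 hP hm hc hω x x.2 x.2.1).1, Gg_ta_LB h2 hωω hcω x.2.2⟩
  have hinv : Function.Involutive
      (fun x : (UT n F ⊓ LB c : Subgroup (SpecialLinearGroup (Fin n) F)) =>
        (⟨ta h2 ω x, hta x⟩ : (UT n F ⊓ LB c : Subgroup (SpecialLinearGroup (Fin n) F)))) :=
    fun x => Subtype.ext (Gg_ta_ta h2 hωω x)
  have hlam : ∀ x : (UT n F ⊓ LB c : Subgroup (SpecialLinearGroup (Fin n) F)),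
      Gg_l lam c ⟨ta h2 ω x, hta x⟩ = Gg_l lam c x := by
    intro x
    obtain ⟨h3, h4⟩ := Gg_ta_UL h2 hP hm hc hω x x.2 x.2.1
    exact h4
  calc pe ρ (UT n F) lam (ρ g (pe ρ (UT n F) lam (ρ h z)))
      = (Nat.card (UT n F ⊓ LB c : Subgroup (SpecialLinearGroup (Fin n) F)) : ℂ)⁻¹ •
        ∑ x : (UT n F ⊓ LB c : Subgroup (SpecialLinearGroup (Fin n) F)),
          (((Gg_l lam c x)⁻¹ : ℂˣ) : ℂ) •
            pe ρ (UT n F) lam (ρ (g * (x : SpecialLinearGroup (Fin n) F) * h) z) :=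
        Gg_comp h2 hP g h hh hz
    _ = (Nat.card (UT n F ⊓ LB c : Subgroup (SpecialLinearGroup (Fin n) F)) : ℂ)⁻¹ •
        ∑ x : (UT n F ⊓ LB c : Subgroup (SpecialLinearGroup (Fin n) F)),
          (((Gg_l lam c x)⁻¹ : ℂˣ) : ℂ) • pe ρ (UT n F) lam
            (ρ (ta h2 ω h * (x : SpecialLinearGroup (Fin n) F) * ta h2 ω g) z) := by
        congr 1
        refine Fintype.sum_equiv (hinv.toPerm _) _ _ fun x => ?_
        have h3 : (hinv.toPerm _) x = ⟨ta h2 ω x, hta x⟩ := rfl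
        rw [h3, hlam, gg_ta h2 hP hm hmn hc ω hω
          (mul_mem (mul_mem hg x.2.2) hh) hz, Gg_ta_mul h2 hωω, Gg_ta_mul h2 hωω, ← mul_assoc]
    _ = pe ρ (UT n F) lam (ρ (ta h2 ω h) (pe ρ (UT n F) lam (ρ (ta h2 ω g) z))) :=
        (Gg_comp h2 hP (ta h2 ω h) (ta h2 ω g) (Gg_ta_LB h2 hωω hcω hg) hz).symm
    _ = pe ρ (UT n F) lam (ρ (ta h2 ω h) (pe ρ (UT n F) lam (ρ g z))) := by
        rw [← gg_ta h2 hP hm hmn hc ω hω hg hz]
    _ = pe ρ (UT n F) lam (ρ h (pe ρ (UT n F) lam (ρ g z))) :=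
        (gg_ta h2 hP hm hmn hc ω hω hh hgz).symm

end Pool.Agent.H.MP_7d3ffc_al.DF
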