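import Pool.Agent.H.MP_7d3ffc_al.DF.Adb

/-!
# Module DF/Spn: the Hecke algebra acts through the Levi subgroup

`X = fixSp ρ (RB c)`, `e = av ρ (RB c)`, `S(x) = span {ρ l x | l ∈ LB c}`; `y ∈ S(x)` implies `S(y) ≤ S(x)`, and
`S(x) ≤ X` (`PB_fix`).

`span_perm`: `e (ρ (pm σ) x) ∈ S(x)` for all `x ∈ X`. Induction on the number of the pairs `(i, j)` with
`c i < c j`, `c (σ j) < c (σ i)`.
(1) If there are `i`, `j` with `c i = c j`, `c (σ i) ≠ c (σ j)`, then it is `0` by `perm_van`. So assume that `σ`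
maps blocks into blocks (hence onto blocks, all have the size `m`).
(2) If there is no pair as above, then `c (σ i) = c i` for all `i` (`i ↦ c (σ i)` is a monotone function which
takes every value `m` times), `pm σ ∈ LB c`, `ρ (pm σ) x ∈ X`, and `e` of it is itself.
(3) Otherwise there is a `t` such that `c (σ j) < c (σ i)` for `c i = t`, `c j = t + 1` (the
block permutation is not monotone). Let `s` be the exchange of the blocks `t`, `t + 1` as in `adj_swap`,
`σ' = σ * s`, `σ = σ' * s`. The map `(i, j) ↦ (s i, s j)` maps the pairs for `σ'` injectively to the pairs for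
`σ`, and the pairs with `c i = t`, `c j = t + 1` are not in the image: `σ'` has fewer pairs. Let
`y = ρ (pm s) x`; it is in `fixSp ρ (RB (cm t c))`: `pm s ∈ LB (cm t c) ≤ PB (cm t c)`, and `x` is in it
(`RB (cm t c) ≤ RB c`), `PB_fix`. `Φ = e ∘ ρ (pm σ')` satisfies the condition of `adj_map`: for
`c i = t`, `c j = t + 1`, `pm σ' x_ij = x_{σ' i, σ' j} pm σ'` (`pm_tv`) and `c (σ' i) < c (σ' j)`, so
`x_{σ' i, σ' j} ∈ RB c` (`av_rho`). So `e (ρ (pm σ) x) = Φ y = Φ (e y) = e (ρ (pm σ') (e y))`, where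
`e y ∈ S(x)` by `adj_swap`, and it is in `S(e y) ≤ S(x)` by the induction hypothesis.

`span_all`: `g = u * pm σ * u'` (`bruhat_one`), `e (ρ g x) = ρ u (e (ρ (pm σ) (ρ u' x)))`; `u = l * r`,
`u' = l' * r'` (`UT_le_PB`, `PB_mul`), `r'` fixes `x`, `r` fixes the elements of `X`, so the result is in `S(x)`.
-/

namespace Pool.Agent.H.MP_7d3ffc_al.DF

open Matrix Matrix.SpecialLinearGroup Pool.Agent.H.MP_7d3ffc_al Pool.Agent.H.MP_7d3ffc_al.DC Module

variable {n : ℕ} {F : Type*} [Field F] [Finite F] {V : Type*} [AddCommGroup V] [Module ℂ V]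
  [FiniteDimensional ℂ V] {ρ : Representation ℂ (SpecialLinearGroup (Fin n) F) V}
  {lam : UT n F →* ℂˣ} {c : Fin n → ℕ}

omit [Finite F] [FiniteDimensional ℂ V] in
/-- the span of the orbit of `x` under the block diagonal matrices -/
theorem Spn_sub {x z : V} (l : SpecialLinearGroup (Fin n) F) (hl : l ∈ LB c)
    (hz : z ∈ Submodule.span ℂ {y | ∃ l ∈ LB c, y = ρ l x}) :
    ρ l z ∈ Submodule.span ℂ {y | ∃ l ∈ LB c, y = ρ l x} := by
  have h1 : Submodule.span ℂ {y | ∃ l ∈ LB c, y = ρ l x} ≤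
      (Submodule.span ℂ {y | ∃ l ∈ LB c, y = ρ l x}).comap (ρ l) := by
    rw [Submodule.span_le]
    rintro y ⟨k, hk, rfl⟩
    rw [SetLike.mem_coe, Submodule.mem_comap]
    refine Submodule.subset_span ⟨l * k, mul_mem hl hk, ?_⟩
    rw [map_mul, Module.End.mul_apply]
  exact h1 hz

omit [Finite F] [FiniteDimensional ℂ V] in
theorem Spn_le {x z : V} (hz : z ∈ Submodule.span ℂ {y | ∃ l ∈ LB c, y = ρ l x}) :
    Submodule.span ℂ {y | ∃ l ∈ LB c, y = ρ l z} ≤
      Submodule.span ℂ {y | ∃ l ∈ LB c, y = ρ l x} := by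
  rw [Submodule.span_le]
  rintro y ⟨k, hk, rfl⟩
  exact Spn_sub k hk hz

omit [Finite F] [FiniteDimensional ℂ V] in
theorem Spn_fix {x : V} (hx : x ∈ fixSp ρ (RB c)) :
    Submodule.span ℂ {y | ∃ l ∈ LB c, y = ρ l x} ≤ fixSp ρ (RB c) := by
  rw [Submodule.span_le]
  rintro y ⟨k, hk, rfl⟩
  exact PB_fix ρ (LB_le_PB c hk) hx

omit [Finite F] in
theorem Spn_RB_le (c : Fin n → ℕ) (t : ℕ) :
    (RB (cm t c) : Subgroup (SpecialLinearGroup (Fin n) F)) ≤ RB c := by
  intro g hg
  rw [mem_RB] at hg ⊢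
  intro i j
  have hcm : ∀ i, cm t c i = if c i = t + 1 then t else c i := fun i => rfl
  refine ⟨fun h => ?_, fun h => ?_⟩
  · have h1 : cm t c j ≤ cm t c i := by
      rw [hcm, hcm]
      split_ifs <;> omega
    rcases h1.lt_or_eq with h2 | h2
    · exact (hg i j).1 h2
    · rw [(hg i j).2 h2.symm, if_neg]
      rintro rfl
      exact lt_irrefl _ h
  · refine (hg i j).2 ?_
    rw [hcm, hcm, h]

/-- the exchange of the blocks `t` and `t + 1` -/
theorem Spn_s {m : ℕ} (hm : 0 < m) {c : Fin n → ℕ} (hc : ∀ i : Fin n, c i = (i : ℕ) / m) {t : ℕ}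
    (ht : (t + 2) * m ≤ n) : ∃ s : Equiv.Perm (Fin n), (∀ i : Fin n, ((s i : Fin n) : ℕ) =
      if c i = t then (i : ℕ) + m else if c i = t + 1 then (i : ℕ) - m else i) ∧
      (∀ i, c (s i) = if c i = t then t + 1 else if c i = t + 1 then t else c i) ∧
      ∀ i, s (s i) = i := by
  have h1 : ∀ i : Fin n, c i = t → (i : ℕ) + m < n := by
    intro i hi
    rw [hc, Nat.div_eq_iff hm] at hi
    have h2 : (t + 2) * m = t * m + m + m := by ring
    omega
  have h0 : ∀ i : Fin n, c i = t + 1 → m ≤ (i : ℕ) := by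
    intro i hi
    have h2 : 1 ≤ (i : ℕ) / m := by
      rw [← hc, hi]
      omega
    have h3 := (Nat.le_div_iff_mul_le hm).1 h2
    omega
  obtain ⟨f, hf⟩ : ∃ f : Fin n → Fin n, ∀ i : Fin n, ((f i : Fin n) : ℕ) =
      if c i = t then (i : ℕ) + m else if c i = t + 1 then (i : ℕ) - m else i := by
    have h4 : ∀ i : Fin n,
        (if c i = t then (i : ℕ) + m else if c i = t + 1 then (i : ℕ) - m else i) < n := by
      intro i
      split_ifs with h5 h6
      · exact h1 i h5
      · exact lt_of_le_of_lt (Nat.sub_le _ _) i.2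
      · exact i.2
    exact ⟨fun i => ⟨_, h4 i⟩, fun i => rfl⟩
  have hcf : ∀ i, c (f i) = if c i = t then t + 1 else if c i = t + 1 then t else c i := by
    intro i
    rw [hc (f i), hf i]
    split_ifs with h5 h6
    · rw [Nat.add_div_right _ hm, ← hc, h5]
    · have h7 := Nat.add_div_right ((i : ℕ) - m) hm
      rw [Nat.sub_add_cancel (h0 i h6), ← hc, h6] at h7
      omega
    · exact (hc i).symm
  have hff : Function.Involutive f := by
    intro i
    refine Fin.ext ?_
    rw [hf (f i), hcf i, hf i]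
    by_cases h5 : c i = t
    · rw [if_pos h5, if_pos h5, if_neg (by omega), if_pos rfl]
      omega
    · by_cases h6 : c i = t + 1
      · have h7 := h0 i h6
        rw [if_neg h5, if_pos h6, if_neg h5, if_pos h6, if_pos rfl]
        omega
      · rw [if_neg h5, if_neg h6, if_neg h5, if_neg h6, if_neg h5, if_neg h6]
  exact ⟨hff.toPerm f, hf, hcf, hff⟩

/-- a block permutation is trivial on the blocks, or it exchanges the order of two neighbouring blocks -/
theorem Spn_or {m : ℕ} (hm : 0 < m) (hmn : m ∣ n) {c : Fin n → ℕ}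
    (hc : ∀ i : Fin n, c i = (i : ℕ) / m) (σ : Equiv.Perm (Fin n))
    (hσ : ∀ i j, c i = c j → c (σ i) = c (σ j)) : (∀ i, c (σ i) = c i) ∨
      ∃ t, (t + 2) * m ≤ n ∧ ∀ i j, c i = t → c j = t + 1 → c (σ j) < c (σ i) := by
  by_cases h0 : ∃ t, (t + 2) * m ≤ n ∧ ∀ i j, c i = t → c j = t + 1 → c (σ j) < c (σ i)
  · exact Or.inr h0
  refine Or.inl ?_
  have hstep : ∀ i j : Fin n, (j : ℕ) = i + 1 → c (σ i) ≤ c (σ j) := by
    intro i j hij
    by_cases h1 : c i = c j
    · exact (hσ i j h1).le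
    · have h2 : c j = c i + 1 := by
        have h3 : c i ≤ c j := by
          rw [hc, hc, hij]
          exact Nat.div_le_div_right (Nat.le_succ _)
        have h4 : c j ≤ c i + 1 := by
          rw [hc, hc, hij, ← Nat.add_div_right _ hm]
          exact Nat.div_le_div_right (by omega)
        omega
      by_contra h5
      refine h0 ⟨c i, ?_, ?_⟩
      · obtain ⟨r, hr⟩ := hmn
        have h6 : (c i + 1) * m ≤ j := by
          rw [← h2]
          exact (Nat.le_div_iff_mul_le hm).1 (hc j).le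
        have h7 : m * (c i + 1) < m * r := by
          rw [← hr, mul_comm]
          exact lt_of_le_of_lt h6 j.2
        have h8 : c i + 1 < r := lt_of_mul_lt_mul_left h7 (Nat.zero_le m)
        have h9 : (c i + 2) * m ≤ r * m := Nat.mul_le_mul_right m (by omega)
        rw [mul_comm r m, ← hr] at h9
        exact h9
      · intro i' j' hi' hj'
        rw [hσ i' i hi', hσ j' j (hj'.trans h2.symm)]
        omega
  have hmono : ∀ (k : ℕ) (i j : Fin n), (j : ℕ) = i + k → c (σ i) ≤ c (σ j) := by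
    intro k
    induction k with
    | zero =>
      intro i j hij
      have h1 : i = j := Fin.ext (by omega)
      rw [h1]
    | succ k ih =>
      intro i j hij
      have h1 : (i : ℕ) + k < n := by
        have h2 := j.2
        omega
      exact (ih i ⟨i + k, h1⟩ rfl).trans (hstep ⟨i + k, h1⟩ j (by rw [hij]; rfl))
  intro i
  rcases lt_trichotomy (c (σ i)) (c i) with h1 | h1 | h1
  · exfalso
    have h2 : c i * m ≤ i := (Nat.le_div_iff_mul_le hm).1 (hc i).le
    have h3 : (Finset.Iic i).card ≤ (Finset.Iio (⟨c i * m, lt_of_le_of_lt h2 i.2⟩ : Fin n)).card := by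
      refine Finset.card_le_card_of_injOn σ ?_ σ.injective.injOn
      intro j hj
      have hj' : j ≤ i := Finset.mem_Iic.1 (Finset.mem_coe.1 hj)
      have h4 : c (σ j) < c i := by
        refine lt_of_le_of_lt (hmono ((i : ℕ) - j) j i ?_) h1
        have h5 : (j : ℕ) ≤ i := hj'
        omega
      rw [Finset.mem_coe, Finset.mem_Iio, Fin.lt_def]
      rw [hc (σ j)] at h4
      exact (Nat.div_lt_iff_lt_mul hm).1 h4
    rw [Fin.card_Iic, Fin.card_Iio] at h3
    have h6 : (i : ℕ) + 1 ≤ c i * m := h3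
    omega
  · exact h1
  · exfalso
    have h2 : (c i + 1) * m ≤ σ i := (Nat.le_div_iff_mul_le hm).1 (by rw [← hc]; exact h1)
    have h3 : (Finset.Ici i).card ≤
        (Finset.Ici (⟨(c i + 1) * m, lt_of_le_of_lt h2 (σ i).2⟩ : Fin n)).card := by
      refine Finset.card_le_card_of_injOn σ ?_ σ.injective.injOn
      intro j hj
      have hj' : i ≤ j := Finset.mem_Ici.1 (Finset.mem_coe.1 hj)
      have h4 : c i < c (σ j) := by
        refine lt_of_lt_of_le h1 (hmono ((j : ℕ) - i) i j ?_)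
        have h5 : (i : ℕ) ≤ j := hj'
        omega
      rw [Finset.mem_coe, Finset.mem_Ici, Fin.le_def]
      rw [hc (σ j)] at h4
      exact (Nat.le_div_iff_mul_le hm).1 h4
    rw [Fin.card_Ici, Fin.card_Ici] at h3
    have h6 : n - (i : ℕ) ≤ n - (c i + 1) * m := h3
    have h7 : (i : ℕ) < (c i + 1) * m := (Nat.div_lt_iff_lt_mul hm).1 (by rw [← hc]; omega)
    have h8 := (σ i).2
    omega

open Classical in
/-- the number of the pairs in the wrong order -/
noncomputable def Spn_num (c : Fin n → ℕ) (σ : Equiv.Perm (Fin n)) : ℕ :=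
  (Finset.univ.filter fun q : Fin n × Fin n => c q.1 < c q.2 ∧ c (σ q.2) < c (σ q.1)).card

theorem Spn_num_lt {c : Fin n → ℕ} {t : ℕ} (σ s : Equiv.Perm (Fin n))
    (hs : ∀ i, c (s i) = if c i = t then t + 1 else if c i = t + 1 then t else c i)
    (hσ : ∀ i j, c i = t → c j = t + 1 → c (σ j) < c (σ i)) {i0 j0 : Fin n} (hi0 : c i0 = t)
    (hj0 : c j0 = t + 1) : Spn_num c (σ * s) < Spn_num c σ := by
  classical
  unfold Spn_num
  have hinj : Function.Injective (Prod.map s s) := s.injective.prodMap s.injective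
  rw [← Finset.card_image_of_injective _ hinj]
  refine Finset.card_lt_card ((Finset.ssubset_iff_of_subset ?_).2 ⟨(i0, j0), ?_, ?_⟩)
  · intro q hq
    obtain ⟨⟨i, j⟩, hij, rfl⟩ := Finset.mem_image.1 hq
    obtain ⟨h1, h2⟩ := (Finset.mem_filter.1 hij).2
    have h3 : c i < c j := h1
    have h4 : c (σ (s j)) < c (σ (s i)) := h2
    refine Finset.mem_filter.2 ⟨Finset.mem_univ _, ?_, h4⟩
    show c (s i) < c (s j)
    have h5 : ¬ (c i = t ∧ c j = t + 1) := by
      rintro ⟨h6, h7⟩
      have h8 : c (s j) = t := by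
        rw [hs, if_neg (by omega), if_pos h7]
      have h9 : c (s i) = t + 1 := by
        rw [hs, if_pos h6]
      exact lt_asymm h4 (hσ (s j) (s i) h8 h9)
    rw [hs, hs]
    split_ifs <;> omega
  · refine Finset.mem_filter.2 ⟨Finset.mem_univ _, ?_, hσ i0 j0 hi0 hj0⟩
    show c i0 < c j0
    omega
  · intro hq
    obtain ⟨⟨i, j⟩, hij, he⟩ := Finset.mem_image.1 hq
    obtain ⟨h1, h2⟩ := (Finset.mem_filter.1 hij).2
    have h3 : c i < c j := h1
    have h4 : s i = i0 := congrArg Prod.fst he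
    have h5 : s j = j0 := congrArg Prod.snd he
    have h6 := hs i
    have h7 := hs j
    rw [h4, hi0] at h6
    rw [h5, hj0] at h7
    split_ifs at h6 h7 <;> omega

theorem span_perm (h2 : ∀ a : F, a = 0 ∨ a = 1) (hP : IsPure ρ lam c) {m : ℕ} (hm : 0 < m)
    (hmn : m ∣ n) (hc : ∀ i : Fin n, c i = (i : ℕ) / m) (σ : Equiv.Perm (Fin n)) {x : V}
    (hx : x ∈ fixSp ρ (RB c)) : av ρ (RB c) (ρ (pm h2 σ) x) ∈
      Submodule.span ℂ {y | ∃ l ∈ LB c, y = ρ l x} := by
  have key : ∀ (N : ℕ) (σ : Equiv.Perm (Fin n)), Spn_num c σ = N → ∀ x ∈ fixSp ρ (RB c),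
      av ρ (RB c) (ρ (pm h2 σ) x) ∈ Submodule.span ℂ {y | ∃ l ∈ LB c, y = ρ l x} := by
    intro N
    induction N using Nat.strong_induction_on with
    | _ N ih =>
      intro σ hN x hx
      by_cases hbl : ∀ i j, c i = c j → c (σ i) = c (σ j)
      · rcases Spn_or hm hmn hc σ hbl with h1 | ⟨t, ht, h1⟩
        · have h3 : pm h2 σ ∈ LB c := pm_mem_LB h2 σ h1
          rw [av_self ρ (RB c) (PB_fix ρ (LB_le_PB c h3) hx)]
          exact Submodule.subset_span ⟨pm h2 σ, h3, rfl⟩
        · obtain ⟨s, hs, hcs, hss⟩ := Spn_s hm hc ht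
          have h4 : pm h2 s ∈ LB (cm t c) := by
            refine pm_mem_LB h2 s fun i => ?_
            show (if c (s i) = t + 1 then t else c (s i)) = if c i = t + 1 then t else c i
            rw [hcs]
            split_ifs <;> omega
          have hy : ρ (pm h2 s) x ∈ fixSp ρ (RB (cm t c)) :=
            PB_fix ρ (LB_le_PB _ h4) (fixSp_anti ρ (Spn_RB_le c t) hx)
          have h5 : pm h2 σ = pm h2 (σ * s) * pm h2 s := by
            rw [pm_mul]
            congr 1
            refine Equiv.ext fun i => ?_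
            show σ i = σ (s (s i))
            rw [hss]
          have h6 : (av ρ (RB c) ∘ₗ ρ (pm h2 (σ * s))) (av ρ (RB c) (ρ (pm h2 s) x)) =
              (av ρ (RB c) ∘ₗ ρ (pm h2 (σ * s))) (ρ (pm h2 s) x) := by
            refine adj_map h2 hP hy _ ?_
            intro i j h hi hj v
            have h12 : ρ (pm h2 (σ * s)) (ρ (SpecialLinearGroup.transvection h 1) v) =
                ρ (SpecialLinearGroup.transvection ((σ * s).injective.ne h) 1)
                  (ρ (pm h2 (σ * s)) v) := by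
              rw [← Module.End.mul_apply, ← map_mul, pm_tv, map_mul, Module.End.mul_apply]
            rw [LinearMap.comp_apply, LinearMap.comp_apply, h12]
            refine av_rho ρ (RB c) (tv_mem_RB _ 1 ?_) _
            show c (σ (s i)) < c (σ (s j))
            refine h1 (s j) (s i) ?_ ?_
            · rw [hcs, if_neg (by omega), if_pos hj]
            · rw [hcs, if_pos hi]
          have h7 : av ρ (RB c) (ρ (pm h2 σ) x) =
              av ρ (RB c) (ρ (pm h2 (σ * s)) (av ρ (RB c) (ρ (pm h2 s) x))) := by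
            rw [h5, map_mul, Module.End.mul_apply]
            exact h6.symm
          have h8 := adj_swap h2 hP hm hmn hc ht s hs hx
          have hn : t * m < n ∧ (t + 1) * m < n := by
            have h9 : (t + 2) * m = t * m + m + m := by ring
            have h10 : (t + 1) * m = t * m + m := by ring
            omega
          have h11 : Spn_num c (σ * s) < Spn_num c σ := by
            refine Spn_num_lt σ s hcs h1 (i0 := ⟨t * m, hn.1⟩) (j0 := ⟨(t + 1) * m, hn.2⟩) ?_ ?_
            · rw [hc]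
              exact Nat.mul_div_cancel t hm
            · rw [hc]
              exact Nat.mul_div_cancel (t + 1) hm
          rw [h7]
          exact Spn_le h8 (ih _ (hN ▸ h11) (σ * s) rfl _ (av_mem ρ (RB c) _))
      · push Not at hbl
        obtain ⟨i, j, hij, hne⟩ := hbl
        have h3 : av ρ (RB c) (ρ (pm h2 σ) x) = 0 := by
          rcases lt_or_gt_of_ne hne with h | h
          · exact perm_van h2 hP σ hij h hx
          · exact perm_van h2 hP σ hij.symm h hx
        rw [h3]
        exact Submodule.zero_mem _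
  exact key _ σ rfl x hx

theorem span_all (h2 : ∀ a : F, a = 0 ∨ a = 1) (hP : IsPure ρ lam c) {m : ℕ} (hm : 0 < m)
    (hmn : m ∣ n) (hc : ∀ i : Fin n, c i = (i : ℕ) / m) (g : SpecialLinearGroup (Fin n) F)
    {x : V} (hx : x ∈ fixSp ρ (RB c)) : av ρ (RB c) (ρ g x) ∈
      Submodule.span ℂ {y | ∃ l ∈ LB c, y = ρ l x} := by
  obtain ⟨u, hu, u', hu', σ, rfl⟩ := bruhat_one h2 g
  have hup : u ∈ PB c := UT_le_PB hP.mono hu
  have hup' : u' ∈ PB c := UT_le_PB hP.mono hu'
  obtain ⟨l', hl', r', hr', he'⟩ := PB_mul h2 hup'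
  obtain ⟨l, hl, r, hr, he⟩ := PB_mul h2 hup
  have h1 : ρ u' x = ρ l' x := by
    rw [he', map_mul, Module.End.mul_apply, hx r' hr']
  have h3 : ρ l' x ∈ Submodule.span ℂ {y | ∃ l ∈ LB c, y = ρ l x} :=
    Submodule.subset_span ⟨l', hl', rfl⟩
  have h4 : av ρ (RB c) (ρ (pm h2 σ) (ρ l' x)) ∈
      Submodule.span ℂ {y | ∃ l ∈ LB c, y = ρ l x} :=
    Spn_le h3 (span_perm h2 hP hm hmn hc σ (Spn_fix hx h3))
  rw [map_mul, map_mul, Module.End.mul_apply, Module.End.mul_apply,
    av_conj ρ (RB c) (fun r hr => PB_conj hup hr), h1]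
  have h5 : ρ u (av ρ (RB c) (ρ (pm h2 σ) (ρ l' x))) =
      ρ l (av ρ (RB c) (ρ (pm h2 σ) (ρ l' x))) := by
    rw [he, map_mul, Module.End.mul_apply, rho_av ρ (RB c) hr]
  rw [h5]
  exact Spn_sub l hl h4

end Pool.Agent.H.MP_7d3ffc_al.DF
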