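import Pool.Agent.H.MP_7d3ffc_al.DC.Syl
import Pool.Agent.H.MP_7d3ffc_al.DF.Spn
import Pool.Agent.H.MP_7d3ffc_al.DF.Gg

/-!
# Module DF/Fin2: the special linear group over the field with two elements

`E = eigSp ρ U lam`, `H g z = pe ρ U lam (ρ g z)`.

`dim_one`: by `gg_comm` the operators `H g`, `g ∈ LB c`, of `E` commute. Let `E0 ≤ E` be a nonzero subspace of
minimal dimension which is stable under all `H g`, `g ∈ LB c`. Every `H g` has an eigenvalue on `E0`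
(`Module.End.exists_eigenvalue`), and the eigenspace in `E0` is stable under all `H h` (they commute), so
it is `E0`: `H g` is a scalar on `E0`. Let `z ≠ 0` in `E0`. For every `g` in the whole group `H g z ∈ ℂ z`:
`z ∈ fixSp ρ (RB c)` (`eig_le_fix`); `pe (ρ g z) = pe (av ρ (RB c) (ρ g z))` (`pe_av`, `RB_le_UT`, `pure_RB`);
`av ρ (RB c) (ρ g z)` is in the span of the `ρ l z`, `l ∈ LB c` (`span_all`), and
`pe (ρ l z) = H l z ∈ ℂ z`. By `schur_rank_one` (module Core) with a functional `ξ`, `ξ z = 1`, `w = z`: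
for `y ∈ E`, `d y = ∑ ξ(ρ g⁻¹ y) ρ g z` with `d ≠ 0`; apply `pe`: `y ∈ ℂ z`. So `finrank E = 1`. (See
`four_one` in DC/FourB for the same argument.)

`two_main`: suppose `Lin ρ U` has less than 2 elements; it is `{lam}`. `exists_c` gives `c` with
`IsPure ρ lam c`, `blocks_eq` gives `m`, `dim_one` gives `finrank E = 1`, all other eigenspaces are `0`, so by
`cnt` (module DC/Cnt; `UT_pgroup` from DC/Syl, `CharP F 2` from `h2`) the dimension of `V` is odd, a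
contradiction.
-/

namespace Pool.Agent.H.MP_7d3ffc_al.DF

open Matrix Matrix.SpecialLinearGroup Pool.Agent.H.MP_7d3ffc_al Pool.Agent.H.MP_7d3ffc_al.DC Module

variable {n : ℕ} {F : Type*} [Field F] [Finite F] {V : Type*} [AddCommGroup V] [Module ℂ V]
  [FiniteDimensional ℂ V]

/-- a common eigenvector of the operators `H g`, `g ∈ LB c` -/
theorem Fin2_vec (h2 : ∀ a : F, a = 0 ∨ a = 1)
    {ρ : Representation ℂ (SpecialLinearGroup (Fin n) F) V} {lam : UT n F →* ℂˣ}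
    {c : Fin n → ℕ} (hP : IsPure ρ lam c) {m : ℕ} (hm : 0 < m)
    (hmn : m ∣ n) (hc : ∀ i : Fin n, c i = (i : ℕ) / m) :
    ∃ z : V, z ≠ 0 ∧ z ∈ eigSp ρ (UT n F) lam ∧ ∀ g ∈ LB c, ∃ μ : ℂ,
      pe ρ (UT n F) lam (ρ g z) = μ • z := by
  obtain ⟨Q, hQ⟩ : ∃ Q : Set (Submodule ℂ V), Q = {S | S ≤ eigSp ρ (UT n F) lam ∧ S ≠ ⊥ ∧
    ∀ g ∈ LB c, ∀ y ∈ S, pe ρ (UT n F) lam (ρ g y) ∈ S} := ⟨_, rfl⟩
  have hQE : eigSp ρ (UT n F) lam ∈ Q := by
    rw [hQ]
    refine ⟨le_rfl, ?_, fun g _ y _ => pe_mem ρ (UT n F) lam _⟩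
    obtain ⟨z0, hz0, hz0'⟩ := (mem_Lin_iff ρ (UT n F) lam).1 hP.mem
    exact (Submodule.ne_bot_iff _).2 ⟨z0, hz0', hz0⟩
  obtain ⟨S, hS, hmin⟩ := (wellFounded_lt : WellFounded
    (· < · : Submodule ℂ V → Submodule ℂ V → Prop)).has_min Q ⟨_, hQE⟩
  have hS' := hS
  rw [hQ] at hS'
  obtain ⟨hSE, hS0, hSs⟩ := hS'
  have key : ∀ g ∈ LB c, ∃ μ : ℂ, ∀ y ∈ S, pe ρ (UT n F) lam (ρ g y) = μ • y := by
    intro g hg
    obtain ⟨φ, hφ⟩ : ∃ φ : Module.End ℂ S, ∀ y : S, (φ y : V) = pe ρ (UT n F) lam (ρ g y) :=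
      ⟨LinearMap.restrict (pe ρ (UT n F) lam ∘ₗ ρ g) (p := S) (q := S) (fun y hy => hSs g hg y hy),
        fun y => rfl⟩
    have hnt : Nontrivial S := Submodule.nontrivial_iff_ne_bot.2 hS0
    obtain ⟨μ, hμ⟩ := Module.End.exists_eigenvalue φ
    obtain ⟨y0, hy0⟩ := hμ.exists_hasEigenvector
    obtain ⟨T, hT⟩ : ∃ T : Submodule ℂ V, T = S ⊓ LinearMap.ker
      (pe ρ (UT n F) lam ∘ₗ ρ g - μ • LinearMap.id) := ⟨_, rfl⟩
    have hTm : ∀ y, y ∈ T ↔ y ∈ S ∧ pe ρ (UT n F) lam (ρ g y) = μ • y := by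
      intro y
      rw [hT, Submodule.mem_inf, LinearMap.mem_ker, LinearMap.sub_apply, sub_eq_zero]
      rfl
    have hTQ : T ∈ Q := by
      rw [hQ]
      refine ⟨fun y hy => hSE ((hTm y).1 hy).1, ?_, fun h hh y hy => ?_⟩
      · refine (Submodule.ne_bot_iff _).2 ⟨y0, ?_, fun h => hy0.2 (Subtype.ext h)⟩
        rw [hTm]
        refine ⟨y0.2, ?_⟩
        rw [← hφ y0, hy0.apply_eq_smul]
        rfl
      · obtain ⟨h3, h4⟩ := (hTm y).1 hy
        rw [hTm]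
        refine ⟨hSs h hh y h3, ?_⟩
        rw [gg_comm h2 hP hm hmn hc hg hh (hSE h3), h4, map_smul, map_smul]
    have hTS : T = S := by
      have h5 : T ≤ S := fun y hy => ((hTm y).1 hy).1
      by_contra h6
      exact hmin T hTQ (lt_of_le_of_ne h5 h6)
    refine ⟨μ, fun y hy => ?_⟩
    rw [← hTS] at hy
    exact ((hTm y).1 hy).2
  obtain ⟨z, hz, hz0⟩ := (Submodule.ne_bot_iff _).1 hS0
  refine ⟨z, hz0, hSE hz, fun g hg => ?_⟩
  obtain ⟨μ, hμ⟩ := key g hg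
  exact ⟨μ, hμ z hz⟩

theorem dim_one (h2 : ∀ a : F, a = 0 ∨ a = 1)
    {ρ : Representation ℂ (SpecialLinearGroup (Fin n) F) V} {lam : UT n F →* ℂˣ}
    {c : Fin n → ℕ} (hρ : ρ.IsIrreducible) (hP : IsPure ρ lam c) {m : ℕ} (hm : 0 < m)
    (hmn : m ∣ n) (hc : ∀ i : Fin n, c i = (i : ℕ) / m) :
    finrank ℂ (eigSp ρ (UT n F) lam) = 1 := by
  have hfG : Finite (SpecialLinearGroup (Fin n) F) := inferInstance
  have hGt : Fintype (SpecialLinearGroup (Fin n) F) := Fintype.ofFinite _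
  obtain ⟨z, hz0, hzE, hzH⟩ := Fin2_vec h2 hP hm hmn hc
  have hall : ∀ g : SpecialLinearGroup (Fin n) F, ∃ d : ℂ,
      pe ρ (UT n F) lam (ρ g z) = d • z := by
    intro g
    have h1 := span_all h2 hP hm hmn hc g (eig_le_fix h2 hP hzE)
    have h3 : Submodule.span ℂ {y | ∃ l ∈ LB c, y = ρ l z} ≤
        (Submodule.span ℂ {z}).comap (pe ρ (UT n F) lam) := by
      rw [Submodule.span_le]
      rintro y ⟨l, hl, rfl⟩
      obtain ⟨μ, hμ⟩ := hzH l hl
      rw [SetLike.mem_coe, Submodule.mem_comap, hμ]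
      exact Submodule.smul_mem _ _ (Submodule.mem_span_singleton_self z)
    have h4 := h3 h1
    rw [Submodule.mem_comap, pe_av ρ (UT n F) lam (RB_le_UT hP.mono) (pure_RB h2 hP),
      Submodule.mem_span_singleton] at h4
    obtain ⟨d, hd⟩ := h4
    exact ⟨d, hd.symm⟩
  obtain ⟨ξ, hξ⟩ : ∃ ξ : V →ₗ[ℂ] ℂ, ξ z = 1 := by
    obtain ⟨η, hη⟩ : ∃ η : Module.Dual ℂ V, η z ≠ 0 := by
      by_contra h
      push Not at h
      exact hz0 ((Module.forall_dual_apply_eq_zero_iff ℂ z).mp h)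
    exact ⟨(η z)⁻¹ • η, by rw [LinearMap.smul_apply, smul_eq_mul, inv_mul_cancel₀ hη]⟩
  obtain ⟨d, hd, hd2⟩ := schur_rank_one ρ hρ ξ z
  have hd0 : d ≠ 0 := by
    rintro rfl
    rw [zero_mul, hξ, mul_one] at hd2
    exact Nat.cast_ne_zero.2 (Nat.card_pos (α := SpecialLinearGroup (Fin n) F)).ne' hd2.symm
  choose f hf using hall
  apply finrank_eq_one (⟨z, hzE⟩ : eigSp ρ (UT n F) lam) (fun h => hz0 (congrArg Subtype.val h))
  intro y
  have h1 := congrArg (pe ρ (UT n F) lam) (hd y)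
  rw [map_sum, map_smul, pe_self ρ (UT n F) lam y.2] at h1
  refine ⟨d⁻¹ * ∑ g : SpecialLinearGroup (Fin n) F, ξ (ρ g⁻¹ y) * f g, Subtype.ext ?_⟩
  change (d⁻¹ * ∑ g : SpecialLinearGroup (Fin n) F, ξ (ρ g⁻¹ y) * f g) • z = y
  rw [mul_smul, Finset.sum_smul, inv_smul_eq_iff₀ hd0, ← h1]
  refine Finset.sum_congr rfl fun g _ => ?_
  rw [map_smul, hf g, smul_smul]

theorem two_main (hF : Nat.card F = 2) (hn : 0 < n)
    (ρ : Representation ℂ (SpecialLinearGroup (Fin n) F) V) (hρ : ρ.IsIrreducible)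
    (hd : 2 ∣ finrank ℂ V) (hne : (Lin ρ (UT n F)).Nonempty) :
    2 ≤ (Lin ρ (UT n F)).ncard := by
  classical
  have hfG : Finite (SpecialLinearGroup (Fin n) F) := inferInstance
  have hFt : Fintype F := Fintype.ofFinite F
  have hcard : Fintype.card F = 2 := by rw [← Nat.card_eq_fintype_card, hF]
  have hp : Fact (Nat.Prime 2) := ⟨Nat.prime_two⟩
  have hch : CharP F 2 := charP_of_card_eq_prime hcard
  have hft : Fintype (UT n F →* ℂˣ) := Fintype.ofFinite _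
  have h2 : ∀ a : F, a = 0 ∨ a = 1 := by
    intro a
    have h3 : a ^ 2 = a := by
      have := FiniteField.pow_card a
      rwa [hcard] at this
    have h4 : a * (a - 1) = 0 := by linear_combination h3
    rcases mul_eq_zero.1 h4 with h5 | h5
    · exact Or.inl h5
    · exact Or.inr (sub_eq_zero.1 h5)
  by_contra hlt
  have h1 : (Lin ρ (UT n F)).ncard = 1 := by
    have h3 := (Set.ncard_pos (Set.toFinite _)).2 hne
    omega
  obtain ⟨lam, hlam⟩ := Set.ncard_eq_one.1 h1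
  obtain ⟨c, hc1, hc2, hc3, hc4⟩ := exists_c lam
  have hP : IsPure ρ lam c := by
    refine ⟨?_, ?_, hc1, hc2, hc3, hc4⟩
    · rw [hlam]
      exact Set.mem_singleton _
    · intro mu hmu
      rw [hlam] at hmu
      exact hmu
  obtain ⟨m, hm, hmn, hc⟩ := blocks_eq h2 hn hP
  have h3 := dim_one h2 hρ hP hm hmn hc
  have h4 := cnt (p := 2) ρ (UT n F) UT_pgroup
  have h5 : ∑ μ : UT n F →* ℂˣ, finrank ℂ (eigSp ρ (UT n F) μ) = 1 := by
    rw [Finset.sum_eq_single lam, h3]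
    · intro mu _ hmu
      by_contra h6
      obtain ⟨y, hy⟩ := Module.finrank_pos_iff_exists_ne_zero.mp (Nat.pos_of_ne_zero h6)
      apply hmu
      exact hP.only mu ((mem_Lin_iff ρ (UT n F) mu).2 ⟨y, fun h => hy (Subtype.ext h), y.2⟩)
    · intro h6
      exact absurd (Finset.mem_univ _) h6
  rw [h5] at h4
  have h6 : finrank ℂ V ≡ 0 [MOD 2] := (Nat.modEq_zero_iff_dvd).2 hd
  have h7 := h6.symm.trans h4
  exact absurd h7 (by decide)

end Pool.Agent.H.MP_7d3ffc_al.DF
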