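import Pool.Agent.H.MP_7d3ffc_al.DF.Cus
import Pool.Agent.H.MP_7d3ffc_al.DF.Bru

/-!
# Module DF/TwoE: two blocks have the same size

`c2 a` is the block function of two blocks, the first one is `{i | i < a}`.

`van_perm`: let `x ∈ X = fixSp ρ (RB (c2 a))`, and `σ` a permutation with `a ≤ σ i` for some `i < a`. If
`av ρ (RB (c2 a)) (ρ (pm σ) x) ≠ 0`, then `σ` exchanges the two sets `{i < a}` and `{i ≥ a}`: by
`perm_van` the `σ i`, `i < a`, are all in the same block (if `c2 (σ i) ≠ c2 (σ j)` then one of the two is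
smaller), so all are `≥ a`. Then some `i' ≥ a` has `σ i' < a` (the restriction of `σ` to
`{i ≥ a}` is not onto `{i ≥ a}`; count, or: `σ⁻¹` of an element `< a`, here `0 < a`), and by `perm_van` for the
second block all `i' ≥ a` have `σ i' < a`. So `a = n - a`.

`two_eq`: suppose `n ≠ 2 * a`. Let `g ∉ PB (c2 a)`, `x ∈ X`. Then `av (ρ g x) = 0`: `g = u * pm σ * u'`
(`bruhat_one`), `av (ρ g x) = ρ u (av (ρ (pm σ) (ρ u' x)))` (`av_conj`, `PB_conj`, `UT_le_PB`), `ρ u' x ∈ X`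
(`PB_fix`), and `σ` has an `i < a` with `a ≤ σ i`, because otherwise `pm σ` and `g` are in
`PB (c2 a)` (`σ` maps `{i < a}` to itself, hence also `{i ≥ a}`). Now let `x ≠ 0` in `X` (an eigenvector for
`lam`, `mem_Lin_iff`, `eig_le_fix`), `z` the first index, `w` the transposition of `z` and the index
`a`. For every `q` whose column `z` is the unit vector, `q * pm w` is not in `PB (c2 a)`: otherwise its
inverse is; but `(q * pm w)⁻¹` maps the unit vector `e_z` to `pm w⁻¹ e_z = e_a` (`q⁻¹ e_z = e_z`), so its entry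
`(a, z)` is `1`. So `av (ρ q (ρ (pm w) x)) = 0` for all these `q`, and `ρ (pm w) x = 0` by `fixD`,
`x = 0`, a contradiction.
-/

namespace Pool.Agent.H.MP_7d3ffc_al.DF

open Matrix Matrix.SpecialLinearGroup Pool.Agent.H.MP_7d3ffc_al Pool.Agent.H.MP_7d3ffc_al.DC Module

variable {n : ℕ} {F : Type*} [Field F] [Finite F] {V : Type*} [AddCommGroup V] [Module ℂ V]
  [FiniteDimensional ℂ V] {ρ : Representation ℂ (SpecialLinearGroup (Fin n) F) V}
  {lam : UT n F →* ℂˣ}

/-- the block function with two blocks -/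
def c2 (n a : ℕ) : Fin n → ℕ := fun i => if (i : ℕ) < a then 0 else 1

theorem c2_mono (n a : ℕ) : Monotone (c2 n a) := by
  intro i j hij
  have h : (i : ℕ) ≤ j := hij
  simp only [c2]
  split_ifs <;> omega

theorem TwoE_lt {a : ℕ} {i : Fin n} : c2 n a i = 0 ↔ (i : ℕ) < a := by
  simp only [c2]
  split_ifs with h <;> simp [h]

theorem TwoE_ge {a : ℕ} {i : Fin n} : c2 n a i = 1 ↔ a ≤ (i : ℕ) := by
  simp only [c2]
  split_ifs with h
  · simp only [zero_ne_one, false_iff, not_le]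
    exact h
  · simp only [true_iff]
    omega

theorem van_perm (h2 : ∀ a : F, a = 0 ∨ a = 1) {a : ℕ} (ha : 0 < a)
    (hP : IsPure ρ lam (c2 n a)) (σ : Equiv.Perm (Fin n)) {x : V}
    (hx : x ∈ fixSp ρ (RB (c2 n a))) (h1 : ∃ i : Fin n, (i : ℕ) < a ∧ a ≤ (σ i : ℕ))
    (h0 : av ρ (RB (c2 n a)) (ρ (pm h2 σ) x) ≠ 0) :
    (∀ i : Fin n, (i : ℕ) < a → a ≤ (σ i : ℕ)) ∧ ∀ i : Fin n, a ≤ (i : ℕ) → (σ i : ℕ) < a := by
  have hs : ∀ i j : Fin n, c2 n a i = c2 n a j → c2 n a (σ i) = c2 n a (σ j) := by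
    intro i j hij
    rcases lt_trichotomy (c2 n a (σ i)) (c2 n a (σ j)) with h | h | h
    · exact absurd (perm_van h2 hP σ hij h hx) h0
    · exact h
    · exact absurd (perm_van h2 hP σ hij.symm h hx) h0
  obtain ⟨i0, hi0, hi1⟩ := h1
  have hA : ∀ i : Fin n, (i : ℕ) < a → a ≤ (σ i : ℕ) := by
    intro i hi
    rw [← TwoE_ge, hs i i0 (by rw [TwoE_lt.2 hi, TwoE_lt.2 hi0])]
    exact TwoE_ge.2 hi1
  refine ⟨hA, fun i hi => ?_⟩
  have hn : 0 < n := lt_of_le_of_lt (Nat.zero_le _) i0.isLt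
  have hz : σ (σ⁻¹ ⟨0, hn⟩) = ⟨0, hn⟩ := σ.apply_symm_apply _
  have hj : a ≤ ((σ⁻¹ ⟨0, hn⟩ : Fin n) : ℕ) := by
    by_contra hlt
    have h3 := hA _ (not_le.1 hlt)
    rw [hz] at h3
    simp only [nonpos_iff_eq_zero] at h3
    omega
  rw [← TwoE_lt, hs i (σ⁻¹ ⟨0, hn⟩) (by rw [TwoE_ge.2 hi, TwoE_ge.2 hj]), hz]
  exact TwoE_lt.2 ha

theorem TwoE_card {a : ℕ} (han : a < n) (σ : Equiv.Perm (Fin n))
    (hA : ∀ i : Fin n, (i : ℕ) < a → a ≤ (σ i : ℕ)) (hB : ∀ i : Fin n, a ≤ (i : ℕ) → (σ i : ℕ) < a) :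
    n = 2 * a := by
  have h1 : a ≤ n - a := by
    have := Fintype.card_le_of_injective (fun i : Fin a => (⟨(σ ⟨i, i.2.trans han⟩ : ℕ) - a, by
      have := (σ ⟨i, i.2.trans han⟩).2
      have := hA ⟨i, i.2.trans han⟩ i.2
      omega⟩ : Fin (n - a))) (by
      intro i j hij
      have h3 := hA ⟨i, i.2.trans han⟩ i.2
      have h4 := hA ⟨j, j.2.trans han⟩ j.2
      have h5 := Fin.mk.inj hij
      have h6 : σ ⟨i, i.2.trans han⟩ = σ ⟨j, j.2.trans han⟩ := Fin.ext (by omega)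
      have h7 := Fin.mk.inj (σ.injective h6)
      exact Fin.ext h7)
    simpa using this
  have h2 : n - a ≤ a := by
    have := Fintype.card_le_of_injective (fun i : Fin (n - a) =>
      (⟨(σ ⟨i + a, by omega⟩ : ℕ), hB ⟨i + a, by omega⟩ (Nat.le_add_left _ _)⟩ : Fin a)) (by
      intro i j hij
      have h5 := Fin.mk.inj hij
      have h7 := Fin.mk.inj (σ.injective (Fin.ext h5))
      exact Fin.ext (by omega))
    simpa using this
  omega

theorem TwoE_van (h2 : ∀ a : F, a = 0 ∨ a = 1) {a : ℕ} (ha : 0 < a) (han : a < n)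
    (hP : IsPure ρ lam (c2 n a)) (hne : n ≠ 2 * a) {g : SpecialLinearGroup (Fin n) F}
    (hg : g ∉ (PB (c2 n a) : Subgroup (SpecialLinearGroup (Fin n) F))) {x : V}
    (hx : x ∈ fixSp ρ (RB (c2 n a))) : av ρ (RB (c2 n a)) (ρ g x) = 0 := by
  obtain ⟨u, hu, u', hu', σ, rfl⟩ := bruhat_one h2 g
  have huP := UT_le_PB (c2_mono n a) hu
  have huP' := UT_le_PB (c2_mono n a) hu'
  have hx' : ρ u' x ∈ fixSp ρ (RB (c2 n a)) := PB_fix ρ huP' hx
  rw [map_mul, map_mul, Module.End.mul_apply, Module.End.mul_apply,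
    av_conj ρ _ (fun m hm => PB_conj huP hm)]
  by_contra hne0
  have h0 : av ρ (RB (c2 n a)) (ρ (pm h2 σ) (ρ u' x)) ≠ 0 := by
    intro h
    rw [h, map_zero] at hne0
    exact hne0 rfl
  by_cases hex : ∃ i : Fin n, (i : ℕ) < a ∧ a ≤ (σ i : ℕ)
  · obtain ⟨hA, hB⟩ := van_perm h2 ha hP σ hx' hex h0
    exact hne (TwoE_card han σ hA hB)
  · refine hg (mul_mem (mul_mem huP ?_) huP')
    rw [mem_PB]
    intro i j hij
    rw [pm_apply, if_neg]
    rintro rfl
    have h3 : (j : ℕ) < a := by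
      by_contra h
      rw [TwoE_ge.2 (not_lt.1 h)] at hij
      have : c2 n a (σ j) ≤ 1 := by
        simp only [c2]
        split_ifs <;> omega
      omega
    have h4 : a ≤ (σ j : ℕ) := by
      by_contra h
      rw [TwoE_lt.2 (not_le.1 h)] at hij
      omega
    exact hex ⟨j, h3, h4⟩

theorem two_eq (h2 : ∀ a : F, a = 0 ∨ a = 1) {a : ℕ} (ha : 0 < a) (han : a < n)
    (hP : IsPure ρ lam (c2 n a)) : n = 2 * a := by
  by_contra hne
  obtain ⟨x, hx0, hx⟩ := (mem_Lin_iff ρ (UT n F) lam).1 hP.mem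
  have hxX : x ∈ fixSp ρ (RB (c2 n a)) := eig_le_fix h2 hP (mem_eigSp.2 hx)
  have hn : 0 < n := lt_of_le_of_lt (Nat.zero_le _) han
  let z : Fin n := ⟨0, hn⟩
  let ia : Fin n := ⟨a, han⟩
  let w : Equiv.Perm (Fin n) := Equiv.swap z ia
  have hv : ρ (pm h2 w) x = 0 := by
    refine fixD h2 hP z rfl (fun q hq => ?_)
    have hqx : ρ q (ρ (pm h2 w) x) = ρ (q * pm h2 w) x := by
      rw [map_mul, Module.End.mul_apply]
    rw [hqx]
    refine TwoE_van h2 ha han hP hne (fun hm => ?_) hxX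
    have hm' := (PB (c2 n a)).inv_mem hm
    have h3 : ((q * pm h2 w)⁻¹).1 ia z = 0 := by
      refine mem_PB.1 hm' ia z ?_
      rw [TwoE_lt.2 ha, TwoE_ge.2 (le_refl a)]
      exact zero_lt_one
    have h4 : ((q * pm h2 w)⁻¹ * (q * pm h2 w)).1 ia ia = 1 := by
      rw [inv_mul_cancel]
      exact Matrix.one_apply_eq ia
    have h5 : ∀ k, (q * pm h2 w).1 k ia = if k = z then 1 else 0 := by
      intro k
      change (q.1 * (pm h2 w).1) k ia = _
      rw [Matrix.mul_apply, Finset.sum_eq_single z]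
      · rw [pm_apply, if_pos (Equiv.swap_apply_right z ia).symm, mul_one]
        exact hq k
      · intro l _ hl
        rw [pm_apply, if_neg, mul_zero]
        rw [show w ia = z from Equiv.swap_apply_right z ia]
        exact hl
      · intro h
        exact absurd (Finset.mem_univ _) h
    change (((q * pm h2 w)⁻¹).1 * (q * pm h2 w).1) ia ia = 1 at h4
    rw [Matrix.mul_apply, Finset.sum_eq_single z] at h4
    · rw [h5, if_pos rfl, mul_one, h3] at h4
      exact zero_ne_one h4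
    · intro l _ hl
      rw [h5, if_neg hl, mul_zero]
    · intro h
      exact absurd (Finset.mem_univ _) h
  apply hx0
  have h6 : ρ ((pm h2 w)⁻¹) (ρ (pm h2 w) x) = x := by
    rw [← Module.End.mul_apply, ← map_mul, inv_mul_cancel, map_one, Module.End.one_apply]
  rw [← h6, hv, map_zero]

end Pool.Agent.H.MP_7d3ffc_al.DF
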