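import Pool.Agent.H.MP_7d3ffc_al.DF.Emb
import Pool.Agent.H.MP_7d3ffc_al.DF.Eig
import Pool.Agent.H.MP_7d3ffc_al.DF.TwoE

/-!
# Module DF/Tra: two neighbouring blocks of a pure representation

`ρ` is pure with block function `c`; the blocks `t` and `t + 1` are `{i | o ≤ i < o + a}` and
`{i | o + a ≤ i < o + a + b}`. Let `k = a + b`, `cm t c` the block function with these two blocks merged,
`Y = fixSp ρ (RB (cm t c))`. `io h g ∈ LB (cm t c) ≤ PB (cm t c)` (`io_const`), so `Y` is stable under
the `ρ (io h g)` (`PB_fix`), and `σ g = (ρ (io h g)).restrict _` is a representation of `SL_k` on `Y`.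
`lam'` is `lam` composed with the homomorphism `UT k F →* UT n F` induced by `io h` (`io_UT`).

* `fixSp ρ (RB c) ≤ Y` because `RB (cm t c) ≤ RB c` (`RB (cm t c)` has unit blocks for the merged block).
* For `y ∈ Y`: `y ∈ fixSp σ (RB (c2 k a))` iff `y ∈ fixSp ρ (RB c)`: by `fix_RB_iff` for both: for `i < j`,
  `c i ≠ c j`, either `cm t c i ≠ cm t c j` and `x_ij` fixes `y` anyway, or `i` is in the block `t`, `j`
  in the block `t + 1`, `i = em h i'`, `j = em h j'` and `x_ij = io h x_i'j'` (`io_tv`).
* Averages: let `y ∈ Y`, `y' = av σ (RB c2) y`; it is in `fixSp ρ (RB c)`. By `av_map` for `σ` and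
  `Φ = av ρ (RB c) ∘ Y.subtype` (`io h r ∈ RB c` for `r ∈ RB c2` by `io_RB`, `av_rho`)
  `av ρ (RB c) y' = av ρ (RB c) y`, and `av ρ (RB c) y' = y'` by `av_self`.
* Purity: `lam'` is in `Lin σ`: an eigenvector `v ≠ 0` of `UT` for `lam` (`mem_Lin_iff`) is in
  `fixSp ρ (RB c) ≤ Y` (`eig_le_fix`). Let `mu ∈ Lin σ (UT k F)`, `y ≠ 0` in `Y` with
  `ρ (io h u) y = mu u y`. Let `W` be the space of all these `y` in `Y`, and `c3 i = c i` for `i < o`,
  `c3 i = t + (i - o)` for `o ≤ i < o + k`, `c3 i = c i + k` for `i ≥ o + k` (monotone). Apply `eig` to `W`, `c3`: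
  (1) `i ≠ j` with `c3 i = c3 j` are both outside of the merged block, in the same block of `c`; `x_ij`
  maps `Y` to `Y` (`PB_fix`, `tv_mem_PB`) and commutes with `io h u` (`u` arbitrary: `io h u` is the unit matrix
  in the rows and columns `i`, `j`: compare entries, or use `io_tv`, `tv_comm` and `UT_ind` for
  `u ∈ UT k F`). (2) `i < j`, `c3 i ≠ c3 j`: if both are in the merged block, `x_ij = io h x_i'j'` acts as
  the scalar `mu (el ..)`; otherwise `cm t c i ≠ cm t c j` and `x_ij` is in `RB (cm t c)`, it acts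
  trivially on `Y`. So there is a nonzero `w ∈ W` in the eigenspace of some element of `Lin ρ`, which is
  `lam`: `mu u = lam (io h u)`, `mu = lam'`.
* `blk` for `c2 k a` and `lam'`: from `blk` for `c`: for `i', j' = i' + 1` in `Fin k`,
  `c (em h i') = c (em h j')` iff `c2 k a i' = c2 k a j'`. `zero`, `step`: clear.
-/

namespace Pool.Agent.H.MP_7d3ffc_al.DF

open Matrix Matrix.SpecialLinearGroup Pool.Agent.H.MP_7d3ffc_al Pool.Agent.H.MP_7d3ffc_al.DC Module

variable {n : ℕ} {F : Type*} [Field F] [Finite F] {V : Type*} [AddCommGroup V] [Module ℂ V]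
  [FiniteDimensional ℂ V] {ρ : Representation ℂ (SpecialLinearGroup (Fin n) F) V}
  {lam : UT n F →* ℂˣ} {c : Fin n → ℕ}

/-- the block function with the blocks `t` and `t + 1` merged -/
def cm (t : ℕ) (c : Fin n → ℕ) : Fin n → ℕ := fun i => if c i = t + 1 then t else c i

theorem cm_mono {t : ℕ} (hc : Monotone c) : Monotone (cm t c) := by
  intro i j hij
  have h := hc hij
  simp only [cm]
  split_ifs <;> omega

private theorem Tra_RB_le (t : ℕ) (c : Fin n → ℕ) :
    (RB (cm t c) : Subgroup (SpecialLinearGroup (Fin n) F)) ≤ RB c := by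
  intro g hg i j
  have h1 := mem_RB.1 hg i j
  constructor
  · intro hij
    by_cases h2 : cm t c j < cm t c i
    · exact h1.1 h2
    · have h3 : cm t c i = cm t c j := by
        simp only [cm] at h2 ⊢
        split_ifs at h2 ⊢ <;> omega
      rw [h1.2 h3, if_neg]
      rintro rfl
      exact lt_irrefl _ hij
  · intro hij
    refine h1.2 ?_
    simp only [cm]
    rw [hij]

private theorem Tra_fix_le (ρ : Representation ℂ (SpecialLinearGroup (Fin n) F) V)
    {M N : Subgroup (SpecialLinearGroup (Fin n) F)} (h : M ≤ N) : fixSp ρ N ≤ fixSp ρ M := by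
  intro v hv
  rw [mem_fixSp] at hv ⊢
  exact fun m hm => hv m (h hm)

private theorem Tra_mul (ρ : Representation ℂ (SpecialLinearGroup (Fin n) F) V)
    (g g' : SpecialLinearGroup (Fin n) F) (v : V) : ρ g (ρ g' v) = ρ (g * g') v := by
  rw [map_mul]
  rfl

private theorem Tra_comm {k o : ℕ} (h : o + k ≤ n) (g : SpecialLinearGroup (Fin k) F)
    {i j : Fin n} (hij : i ≠ j) (hi : ¬ (o ≤ (i : ℕ) ∧ (i : ℕ) < o + k))
    (hj : ¬ (o ≤ (j : ℕ) ∧ (j : ℕ) < o + k)) :
    io h g * SpecialLinearGroup.transvection hij 1 =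
      SpecialLinearGroup.transvection hij 1 * io h g := by
  refine Subtype.ext ?_
  ext r s
  show ((io h g).1 * Matrix.transvection i j (1 : F)) r s =
    (Matrix.transvection i j (1 : F) * (io h g).1) r s
  by_cases hs : s = j
  · subst hs
    rw [Matrix.mul_transvection_apply_same]
    by_cases hr : r = i
    · subst hr
      rw [Matrix.transvection_mul_apply_same, io_col h g r r hi, io_row h g s s hj, if_pos rfl,
        if_pos rfl]
    · rw [Matrix.transvection_mul_apply_of_ne _ _ _ _ hr, io_col h g r i hi, if_neg hr, mul_zero,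
        add_zero]
  · rw [Matrix.mul_transvection_apply_of_ne _ _ _ _ hs]
    by_cases hr : r = i
    · subst hr
      rw [Matrix.transvection_mul_apply_same, io_row h g j s hj, if_neg (Ne.symm hs), mul_zero,
        add_zero]
    · rw [Matrix.transvection_mul_apply_of_ne _ _ _ _ hr]

theorem tra (h2 : ∀ a : F, a = 0 ∨ a = 1) (hP : IsPure ρ lam c) {o a b t : ℕ}
    (h : o + (a + b) ≤ n) (ha : 0 < a) (hb : 0 < b)
    (hb0 : ∀ i : Fin n, c i = t ↔ o ≤ (i : ℕ) ∧ (i : ℕ) < o + a)
    (hb1 : ∀ i : Fin n, c i = t + 1 ↔ o + a ≤ (i : ℕ) ∧ (i : ℕ) < o + a + b) :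
    ∃ (Y : Submodule ℂ V) (σ : Representation ℂ (SpecialLinearGroup (Fin (a + b)) F) Y)
      (lam' : UT (a + b) F →* ℂˣ), IsPure σ lam' (c2 (a + b) a) ∧ fixSp ρ (RB c) ≤ Y ∧
      (∀ (g : SpecialLinearGroup (Fin (a + b)) F) (y : Y),
        ((σ g y : Y) : V) = ρ (io h g) y) ∧
      (∀ y : Y, y ∈ fixSp σ (RB (c2 (a + b) a)) ↔ (y : V) ∈ fixSp ρ (RB c)) ∧
      ∀ y : Y, ((av σ (RB (c2 (a + b) a)) y : Y) : V) = av ρ (RB c) y := by
  classical
  -- the block function
  have hcem : ∀ i : Fin (a + b), c (em h i) = t + c2 (a + b) a i := by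
    intro i
    have hv := em_val h i
    have hi := i.2
    by_cases hia : (i : ℕ) < a
    · rw [TwoE_lt.2 hia, (hb0 (em h i)).2 (by omega), add_zero]
    · rw [TwoE_ge.2 (not_lt.1 hia), (hb1 (em h i)).2 (by omega)]
  have hcmem : ∀ i : Fin (a + b), cm t c (em h i) = t := by
    intro i
    have h1 : c2 (a + b) a i ≤ 1 := by
      simp only [c2]
      split_ifs <;> omega
    have h3 := hcem i
    simp only [cm]
    split_ifs <;> omega
  have hin : ∀ i : Fin n, o ≤ (i : ℕ) ∧ (i : ℕ) < o + (a + b) → ∃ i' : Fin (a + b), em h i' = i :=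
    fun i hi => ⟨⟨(i : ℕ) - o, by omega⟩, Fin.ext (by rw [em_val]; simp only []; omega)⟩
  have hk0 : 0 < a + b := by omega
  have hcm := cm_mono (t := t) hP.mono
  have hlow : ∀ i : Fin n, (i : ℕ) < o → c i < t := by
    intro i hi
    have h1 : c i ≤ c (em h ⟨0, hk0⟩) := hP.mono (Fin.le_def.2 (by rw [em_val]; omega))
    have h3 : c (em h ⟨0, hk0⟩) = t := (hb0 _).2 (by rw [em_val]; simp only []; omega)
    have h4 : c i ≠ t := fun h5 => by
      have := (hb0 i).1 h5
      omega
    omega
  have hhigh : ∀ i : Fin n, o + (a + b) ≤ (i : ℕ) → t + 1 < c i := by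
    intro i hi
    have h1 : c (em h ⟨a, by omega⟩) ≤ c i := hP.mono (Fin.le_def.2 (by
      rw [em_val]
      simp only []
      omega))
    have h3 : c (em h ⟨a, by omega⟩) = t + 1 := (hb1 _).2 (by rw [em_val]; simp only []; omega)
    have h4 : c i ≠ t + 1 := fun h5 => by
      have := (hb1 i).1 h5
      omega
    omega
  -- the space
  obtain ⟨Y, hY⟩ : ∃ Y : Submodule ℂ V, Y = fixSp ρ (RB (cm t c)) := ⟨_, rfl⟩
  have hYle : fixSp ρ (RB c) ≤ Y := by
    rw [hY]
    exact Tra_fix_le ρ (Tra_RB_le t c)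
  have hYio : ∀ (g : SpecialLinearGroup (Fin (a + b)) F), ∀ y ∈ Y, ρ (io h g) y ∈ Y := by
    intro g y hy
    rw [hY] at hy ⊢
    exact PB_fix ρ (LB_le_PB _ (io_const h (fun i j => by rw [hcmem i, hcmem j]) g)) hy
  obtain ⟨σ, hσ⟩ : ∃ σ : Representation ℂ (SpecialLinearGroup (Fin (a + b)) F) Y,
      ∀ (g : SpecialLinearGroup (Fin (a + b)) F) (y : Y), ((σ g y : Y) : V) = ρ (io h g) y :=
    ⟨{ toFun := fun g => (ρ (io h g)).restrict (hYio g)
       map_one' := by
         ext y
         rw [LinearMap.coe_restrict_apply, map_one, map_one]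
         rfl
       map_mul' := fun g g' => by
         ext y
         rw [LinearMap.coe_restrict_apply, map_mul, map_mul]
         rfl }, fun g y => rfl⟩
  have hfix : ∀ y : Y, y ∈ fixSp σ (RB (c2 (a + b) a)) ↔ (y : V) ∈ fixSp ρ (RB c) := by
    intro y
    constructor
    · intro hy
      rw [fix_RB_iff (c2_mono _ _)] at hy
      rw [fix_RB_iff hP.mono]
      intro i j hij hcij x
      by_cases hne : cm t c i = cm t c j
      · have h1 : c i ≤ c j := hP.mono hij.le
        have h3 : c i = t ∧ c j = t + 1 := by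
          simp only [cm] at hne
          split_ifs at hne <;> omega
        have h4 := (hb0 i).1 h3.1
        have h5 := (hb1 j).1 h3.2
        obtain ⟨i', rfl⟩ := hin i (by omega)
        obtain ⟨j', rfl⟩ := hin j (by omega)
        have h6 : i' < j' := by
          rw [Fin.lt_def] at hij ⊢
          rw [em_val, em_val] at hij
          omega
        have h7 : c2 (a + b) a i' ≠ c2 (a + b) a j' := by
          rw [hcem i', hcem j'] at hcij
          omega
        have h8 := congrArg Subtype.val (hy i' j' h6 h7 x)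
        rw [hσ, io_tv] at h8
        exact h8
      · have h1 : (y : V) ∈ fixSp ρ (RB (cm t c)) := hY ▸ y.2
        exact (fix_RB_iff hcm ρ _).1 h1 i j hij hne x
    · intro hy
      rw [mem_fixSp] at hy ⊢
      intro m hm
      refine Subtype.ext ?_
      rw [hσ]
      refine hy _ (io_RB h (fun i j => ?_) hm)
      rw [hcem i, hcem j]
      omega
  refine ⟨Y, σ, lam.comp (((io h).comp (UT (a + b) F).subtype).codRestrict (UT n F)
    (fun u => io_UT h u.2)), ?_, hYle, hσ, hfix, ?_⟩
  · have hlam : ∀ u : UT (a + b) F, lam.comp (((io h).comp (UT (a + b) F).subtype).codRestrict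
        (UT n F) (fun u => io_UT h u.2)) u = lam ⟨io h u, io_UT h u.2⟩ := fun u => rfl
    refine ⟨?_, ?_, c2_mono _ _, ?_, ?_, ?_⟩
    · obtain ⟨v, hv0, hv⟩ := (mem_Lin_iff ρ (UT n F) lam).1 hP.mem
      have hvY : v ∈ Y := hYle (eig_le_fix h2 hP (mem_eigSp.2 hv))
      refine (mem_Lin_iff σ _ _).2 ⟨⟨v, hvY⟩, fun h0 => hv0 (congrArg Subtype.val h0), fun x => ?_⟩
      refine Subtype.ext ?_
      rw [hσ, hlam]
      exact hv ⟨io h x, io_UT h x.2⟩
    · intro mu hmu
      obtain ⟨y, hy0, hy⟩ := (mem_Lin_iff σ _ _).1 hmu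
      obtain ⟨W, hW⟩ : ∃ W : Submodule ℂ V, ∀ v, v ∈ W ↔ v ∈ Y ∧
          ∀ u : UT (a + b) F, ρ (io h u) v = ((mu u : ℂˣ) : ℂ) • v :=
        ⟨{ carrier := {v | v ∈ Y ∧ ∀ u : UT (a + b) F, ρ (io h u) v = ((mu u : ℂˣ) : ℂ) • v}
           add_mem' := fun {x z} hx hz => ⟨Y.add_mem hx.1 hz.1, fun u => by
             rw [map_add, hx.2 u, hz.2 u, smul_add]⟩
           zero_mem' := ⟨Y.zero_mem, fun u => by rw [map_zero, smul_zero]⟩
           smul_mem' := fun r x hx => ⟨Y.smul_mem r hx.1, fun u => by
             rw [map_smul, hx.2 u, smul_comm]⟩ }, fun v => Iff.rfl⟩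
      obtain ⟨c3, hc3⟩ : ∃ c3 : Fin n → ℕ, ∀ i : Fin n, c3 i = if (i : ℕ) < o then c i else
          if (i : ℕ) < o + (a + b) then t + ((i : ℕ) - o) else c i + (a + b) := ⟨_, fun _ => rfl⟩
      have hc3m : Monotone c3 := by
        intro i j hij
        have h1 := hP.mono hij
        have h3 : (i : ℕ) ≤ j := hij
        have h4 := hlow i
        have h5 := hlow j
        have h6 := hhigh i
        have h7 := hhigh j
        rw [hc3, hc3]
        split_ifs <;> omega
      have hWne : W ≠ ⊥ := by
        intro h0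
        have h1 : (y : V) ∈ W := (hW _).2 ⟨y.2, fun u => by
          have h3 := congrArg Subtype.val (hy u)
          rw [hσ] at h3
          exact h3⟩
        rw [h0, Submodule.mem_bot] at h1
        exact hy0 (Subtype.ext h1)
      obtain ⟨nu, hnu, w, hwW, hw0, hw⟩ := eig h2 ρ c3 hc3m W hWne
        (by
          intro i j hij hcij _ w hw
          have hout : ¬ (o ≤ (i : ℕ) ∧ (i : ℕ) < o + (a + b)) ∧
              ¬ (o ≤ (j : ℕ) ∧ (j : ℕ) < o + (a + b)) ∧ c i = c j := by
            have h3 : (i : ℕ) ≠ j := fun h5 => hij (Fin.ext h5)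
            have h4 := hlow i
            have h5 := hlow j
            have h6 := hhigh i
            have h7 := hhigh j
            rw [hc3, hc3] at hcij
            split_ifs at hcij <;> omega
          obtain ⟨hwY, hwu⟩ := (hW w).1 hw
          refine (hW _).2 ⟨?_, fun u => ?_⟩
          · rw [hY] at hwY ⊢
            refine PB_fix ρ (tv_mem_PB hij 1 (le_of_eq ?_)) hwY
            simp only [cm]
            rw [hout.2.2]
          · rw [Tra_mul, Tra_comm h _ hij hout.1 hout.2.1, ← Tra_mul, hwu, map_smul])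
        (by
          intro i j hij hcij
          by_cases hboth : (o ≤ (i : ℕ) ∧ (i : ℕ) < o + (a + b)) ∧
              (o ≤ (j : ℕ) ∧ (j : ℕ) < o + (a + b))
          · obtain ⟨i', rfl⟩ := hin i hboth.1
            obtain ⟨j', rfl⟩ := hin j hboth.2
            have h6 : i' < j' := by
              rw [Fin.lt_def] at hij ⊢
              rw [em_val, em_val] at hij
              omega
            refine ⟨((mu (el h6 1) : ℂˣ) : ℂ), fun w hw => ?_⟩
            have h8 := ((hW w).1 hw).2 (el h6 1)
            have h9 : io h ((el h6 1 : UT (a + b) F) : SpecialLinearGroup (Fin (a + b)) F) =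
                SpecialLinearGroup.transvection hij.ne 1 := io_tv h h6.ne 1
            rw [h9] at h8
            exact h8
          · have hne : cm t c i < cm t c j := by
              have h1 : c i ≤ c j := hP.mono hij.le
              have h3 : (i : ℕ) < j := hij
              have h4 := hlow i
              have h5 := hlow j
              have h6 := hhigh i
              have h7 := hhigh j
              have h8 := hb0 i
              have h9 := hb0 j
              have h10 := hb1 i
              have h11 := hb1 j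
              rw [hc3, hc3] at hcij
              simp only [cm]
              split_ifs at hcij ⊢ <;> omega
            refine ⟨1, fun w hw => ?_⟩
            rw [one_smul]
            have h1 : w ∈ fixSp ρ (RB (cm t c)) := hY ▸ ((hW w).1 hw).1
            exact mem_fixSp.1 h1 _ (tv_mem_RB hij.ne 1 hne))
      have hnl := hP.only nu hnu
      subst hnl
      refine MonoidHom.ext fun u => Units.ext ?_
      have h1 := ((hW w).1 hwW).2 u
      have h3 := mem_eigSp.1 hw ⟨io h u, io_UT h u.2⟩
      rw [hlam]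
      have h4 : ((mu u : ℂˣ) : ℂ) • w = ((nu ⟨io h u, io_UT h u.2⟩ : ℂˣ) : ℂ) • w := by
        rw [← h1]
        exact h3
      rw [← sub_eq_zero, ← sub_smul, smul_eq_zero] at h4
      exact sub_eq_zero.1 (h4.resolve_right hw0)
    · intro i hi
      rw [TwoE_lt, hi]
      exact ha
    · intro i j hij
      simp only [c2]
      split_ifs <;> omega
    · intro i j hij hs
      have h6 : em h i < em h j := by
        rw [Fin.lt_def, em_val, em_val]
        rw [Fin.lt_def] at hij
        omega
      have h1 := hP.blk (em h i) (em h j) h6 (by rw [em_val, em_val]; omega)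
      rw [hlam]
      have h3 : (⟨io h (el hij 1 : UT (a + b) F), io_UT h (el hij 1 : UT (a + b) F).2⟩ : UT n F) =
          el h6 1 := Subtype.ext (io_tv h hij.ne 1)
      rw [h3, ← h1, hcem i, hcem j]
      omega
  · intro y
    have h1 := av_mem σ (RB (c2 (a + b) a)) y
    have h3 := (hfix _).1 h1
    have h4 := av_map σ (RB (c2 (a + b) a)) ((av ρ (RB c)).comp Y.subtype) y (fun m hm => by
      rw [LinearMap.comp_apply, LinearMap.comp_apply, Submodule.subtype_apply,
        Submodule.subtype_apply, hσ]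
      refine av_rho ρ (RB c) (io_RB h (fun i j => ?_) hm) _
      rw [hcem i, hcem j]
      omega)
    rw [LinearMap.comp_apply, LinearMap.comp_apply, Submodule.subtype_apply,
      Submodule.subtype_apply, av_self ρ (RB c) h3] at h4
    exact h4

end Pool.Agent.H.MP_7d3ffc_al.DF
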