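import Pool.Agent.H.MP_7d3ffc_al.DF.Bk

/-!
# Module DF/Van: the exchange of two blocks of the same size

`n = 2 * m`, `ρ` pure with block function `c2 n m`, `X = fixSp ρ (RB c2)`, `s = pm h2 (sw hn)`,
`e = av ρ (RB c2)`, `A y = e (ρ s y)`. For `p ∈ PB c2`: `e (ρ p y) = ρ p (e y)` (`av_conj`, `PB_conj`).

`van2`: `g = bk A B C D`, `C ≠ 0`, `C` not a unit. `g = u * pm σ * u'` (`bruhat_one`), `u`, `u'` are block upper
triangular with invertible diagonal blocks, so `C = u2 * C' * u1'` where `C'` is the lower left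
block of `pm σ`. `C' ≠ 0` gives `i < m` with `m ≤ σ i`. If `e (ρ g x) = ρ u (e (ρ (pm σ) (ρ u' x))) ≠ 0` then by
`van_perm` all `i < m` have `m ≤ σ i`, so `C'` is a permutation matrix, hence a unit, and `C` is a unit, a
contradiction.
-/

namespace Pool.Agent.H.MP_7d3ffc_al.DF

open Matrix Matrix.SpecialLinearGroup Pool.Agent.H.MP_7d3ffc_al Pool.Agent.H.MP_7d3ffc_al.DC Module

variable {n m : ℕ} {F : Type*} [Field F] [Finite F] {V : Type*} [AddCommGroup V] [Module ℂ V]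
  [FiniteDimensional ℂ V] {ρ : Representation ℂ (SpecialLinearGroup (Fin n) F) V}
  {lam : UT n F →* ℂˣ}

omit [Field F] [Finite F] in
theorem Van_apply (hn : n = 2 * m) (A B C D : Matrix (Fin m) (Fin m) F) (i j : Fin m ⊕ Fin m) :
    bk hn A B C D (eb hn i) (eb hn j) = Matrix.fromBlocks A B C D i j := by
  simp [bk, Matrix.reindex_apply, Matrix.submatrix_apply]

omit [Finite F] in
theorem Van_isUnit {M N : Matrix (Fin m) (Fin m) F} (h : M * N = 1) : IsUnit M :=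
  ⟨⟨M, N, h, mul_eq_one_comm.mp h⟩, rfl⟩

omit [Finite F] in
/-- the diagonal blocks of a block upper triangular matrix are invertible -/
theorem Van_diag (hn : n = 2 * m) {u : SpecialLinearGroup (Fin n) F} (hu : u ∈ PB (c2 n m))
    {A B C D : Matrix (Fin m) (Fin m) F} (hg : u.1 = bk hn A B C D) :
    C = 0 ∧ IsUnit A ∧ IsUnit D := by
  have hC : C = 0 := (mem_PB_iff hn hg).mp hu
  obtain ⟨A', B', C', D', h'⟩ := exists_bk hn (u⁻¹).1
  have hC' : C' = 0 := (mem_PB_iff hn h').mp ((PB (c2 n m)).inv_mem hu)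
  have h1 : u.1 * (u⁻¹).1 = 1 := by
    have := congrArg Subtype.val (mul_inv_cancel u)
    exact this
  rw [hg, h', bk_mul, ← bk_one hn] at h1
  obtain ⟨hA, -, -, hD⟩ := bk_inj hn h1
  subst hC hC'
  refine ⟨rfl, Van_isUnit (N := A') ?_, Van_isUnit (N := D') ?_⟩
  · rw [← hA, mul_zero, add_zero]
  · rw [← hD, zero_mul, zero_add]

theorem van2 (h2 : ∀ a : F, a = 0 ∨ a = 1) (hn : n = 2 * m) (hm : 0 < m)
    (hP : IsPure ρ lam (c2 n m)) {g : SpecialLinearGroup (Fin n) F}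
    {A B C D : Matrix (Fin m) (Fin m) F} (hg : g.1 = bk hn A B C D) (hC : C ≠ 0)
    (hC' : ¬ IsUnit C) {x : V} (hx : x ∈ fixSp ρ (RB (c2 n m))) :
    av ρ (RB (c2 n m)) (ρ g x) = 0 := by
  obtain ⟨u, hu, u', hu', σ, rfl⟩ := bruhat_one h2 g
  have hup : u ∈ PB (c2 n m) := UT_le_PB (c2_mono n m) hu
  have hup' : u' ∈ PB (c2 n m) := UT_le_PB (c2_mono n m) hu'
  rw [map_mul, map_mul, Module.End.mul_apply, Module.End.mul_apply,
    av_conj ρ (RB (c2 n m)) (fun r hr => PB_conj hup hr)]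
  by_contra hne
  have h0 : av ρ (RB (c2 n m)) (ρ (pm h2 σ) (ρ u' x)) ≠ 0 := by
    intro h
    rw [h, map_zero] at hne
    exact hne rfl
  obtain ⟨A1, B1, C1, D1, h1⟩ := exists_bk hn u.1
  obtain ⟨A2, B2, C2, D2, h2'⟩ := exists_bk hn u'.1
  obtain ⟨A3, B3, C3, D3, h3⟩ := exists_bk hn (pm h2 σ).1
  obtain ⟨A4, B4, C4, D4, h4⟩ := exists_bk hn ((pm h2 σ)⁻¹).1
  obtain ⟨hC1, -, hD1⟩ := Van_diag hn hup h1
  obtain ⟨hC2, hA2, -⟩ := Van_diag hn hup' h2'
  subst hC1 hC2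
  have hprod : (u * pm h2 σ * u').1 = u.1 * (pm h2 σ).1 * u'.1 := rfl
  rw [hprod, h1, h2', h3, bk_mul, bk_mul] at hg
  obtain ⟨-, -, hCC, -⟩ := bk_inj hn hg
  rw [zero_mul, zero_add, mul_zero, add_zero] at hCC
  have hC3 : C3 ≠ 0 := by
    rintro rfl
    apply hC
    rw [← hCC, mul_zero, zero_mul]
  have hσ : ∃ p q, C3 p q ≠ 0 := by
    by_contra hcon
    push Not at hcon
    exact hC3 (Matrix.ext hcon)
  obtain ⟨p, q, hpq⟩ := hσ
  have e1 : (pm h2 σ).1 (eb hn (Sum.inr p)) (eb hn (Sum.inl q)) = C3 p q := by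
    rw [h3, Van_apply, Matrix.fromBlocks_apply₂₁]
  rw [← e1, pm_apply] at hpq
  have e2 : eb hn (Sum.inr p) = σ (eb hn (Sum.inl q)) := by
    by_contra hcon
    exact hpq (if_neg hcon)
  obtain ⟨-, hv⟩ := van_perm h2 hm hP σ (PB_fix ρ hup' hx)
    ⟨eb hn (Sum.inl q), by rw [eb_inl]; exact q.2, by rw [← e2, eb_inr]; omega⟩ h0
  have hD3 : D3 = 0 := by
    ext i j
    have e3 : (pm h2 σ).1 (eb hn (Sum.inr i)) (eb hn (Sum.inr j)) = D3 i j := by
      rw [h3, Van_apply, Matrix.fromBlocks_apply₂₂]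
    rw [← e3, pm_apply, Matrix.zero_apply, if_neg]
    intro hcon
    have h5 := hv (eb hn (Sum.inr j)) (by rw [eb_inr]; omega)
    rw [← hcon, eb_inr] at h5
    omega
  have hu3 : IsUnit C3 := by
    have h6 : (pm h2 σ).1 * ((pm h2 σ)⁻¹).1 = 1 := by
      have := congrArg Subtype.val (mul_inv_cancel (pm h2 σ))
      exact this
    rw [h3, h4, bk_mul, ← bk_one hn] at h6
    obtain ⟨-, -, -, hD⟩ := bk_inj hn h6
    refine Van_isUnit (N := B4) ?_
    rw [← hD, hD3, zero_mul, add_zero]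
  apply hC'
  rw [← hCC]
  exact (hD1.mul hu3).mul hA2

end Pool.Agent.H.MP_7d3ffc_al.DF
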